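import Mathlib

open Finset

namespace Pool.Agent.H991R2.BL

variable {α : Type*} [DecidableEq α]

lemma card_cyl (E F H : Finset α) (M : ℕ) (hF : F ⊆ E) (hH : H ⊆ E) (hd : Disjoint F H)
    (hM : F.card ≤ M) :
    ((powersetCard M E).filter (fun S => F ⊆ S ∧ Disjoint H S)).card
      = (E.card - F.card - H.card).choose (M - F.card) := by
  have h1 : ((E \ F) \ H).card = E.card - F.card - H.card := by
    rw [card_sdiff_of_subset, card_sdiff_of_subset hF]
    intro x hx
    rw [mem_sdiff]
    exact ⟨hH hx, fun h => (disjoint_left.mp hd) h hx⟩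
  rw [← h1, ← card_powersetCard]
  refine card_nbij' (fun S => S \ F) (fun T => T ∪ F) ?_ ?_ ?_ ?_
  · intro S hS
    simp only [coe_filter, mem_powersetCard, Set.mem_ofPred_eq, mem_coe] at hS ⊢
    obtain ⟨⟨hSE, hSM⟩, hFS, hHS⟩ := hS
    refine ⟨?_, ?_⟩
    · intro x hx
      simp only [mem_sdiff] at hx ⊢
      exact ⟨⟨hSE hx.1, hx.2⟩, fun h => (disjoint_left.mp hHS) h hx.1⟩
    · rw [card_sdiff_of_subset hFS, hSM]
  · intro T hT
    simp only [coe_filter, mem_powersetCard, Set.mem_ofPred_eq, mem_coe] at hT ⊢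
    obtain ⟨hTE, hTM⟩ := hT
    refine ⟨⟨?_, ?_⟩, subset_union_right, ?_⟩
    · intro x hx
      rw [mem_union] at hx
      rcases hx with hx | hx
      · have := hTE hx
        simp only [mem_sdiff] at this
        exact this.1.1
      · exact hF hx
    · rw [card_union_of_disjoint, hTM]
      · omega
      · rw [disjoint_left]
        intro x hx hxF
        have := hTE hx
        simp only [mem_sdiff] at this
        exact this.1.2 hxF
    · rw [disjoint_left]
      intro x hx hxT
      rw [mem_union] at hxT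
      rcases hxT with h | h
      · have := hTE h
        simp only [mem_sdiff] at this
        exact this.2 hx
      · exact (disjoint_left.mp hd) h hx
  · intro S hS
    simp only [coe_filter, mem_powersetCard, Set.mem_ofPred_eq] at hS
    exact sdiff_union_of_subset hS.2.1
  · intro T hT
    simp only [mem_coe, mem_powersetCard] at hT
    ext x
    simp only [mem_sdiff, mem_union]
    constructor
    · rintro ⟨h | h, h2⟩
      · exact h
      · exact absurd h h2
    · intro h
      have := hT.1 h
      simp only [mem_sdiff] at this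
      exact ⟨Or.inl h, this.1.2⟩

lemma choose_bound1 (e M h : ℕ) (hM : M ≤ e) (he : 0 < e) (hh : h ≤ e) :
    ((e - h).choose M : ℝ) ≤ (e.choose M : ℝ) * (1 - (M : ℝ) / e) ^ h := by
  induction h with
  | zero => simp
  | succ h ih =>
    have hx : (0 : ℝ) ≤ 1 - (M : ℝ) / e := by
      rw [sub_nonneg, div_le_one (by exact_mod_cast he)]
      exact_mod_cast hM
    have ih' := ih (by omega)
    by_cases hMh : M ≤ e - (h + 1)
    · have key := Nat.choose_mul_succ_eq (e - (h + 1)) M
      have e1 : e - (h + 1) + 1 = e - h := by omega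
      rw [e1] at key
      have key' : ((e - (h + 1)).choose M : ℝ) * ((e - h : ℕ) : ℝ)
          = ((e - h).choose M : ℝ) * ((e - h - M : ℕ) : ℝ) := by exact_mod_cast key
      have c1 : ((e - h : ℕ) : ℝ) = (e : ℝ) - h := by
        rw [Nat.cast_sub (by omega)]
      have c2 : ((e - h - M : ℕ) : ℝ) = (e : ℝ) - h - M := by
        rw [Nat.cast_sub (by omega), Nat.cast_sub (by omega)]
      rw [c1, c2] at key'
      have hpos : (0 : ℝ) < (e : ℝ) - h := by
        rw [← c1]; exact_mod_cast (by omega : 0 < e - h)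
      have hepos : (0 : ℝ) < e := by exact_mod_cast he
      have h3 : ((e : ℝ) - h - M) / ((e : ℝ) - h) ≤ 1 - (M : ℝ) / e := by
        rw [div_le_iff₀ hpos]
        have h4 : (1 - (M : ℝ) / e) * ((e : ℝ) - h) = (e : ℝ) - h - M + (M : ℝ) * h / e := by
          field_simp
          ring
        rw [h4]
        have : (0 : ℝ) ≤ (M : ℝ) * h / e := by positivity
        linarith
      have h5 : ((e - (h + 1)).choose M : ℝ)
          = ((e - h).choose M : ℝ) * (((e : ℝ) - h - M) / ((e : ℝ) - h)) := by
        rw [mul_div_assoc', eq_div_iff hpos.ne']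
        exact key'
      rw [h5, pow_succ, ← mul_assoc]
      have h6 : (0 : ℝ) ≤ ((e - h).choose M : ℝ) := by positivity
      calc ((e - h).choose M : ℝ) * (((e : ℝ) - h - M) / ((e : ℝ) - h))
          ≤ ((e - h).choose M : ℝ) * (1 - (M : ℝ) / e) := mul_le_mul_of_nonneg_left h3 h6
        _ ≤ _ := mul_le_mul_of_nonneg_right ih' hx
    · rw [Nat.choose_eq_zero_of_lt (by omega)]
      simp only [Nat.cast_zero]
      positivity

lemma choose_bound2 (a M f : ℕ) (hM : M ≤ a) (ha : 0 < a) (hf : f ≤ M) :
    ((a - f).choose (M - f) : ℝ) ≤ (a.choose M : ℝ) * ((M : ℝ) / a) ^ f := by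
  induction f with
  | zero => simp
  | succ f ih =>
    have ih' := ih (by omega)
    have key := Nat.add_one_mul_choose_eq (a - (f + 1)) (M - (f + 1))
    have e1 : a - (f + 1) + 1 = a - f := by omega
    have e2 : M - (f + 1) + 1 = M - f := by omega
    rw [e1, e2] at key
    have key' : ((a - f : ℕ) : ℝ) * ((a - (f + 1)).choose (M - (f + 1)) : ℝ)
        = ((a - f).choose (M - f) : ℝ) * ((M - f : ℕ) : ℝ) := by exact_mod_cast key
    have c1 : ((a - f : ℕ) : ℝ) = (a : ℝ) - f := by rw [Nat.cast_sub (by omega)]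
    have c2 : ((M - f : ℕ) : ℝ) = (M : ℝ) - f := by rw [Nat.cast_sub (by omega)]
    rw [c1, c2] at key'
    have hpos : (0 : ℝ) < (a : ℝ) - f := by
      rw [← c1]; exact_mod_cast (by omega : 0 < a - f)
    have hapos : (0 : ℝ) < a := by exact_mod_cast ha
    have h3 : ((M : ℝ) - f) / ((a : ℝ) - f) ≤ (M : ℝ) / a := by
      rw [div_le_div_iff₀ hpos hapos]
      have : (M : ℝ) ≤ a := by exact_mod_cast hM
      nlinarith [(Nat.cast_nonneg f : (0 : ℝ) ≤ f)]
    have h5 : ((a - (f + 1)).choose (M - (f + 1)) : ℝ)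
        = ((a - f).choose (M - f) : ℝ) * (((M : ℝ) - f) / ((a : ℝ) - f)) := by
      rw [mul_div_assoc', eq_div_iff hpos.ne', mul_comm]
      exact key'
    rw [h5, pow_succ, ← mul_assoc]
    have h6 : (0 : ℝ) ≤ ((a - f).choose (M - f) : ℝ) := by positivity
    calc ((a - f).choose (M - f) : ℝ) * (((M : ℝ) - f) / ((a : ℝ) - f))
        ≤ ((a - f).choose (M - f) : ℝ) * ((M : ℝ) / a) := mul_le_mul_of_nonneg_left h3 h6
      _ ≤ _ := mul_le_mul_of_nonneg_right ih' (by positivity)

omit [DecidableEq α] in
/-- the fraction of the `M`-subsets of `E` with property `P` -/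
noncomputable def pr (E : Finset α) (M : ℕ) (P : Finset α → Prop) : ℝ := by
  classical exact (((powersetCard M E).filter P).card : ℝ) / ((E.card.choose M : ℕ) : ℝ)

lemma pr_eq (E : Finset α) (M : ℕ) (P : Finset α → Prop) [DecidablePred P] :
    pr E M P = (((powersetCard M E).filter P).card : ℝ) / ((E.card.choose M : ℕ) : ℝ) := by
  unfold pr
  congr!

lemma pr_nonneg (E : Finset α) (M : ℕ) (P : Finset α → Prop) : 0 ≤ pr E M P := by
  unfold pr; positivity

lemma pr_mono (E : Finset α) (M : ℕ) (P Q : Finset α → Prop)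
    (h : ∀ S ⊆ E, S.card = M → P S → Q S) : pr E M P ≤ pr E M Q := by
  classical
  rw [pr_eq, pr_eq]
  apply div_le_div_of_nonneg_right _ (by positivity)
  norm_cast
  apply card_le_card
  intro S hS
  simp only [mem_filter, mem_powersetCard] at hS ⊢
  exact ⟨hS.1, h S hS.1.1 hS.1.2 hS.2⟩

lemma pr_union {ι : Type*} (E : Finset α) (M : ℕ) (I : Finset ι) (P : ι → Finset α → Prop) :
    pr E M (fun S => ∃ i ∈ I, P i S) ≤ ∑ i ∈ I, pr E M (P i) := by
  classical
  rw [pr_eq]
  simp_rw [pr_eq]
  rw [← sum_div]
  apply div_le_div_of_nonneg_right _ (by positivity)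
  norm_cast
  have : (powersetCard M E).filter (fun S => ∃ i ∈ I, P i S)
      = I.biUnion (fun i => (powersetCard M E).filter (P i)) := by
    ext S
    simp only [mem_filter, mem_biUnion]
    constructor
    · rintro ⟨h, i, hi, hP⟩; exact ⟨i, hi, h, hP⟩
    · rintro ⟨i, hi, h, hP⟩; exact ⟨h, i, hi, hP⟩
  rw [this]
  exact card_biUnion_le

lemma pr_or (E : Finset α) (M : ℕ) (P Q : Finset α → Prop) :
    pr E M (fun S => P S ∨ Q S) ≤ pr E M P + pr E M Q := by
  classical
  rw [pr_eq, pr_eq, pr_eq]
  rw [← add_div]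
  apply div_le_div_of_nonneg_right _ (by positivity)
  norm_cast
  rw [filter_or]
  exact card_union_le _ _

lemma pr_compl (E : Finset α) (M : ℕ) (hM : M ≤ E.card) (P : Finset α → Prop) :
    pr E M P + pr E M (fun S => ¬ P S) = 1 := by
  classical
  rw [pr_eq, pr_eq]
  rw [← add_div]
  have h := Finset.card_filter_add_card_filter_not (s := powersetCard M E) P
  rw [card_powersetCard] at h
  rw [div_eq_one_iff_eq]
  · exact_mod_cast h
  · have := Nat.choose_pos hM
    exact_mod_cast this.ne'

lemma pr_cyl (E F H : Finset α) (M : ℕ) (hM : M ≤ E.card) (hH : H ⊆ E)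
    (hH2 : 2 * H.card ≤ E.card) (hE : 0 < E.card) :
    pr E M (fun S => F ⊆ S ∧ Disjoint H S)
      ≤ (2 * ((M : ℝ) / E.card)) ^ F.card * Real.exp (-((M : ℝ) / E.card) * H.card) := by
  classical
  by_cases hF : F ⊆ E ∧ Disjoint F H ∧ F.card ≤ M
  swap
  · have : pr E M (fun S => F ⊆ S ∧ Disjoint H S) = 0 := by
      rw [pr_eq, filter_false_of_mem]
      · simp
      · intro S hS hc
        rw [mem_powersetCard] at hS
        apply hF
        refine ⟨hc.1.trans hS.1, ?_, ?_⟩
        · exact (disjoint_of_subset_left hc.1 hc.2.symm)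
        · rw [← hS.2]; exact card_le_card hc.1
    rw [this]; positivity
  obtain ⟨hF, hd, hFM⟩ := hF
  have hEr : (0 : ℝ) < E.card := by exact_mod_cast hE
  rw [pr_eq]
  have h0 := card_cyl E F H M hF hH hd hFM
  have hcp : (0 : ℝ) < ((E.card.choose M : ℕ) : ℝ) := by exact_mod_cast Nat.choose_pos hM
  rw [div_le_iff₀ hcp]
  have h0' : ((((powersetCard M E).filter (fun S => F ⊆ S ∧ Disjoint H S)).card : ℕ) : ℝ)
      = ((E.card - F.card - H.card).choose (M - F.card) : ℝ) := by exact_mod_cast h0
  have hconv : ((((powersetCard M E).filter (fun S => F ⊆ S ∧ Disjoint H S)).card : ℕ) : ℝ) ≤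
     (2 * ((M : ℝ) / E.card)) ^ F.card * Real.exp (-((M : ℝ) / E.card) * H.card)
      * ((E.card.choose M : ℕ) : ℝ) := by
    rw [h0']
    by_cases hMa : M ≤ E.card - H.card
    · have hHle : H.card ≤ E.card := by omega
      have hapos : 0 < E.card - H.card := by omega
      have b2 := choose_bound2 (E.card - H.card) M F.card hMa hapos hFM
      have b1 := choose_bound1 E.card M H.card hM hE hHle
      have e1 : E.card - H.card - F.card = E.card - F.card - H.card := by omega
      rw [e1] at b2
      have h3 : (M : ℝ) / ((E.card - H.card : ℕ) : ℝ) ≤ 2 * ((M : ℝ) / E.card) := by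
        have hh : (E.card : ℝ) / 2 ≤ ((E.card - H.card : ℕ) : ℝ) := by
          rw [Nat.cast_sub hHle]
          have : (2 : ℝ) * H.card ≤ E.card := by exact_mod_cast hH2
          linarith
        calc (M : ℝ) / ((E.card - H.card : ℕ) : ℝ) ≤ (M : ℝ) / ((E.card : ℝ) / 2) := by
              apply div_le_div_of_nonneg_left (by positivity) (by positivity) hh
          _ = _ := by field_simp
      have hp1 : (M : ℝ) / E.card ≤ 1 := by
        rw [div_le_one hEr]; exact_mod_cast hM
      have h4 : (1 - (M : ℝ) / E.card) ^ H.card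
          ≤ Real.exp (-((M : ℝ) / E.card) * H.card) := by
        rw [mul_comm, Real.exp_nat_mul]
        apply pow_le_pow_left₀ (by linarith)
        have := Real.add_one_le_exp (-((M : ℝ) / E.card))
        linarith
      calc ((E.card - F.card - H.card).choose (M - F.card) : ℝ)
          ≤ ((E.card - H.card).choose M : ℝ) * ((M : ℝ) / ((E.card - H.card : ℕ) : ℝ)) ^ F.card :=
            b2
        _ ≤ ((E.card.choose M : ℝ) * (1 - (M : ℝ) / E.card) ^ H.card)
              * (2 * ((M : ℝ) / E.card)) ^ F.card := by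
            apply mul_le_mul b1
            · exact pow_le_pow_left₀ (by positivity) h3 _
            · positivity
            · have : (0 : ℝ) ≤ 1 - (M : ℝ) / E.card := by linarith
              positivity
        _ ≤ ((E.card.choose M : ℝ) * Real.exp (-((M : ℝ) / E.card) * H.card))
              * (2 * ((M : ℝ) / E.card)) ^ F.card := by
            apply mul_le_mul_of_nonneg_right _ (by positivity)
            exact mul_le_mul_of_nonneg_left h4 (by positivity)
        _ = _ := by ring
    · have hFH : F.card + H.card ≤ E.card := by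
        rw [← card_union_of_disjoint hd]
        exact card_le_card (union_subset hF hH)
      rw [Nat.choose_eq_zero_of_lt (by omega)]
      simp only [Nat.cast_zero]
      positivity
  exact hconv

lemma pr_le_one (E : Finset α) (M : ℕ) (P : Finset α → Prop) : pr E M P ≤ 1 := by
  classical
  rw [pr_eq]
  by_cases h : (E.card.choose M : ℝ) = 0
  · rw [h]; simp
  · rw [div_le_one (lt_of_le_of_ne (by positivity) (Ne.symm h))]
    norm_cast
    rw [← card_powersetCard]
    exact card_filter_le _ _

/-- Markov inequality -/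
lemma pr_markov {ι : Type*} [DecidableEq ι] (E : Finset α) (M : ℕ) (I : Finset ι)
    (P : ι → Finset α → Prop) [∀ S, DecidablePred (fun i => P i S)] (a : ℝ) (ha : 0 < a) :
    pr E M (fun S => a ≤ ((I.filter (fun i => P i S)).card : ℝ))
      ≤ (∑ i ∈ I, pr E M (P i)) / a := by
  classical
  rw [pr_eq]
  simp_rw [pr_eq]
  rw [← sum_div, div_div, mul_comm ((E.card.choose M : ℕ) : ℝ) a, ← div_div]
  apply div_le_div_of_nonneg_right _ (by positivity)
  rw [le_div_iff₀ ha]
  have h1 : ∑ i ∈ I, (((powersetCard M E).filter (P i)).card : ℝ)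
      = ∑ S ∈ powersetCard M E, ((I.filter (fun i => P i S)).card : ℝ) := by
    have : ∀ i, (((powersetCard M E).filter (P i)).card : ℝ)
        = ∑ S ∈ powersetCard M E, if P i S then (1 : ℝ) else 0 := by
      intro i; rw [← sum_filter]; simp
    simp_rw [this]
    rw [sum_comm]
    apply sum_congr rfl
    intro S _
    rw [← sum_filter]; simp
  have h2 : (((powersetCard M E).filter
      (fun S => a ≤ ((I.filter (fun i => P i S)).card : ℝ))).card : ℝ) * a
      ≤ ∑ S ∈ powersetCard M E, ((I.filter (fun i => P i S)).card : ℝ) := by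
    rw [← nsmul_eq_mul, ← sum_const]
    refine le_trans (sum_le_sum (g := fun S => ((I.filter (fun i => P i S)).card : ℝ)) ?_)
      (sum_le_sum_of_subset_of_nonneg (filter_subset _ _) (by intros; positivity))
    intro S hS
    exact (mem_filter.mp hS).2
  calc _ ≤ _ := h2
    _ = _ := h1.symm

end Pool.Agent.H991R2.BL
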