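import Mathlib
import Pool.Agent.H991R2.BL.Cyl

open Finset

namespace Pool.Agent.H991R2.BL

variable {V : Type*} [Fintype V] [DecidableEq V] {k : ℕ}

/-- the set of bichromatic pairs -/
def bic (c : V → Fin k) : Finset (Sym2 V) :=
  (univ.filter (fun p : V × V => c p.1 ≠ c p.2)).image (fun p => s(p.1, p.2))

lemma mem_bic (c : V → Fin k) (u v : V) : s(u, v) ∈ bic c ↔ c u ≠ c v := by
  unfold bic
  simp only [mem_image, mem_filter, mem_univ, true_and, Prod.exists, Sym2.eq_iff]
  constructor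
  · rintro ⟨a, b, hab, (⟨rfl, rfl⟩ | ⟨rfl, rfl⟩)⟩
    · exact hab
    · exact hab.symm
  · intro h
    exact ⟨u, v, h, Or.inl ⟨rfl, rfl⟩⟩

omit [Fintype V] in
lemma card_image_mk (A : Finset V) (P : Finset (V × V)) (h : ∀ p ∈ P, p.1 ∈ A ∧ p.2 ∉ A) :
    (P.image (fun p => s(p.1, p.2))).card = P.card := by
  apply card_image_of_injOn
  intro p hp q hq hpq
  have h1 := h p hp
  have h2 := h q hq
  simp only [Sym2.eq_iff] at hpq
  rcases hpq with ⟨h3, h4⟩ | ⟨h3, h4⟩
  · exact Prod.ext h3 h4
  · exfalso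
    rw [h3] at h1
    exact h2.2 h1.1

/-- `p` -/
noncomputable def dens (c : V → Fin k) (M : ℕ) : ℝ := (M : ℝ) / ((bic c).card : ℝ)

lemma dens_nonneg (c : V → Fin k) (M : ℕ) : 0 ≤ dens c M := by
  unfold dens; positivity

lemma pr_stars {ι : Type*} [Nonempty ι] (c : V → Fin k) (j : Fin k) (Q : Finset V)
    (hQ : ∀ w ∈ Q, c w = j)
    (O : Finset ι) (oA oB : ι → Finset V) (hO : ∀ o ∈ O, ∀ u, (u ∈ oA o ∨ u ∈ oB o) → c u ≠ j)
    (M b : ℕ) (hb : ∀ o ∈ O, (oB o).card ≤ b)
    (hM : M ≤ (bic c).card) (h2 : 2 * (Q.card * b) ≤ (bic c).card) (h0 : 0 < (bic c).card) :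
    pr (bic c) M (fun S => ∀ w ∈ Q, ∃ o ∈ O, (∀ u ∈ oA o, s(w, u) ∈ S) ∧ (∀ u ∈ oB o, s(w, u) ∉ S))
      ≤ (∑ o ∈ O, (2 * dens c M) ^ (oA o).card * Real.exp (-(dens c M) * (oB o).card)) ^ Q.card := by
  classical
  set p := dens c M with hp
  have hp0 : 0 ≤ p := dens_nonneg c M
  let o0 : ι := Classical.arbitrary ι
  -- option families
  let I : Finset (V → ι) :=
    Fintype.piFinset (fun w => if w ∈ Q then O else {o0})
  let PF : (V → ι) → Finset (V × V) :=
    fun f => (Q ×ˢ (univ : Finset V)).filter (fun q => q.2 ∈ oA (f q.1))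
  let PH : (V → ι) → Finset (V × V) :=
    fun f => (Q ×ˢ (univ : Finset V)).filter (fun q => q.2 ∈ oB (f q.1))
  let mk : V × V → Sym2 V := fun q => s(q.1, q.2)
  have hI : ∀ f ∈ I, ∀ w ∈ Q, f w ∈ O := by
    intro f hf w hw
    have := (Fintype.mem_piFinset.mp hf) w
    simpa [hw] using this
  have hcard : ∀ (f : V → ι) (g : ι → Finset V),
      (∀ w ∈ Q, ∀ u ∈ g (f w), c u ≠ j) →
      (((Q ×ˢ (univ : Finset V)).filter (fun q => q.2 ∈ g (f q.1))).image mk).card
        = ∑ w ∈ Q, (g (f w)).card := by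
    intro f g hg
    rw [card_image_mk (univ.filter (fun v => c v = j))]
    · rw [← card_sigma]
      refine card_nbij' (fun q => ⟨q.1, q.2⟩) (fun q => (q.1, q.2)) ?_ ?_ ?_ ?_
      · intro q hq
        simp only [coe_filter, mem_product, mem_univ, and_true, Set.mem_ofPred_eq] at hq
        simp only [coe_sigma, Set.mem_sigma_iff, mem_coe]
        exact hq
      · intro q hq
        simp only [coe_sigma, Set.mem_sigma_iff, mem_coe] at hq
        simp only [coe_filter, mem_product, mem_univ, and_true, Set.mem_ofPred_eq]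
        exact hq
      · intro q _; rfl
      · intro q _; rfl
    · intro q hq
      simp only [mem_filter, mem_product, mem_univ, and_true, true_and] at hq ⊢
      exact ⟨hQ _ hq.1, hg _ hq.1 _ hq.2⟩
  -- union bound
  have step1 : pr (bic c) M (fun S => ∀ w ∈ Q, ∃ o ∈ O, (∀ u ∈ oA o, s(w, u) ∈ S) ∧
        (∀ u ∈ oB o, s(w, u) ∉ S))
      ≤ pr (bic c) M (fun S => ∃ f ∈ I, (PF f).image mk ⊆ S ∧ Disjoint ((PH f).image mk) S) := by
    apply pr_mono
    intro S hS hSM h
    choose! f hfO hf1 hf2 using h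
    refine ⟨fun w => if w ∈ Q then f w else o0, ?_, ?_, ?_⟩
    · rw [Fintype.mem_piFinset]
      intro w
      by_cases hw : w ∈ Q
      · simp [hw, hfO w hw]
      · simp [hw]
    · intro e he
      simp only [PF, mem_image, mem_filter, mem_product, mem_univ, and_true, mk] at he
      obtain ⟨q, ⟨hq1, hq2⟩, rfl⟩ := he
      simp only [hq1, if_true] at hq2
      exact hf1 _ hq1 _ hq2
    · rw [disjoint_left]
      intro e he
      simp only [PH, mem_image, mem_filter, mem_product, mem_univ, and_true, mk] at he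
      obtain ⟨q, ⟨hq1, hq2⟩, rfl⟩ := he
      simp only [hq1, if_true] at hq2
      exact hf2 _ hq1 _ hq2
  refine step1.trans ((pr_union _ _ _ _).trans ?_)
  -- each term
  have step2 : ∀ f ∈ I, pr (bic c) M (fun S => (PF f).image mk ⊆ S ∧ Disjoint ((PH f).image mk) S)
      ≤ ∏ w : V, (if w ∈ Q then (2 * p) ^ (oA (f w)).card * Real.exp (-p * (oB (f w)).card)
        else 1) := by
    intro f hf
    have hF := hcard f oA (fun w hw u hu => hO _ (hI f hf w hw) u (Or.inl hu))
    have hH := hcard f oB (fun w hw u hu => hO _ (hI f hf w hw) u (Or.inr hu))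
    have hHb : ((PH f).image mk).card ≤ Q.card * b := by
      have h3 : ((PH f).image mk).card = ∑ w ∈ Q, (oB (f w)).card := hH
      rw [h3, ← smul_eq_mul, ← sum_const]
      exact sum_le_sum (fun w hw => hb _ (hI f hf w hw))
    have hsub : (PH f).image mk ⊆ bic c := by
      intro e he
      simp only [PH, mem_image, mem_filter, mem_product, mem_univ, and_true, mk] at he
      obtain ⟨q, ⟨hq1, hq2⟩, rfl⟩ := he
      rw [mem_bic, hQ _ hq1]
      exact (hO _ (hI f hf _ hq1) _ (Or.inr hq2)).symm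
    have h5 := pr_cyl (bic c) ((PF f).image mk) ((PH f).image mk) M hM hsub (by omega) h0
    refine h5.trans (le_of_eq ?_)
    have h6 : ((PF f).image mk).card = ∑ w ∈ Q, (oA (f w)).card := hF
    have h7 : ((PH f).image mk).card = ∑ w ∈ Q, (oB (f w)).card := hH
    rw [h6, h7, prod_ite_mem, univ_inter, prod_mul_distrib, prod_pow_eq_pow_sum, ← Real.exp_sum]
    congr 2
    rw [← mul_sum]
    push_cast
    rfl
  refine (sum_le_sum step2).trans (le_of_eq ?_)
  have step3 := Finset.prod_univ_sum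
    (fun w : V => if w ∈ Q then O else {o0})
    (fun w o => if w ∈ Q then (2 * p) ^ (oA o).card * Real.exp (-p * (oB o).card) else 1)
  rw [← step3]
  have step4 : ∀ w : V, (∑ o ∈ (if w ∈ Q then O else {o0}),
      (if w ∈ Q then (2 * p) ^ (oA o).card * Real.exp (-p * (oB o).card) else 1))
      = if w ∈ Q then (∑ o ∈ O, (2 * p) ^ (oA o).card * Real.exp (-p * (oB o).card)) else 1 := by
    intro w
    by_cases hw : w ∈ Q
    · simp [hw]
    · simp [hw]
  rw [prod_congr rfl (fun w _ => step4 w), prod_ite_mem, univ_inter, prod_const]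

/-- colour class -/
def cls (c : V → Fin k) (l : Fin k) : Finset V := univ.filter (fun v => c v = l)

lemma mem_cls (c : V → Fin k) (l : Fin k) (v : V) : v ∈ cls c l ↔ c v = l := by
  simp [cls]

/-- neighbours of `w` in class `l` -/
def nb (c : V → Fin k) (S : Finset (Sym2 V)) (l : Fin k) (w : V) : Finset V :=
  (cls c l).filter (fun u => s(w, u) ∈ S)

/-- low vertices -/
def low (c : V → Fin k) (S : Finset (Sym2 V)) (w : V) : Prop :=
  ∃ l, l ≠ c w ∧ (nb c S l w).card ≤ 9

lemma sum_small_subsets (A : Finset V) (x D : ℝ) (hx : 0 ≤ x) (hD : 1 ≤ D) (h : x * A.card ≤ D)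
    (O : Finset (Finset V)) (hO : ∀ T ∈ O, T ⊆ A ∧ T.card ≤ 9) :
    ∑ T ∈ O, x ^ T.card ≤ 10 * D ^ 9 := by
  classical
  have h1 : ∑ T ∈ O, x ^ T.card ≤ ∑ t ∈ range 10, ∑ T ∈ powersetCard t A, x ^ T.card := by
    rw [← sum_biUnion]
    · apply sum_le_sum_of_subset_of_nonneg
      · intro T hT
        rw [mem_biUnion]
        refine ⟨T.card, ?_, ?_⟩
        · rw [mem_range]
          have := (hO T hT).2
          omega
        · rw [mem_powersetCard]
          exact ⟨(hO T hT).1, rfl⟩
      · intros; positivity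
    · intro a _ b _ hab
      simp only [Function.onFun]
      rw [disjoint_left]
      intro T h1 h2
      rw [mem_powersetCard] at h1 h2
      exact hab (h1.2.symm.trans h2.2)
  refine h1.trans ?_
  have h2 : ∀ t ∈ range 10, ∑ T ∈ powersetCard t A, x ^ T.card ≤ D ^ 9 := by
    intro t ht
    have h3 : ∑ T ∈ powersetCard t A, x ^ T.card = (A.card.choose t : ℝ) * x ^ t := by
      rw [sum_congr rfl (g := fun _ => x ^ t)]
      · rw [sum_const, card_powersetCard, nsmul_eq_mul]
      · intro T hT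
        rw [(mem_powersetCard.mp hT).2]
    rw [h3]
    have h4 : (A.card.choose t : ℝ) ≤ (A.card : ℝ) ^ t := by
      exact_mod_cast Nat.choose_le_pow _ _
    calc (A.card.choose t : ℝ) * x ^ t ≤ (A.card : ℝ) ^ t * x ^ t := by gcongr
      _ = (x * A.card) ^ t := by rw [mul_pow]; ring
      _ ≤ D ^ t := by gcongr
      _ ≤ D ^ 9 := by
        apply pow_le_pow_right₀ hD
        have := mem_range.mp ht
        omega
  refine (sum_le_sum h2).trans ?_
  simp

lemma pr_low (c : V → Fin k) (j : Fin k) (Q X : Finset V) (hQ : ∀ w ∈ Q, c w = j)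
    (hX : X.card ≤ 1) (hXj : ∀ x ∈ X, c x ≠ j) (M b : ℕ) (a D : ℝ)
    (ha : ∀ l, a ≤ (cls c l).card) (hb : ∀ l, (cls c l).card ≤ b) (hD : 1 ≤ D)
    (hD2 : ∀ l, 2 * dens c M * (cls c l).card ≤ D)
    (hM : M ≤ (bic c).card) (h2 : 2 * (Q.card * b) ≤ (bic c).card) (h0 : 0 < (bic c).card) :
    pr (bic c) M (fun S => ∀ w ∈ Q, low c S w ∧ ∀ x ∈ X, s(w, x) ∈ S)
      ≤ ((2 * dens c M) ^ X.card * (k * (10 * D ^ 9) * Real.exp (-(dens c M) * (a - 10))))
          ^ Q.card := by
  classical
  set p := dens c M with hp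
  have hp0 : 0 ≤ p := dens_nonneg c M
  have : Nonempty (Fin k × Finset V) := ⟨(j, ∅)⟩
  let O : Finset (Fin k × Finset V) :=
    ((univ : Finset (Fin k)).filter (· ≠ j)).biUnion
      (fun l => ((univ : Finset (Finset V)).filter
        (fun T => T ⊆ cls c l \ X ∧ T.card ≤ 9)).image (fun T => (l, T)))
  let oA : Fin k × Finset V → Finset V := fun o => o.2 ∪ X
  let oB : Fin k × Finset V → Finset V := fun o => cls c o.1 \ (o.2 ∪ X)
  have hmemO : ∀ o, o ∈ O ↔ o.1 ≠ j ∧ o.2 ⊆ cls c o.1 \ X ∧ o.2.card ≤ 9 := by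
    intro o
    simp only [O, mem_biUnion, mem_filter, mem_univ, true_and, mem_image]
    constructor
    · rintro ⟨l, hl, T, hT, rfl⟩
      exact ⟨hl, hT⟩
    · rintro ⟨h1, h2⟩
      exact ⟨o.1, h1, o.2, h2, rfl⟩
  have hO : ∀ o ∈ O, ∀ u, (u ∈ oA o ∨ u ∈ oB o) → c u ≠ j := by
    intro o ho u hu
    rw [hmemO] at ho
    rcases hu with hu | hu
    · simp only [oA, mem_union] at hu
      rcases hu with hu | hu
      · have := ho.2.1 hu
        rw [mem_sdiff, mem_cls] at this
        rw [this.1]; exact ho.1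
      · exact hXj u hu
    · simp only [oB, mem_sdiff, mem_cls] at hu
      rw [hu.1]; exact ho.1
  have hB : ∀ o ∈ O, (oB o).card ≤ b := by
    intro o _
    exact (card_le_card sdiff_subset).trans (hb o.1)
  have main := pr_stars c j Q hQ O oA oB hO M b hB hM h2 h0
  have step1 : pr (bic c) M (fun S => ∀ w ∈ Q, low c S w ∧ ∀ x ∈ X, s(w, x) ∈ S)
      ≤ pr (bic c) M (fun S => ∀ w ∈ Q, ∃ o ∈ O, (∀ u ∈ oA o, s(w, u) ∈ S) ∧
        (∀ u ∈ oB o, s(w, u) ∉ S)) := by
    apply pr_mono
    intro S _ _ h w hw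
    obtain ⟨⟨l, hl, hcard⟩, hx⟩ := h w hw
    refine ⟨(l, nb c S l w \ X), ?_, ?_, ?_⟩
    · rw [hmemO]
      refine ⟨by rw [← hQ w hw]; exact hl, ?_, (card_le_card sdiff_subset).trans hcard⟩
      apply sdiff_subset_sdiff _ (Subset.refl _)
      exact filter_subset _ _
    · intro u hu
      simp only [oA, mem_union, mem_sdiff, nb, mem_filter] at hu
      rcases hu with hu | hu
      · exact hu.1.2
      · exact hx u hu
    · intro u hu hS
      simp only [oB, mem_sdiff, mem_union, not_or, nb, mem_filter, not_and, not_not] at hu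
      exact hu.2.2 (hu.2.1 ⟨hu.1, hS⟩)
  refine step1.trans (main.trans ?_)
  apply pow_le_pow_left₀ (by positivity)
  have h5 : ∀ l ∈ (univ : Finset (Fin k)).filter (· ≠ j),
      ∑ T ∈ (univ : Finset (Finset V)).filter (fun T => T ⊆ cls c l \ X ∧ T.card ≤ 9),
        (2 * p) ^ (oA (l, T)).card * Real.exp (-p * (oB (l, T)).card)
      ≤ (2 * p) ^ X.card * ((10 * D ^ 9) * Real.exp (-p * (a - 10))) := by
    intro l hl
    have h6 : ∀ T ∈ (univ : Finset (Finset V)).filter (fun T => T ⊆ cls c l \ X ∧ T.card ≤ 9),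
        (2 * p) ^ (oA (l, T)).card * Real.exp (-p * (oB (l, T)).card)
        ≤ (2 * p) ^ T.card * ((2 * p) ^ X.card * Real.exp (-p * (a - 10))) := by
      intro T hT
      simp only [mem_filter, mem_univ, true_and] at hT
      have hd : Disjoint T X := by
        rw [disjoint_left]
        intro x hxT hxX
        have := hT.1 hxT
        rw [mem_sdiff] at this
        exact this.2 hxX
      have e1 : (oA (l, T)).card = T.card + X.card := card_union_of_disjoint hd
      have e2 : (a - 10) ≤ ((oB (l, T)).card : ℝ) := by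
        have h7 : (cls c l).card ≤ (oB (l, T)).card + (T ∪ X).card := by
          have := card_le_card_sdiff_add_card (s := cls c l) (t := T ∪ X)
          exact this
        have h8 : (T ∪ X).card ≤ 10 := by
          have := card_union_le T X
          omega
        have h9 : ((cls c l).card : ℝ) ≤ (oB (l, T)).card + 10 := by
          exact_mod_cast h7.trans (Nat.add_le_add_left h8 _)
        have := ha l
        linarith
      rw [e1, pow_add, mul_assoc]
      gcongr ?_ * (?_ * ?_)
      rw [Real.exp_le_exp]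
      nlinarith
    refine (sum_le_sum h6).trans ?_
    rw [← sum_mul]
    have h10 := sum_small_subsets (cls c l) (2 * p) D (by positivity) hD (hD2 l)
      ((univ : Finset (Finset V)).filter (fun T => T ⊆ cls c l \ X ∧ T.card ≤ 9))
      (by
        intro T hT
        simp only [mem_filter, mem_univ, true_and] at hT
        exact ⟨hT.1.trans sdiff_subset, hT.2⟩)
    calc _ ≤ (10 * D ^ 9) * ((2 * p) ^ X.card * Real.exp (-p * (a - 10))) := by
          gcongr
      _ = _ := by ring
  have h11 : ∑ o ∈ O, (2 * p) ^ (oA o).card * Real.exp (-p * (oB o).card)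
      = ∑ l ∈ (univ : Finset (Fin k)).filter (· ≠ j),
        ∑ T ∈ (univ : Finset (Finset V)).filter (fun T => T ⊆ cls c l \ X ∧ T.card ≤ 9),
        (2 * p) ^ (oA (l, T)).card * Real.exp (-p * (oB (l, T)).card) := by
    rw [sum_biUnion]
    · apply sum_congr rfl
      intro l _
      rw [sum_image]
      intro x _ y _ hxy
      exact (Prod.mk.inj hxy).2
    · intro x _ y _ hxy
      simp only [Function.onFun]
      rw [disjoint_left]
      intro o h1 h2
      simp only [mem_image] at h1 h2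
      obtain ⟨_, _, rfl⟩ := h1
      obtain ⟨_, _, h3⟩ := h2
      exact hxy (Prod.mk.inj h3).1.symm
  rw [h11]
  refine (sum_le_sum h5).trans ?_
  rw [sum_const, nsmul_eq_mul]
  have h12 : (((univ : Finset (Fin k)).filter (· ≠ j)).card : ℝ) ≤ k := by
    have := card_filter_le (univ : Finset (Fin k)) (· ≠ j)
    rw [card_univ, Fintype.card_fin] at this
    exact_mod_cast this
  calc _ ≤ (k : ℝ) * ((2 * p) ^ X.card * ((10 * D ^ 9) * Real.exp (-p * (a - 10)))) := by
        gcongr
    _ = _ := by ring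

end Pool.Agent.H991R2.BL
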