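import Mathlib
import Pool.Agent.H991R2.BL.Stars

open Finset

namespace Pool.Agent.H991R2.BL

variable {V : Type*} [Fintype V] [DecidableEq V] {k : ℕ}

/-- the good event: there is a bilinked collection inside the colour classes -/
def Good (c : V → Fin k) (S : Finset (Sym2 V)) : Prop :=
  ∃ D : Fin k → Finset V, (∀ i, (D i).Nonempty) ∧ (∀ i, D i ⊆ cls c i) ∧
    ∀ i j, i ≠ j → ∀ A ⊆ D i ∪ D j, A.Nonempty → ((D i ∪ D j) \ A).Nonempty →
      ∃ u ∈ A, ∃ v ∈ (D i ∪ D j) \ A, s(u, v) ∈ S

open Classical in
/-- low vertices -/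
noncomputable def lowSet (c : V → Fin k) (S : Finset (Sym2 V)) : Finset V :=
  univ.filter (fun v => low c S v)

open Classical in
/-- vertices with four low neighbours in some class -/
noncomputable def badSet (c : V → Fin k) (S : Finset (Sym2 V)) : Finset V :=
  univ.filter (fun v => ∃ j, j ≠ c v ∧
    4 ≤ ((cls c j ∩ lowSet c S).filter (fun w => s(w, v) ∈ S)).card)

/-- min degree 4 -/
lemma dense_of_mindeg (c : V → Fin k) (S : Finset (Sym2 V)) (i j : Fin k) (hij : i ≠ j)
    (A : Finset V) (hA : A ⊆ cls c i ∪ cls c j)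
    (hdeg : ∀ v ∈ A, 4 ≤ (A.filter (fun u => c u ≠ c v ∧ s(v, u) ∈ S)).card) :
    2 * A.card ≤ (S ∩ A.sym2).card := by
  classical
  have key : ∀ l : Fin k, 4 * (A ∩ cls c l).card ≤ (S ∩ A.sym2).card := by
    intro l
    let P : Finset (V × V) := ((A ∩ cls c l) ×ˢ A).filter
      (fun q => c q.2 ≠ c q.1 ∧ s(q.1, q.2) ∈ S)
    have h1 : (P.image (fun q => s(q.1, q.2))).card = P.card := by
      apply card_image_mk (cls c l)
      intro q hq
      simp only [P, mem_filter, mem_product, mem_inter, mem_cls] at hq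
      rw [mem_cls, mem_cls]
      exact ⟨hq.1.1.2, fun h => hq.2.1 (h.trans hq.1.1.2.symm)⟩
    have h2 : P.image (fun q => s(q.1, q.2)) ⊆ S ∩ A.sym2 := by
      intro e he
      simp only [P, mem_image, mem_filter, mem_product, mem_inter] at he
      obtain ⟨q, hq, rfl⟩ := he
      rw [mem_inter, mk_mem_sym2_iff]
      exact ⟨hq.2.2, hq.1.1.1, hq.1.2⟩
    have h3 : P.card = ∑ v ∈ A ∩ cls c l, (A.filter (fun u => c u ≠ c v ∧ s(v, u) ∈ S)).card := by
      rw [← card_sigma]
      refine card_nbij' (fun q => ⟨q.1, q.2⟩) (fun q => (q.1, q.2)) ?_ ?_ ?_ ?_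
      · intro q hq
        simp only [P, coe_filter, mem_product, Set.mem_ofPred_eq] at hq
        simp only [coe_sigma, Set.mem_sigma_iff, mem_coe, mem_filter]
        exact ⟨hq.1.1, hq.1.2, hq.2⟩
      · intro q hq
        simp only [coe_sigma, Set.mem_sigma_iff, mem_coe, mem_filter] at hq
        simp only [P, coe_filter, mem_product, Set.mem_ofPred_eq]
        exact ⟨⟨hq.1, hq.2.1⟩, hq.2.2⟩
      · intro q _; rfl
      · intro q _; rfl
    have h4 : 4 * (A ∩ cls c l).card ≤ P.card := by
      rw [h3, mul_comm, ← smul_eq_mul, ← sum_const]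
      apply sum_le_sum
      intro v hv
      exact hdeg v (mem_inter.mp hv).1
    calc _ ≤ P.card := h4
      _ = _ := h1.symm
      _ ≤ _ := card_le_card h2
  have h5 : A.card ≤ (A ∩ cls c i).card + (A ∩ cls c j).card := by
    have h7 : A = (A ∩ cls c i) ∪ (A ∩ cls c j) := by
      rw [← inter_union_distrib_left]
      symm
      rw [inter_eq_left]
      exact hA
    calc A.card = ((A ∩ cls c i) ∪ (A ∩ cls c j)).card := by rw [← h7]
      _ ≤ _ := card_union_le _ _
  have := key i
  have := key j
  omega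

lemma good_of (c : V → Fin k) (S : Finset (Sym2 V)) (hS : S ⊆ bic c) (m0 t0 : ℕ) (r y : ℝ)
    (h1 : ∀ i, (cls c i ∩ lowSet c S).card ≤ m0)
    (h2 : 2 * (badSet c S).card ≤ t0)
    (h3 : ¬ ∃ T ⊆ (univ : Finset V), T.card = t0 ∧ 2 * t0 ≤ (S ∩ T.sym2).card)
    (h4 : ∀ i j, i ≠ j → ¬ ∃ T ⊆ cls c i ∪ cls c j, T.Nonempty ∧ (T.card : ℝ) ≤ y ∧
        2 * T.card ≤ (S ∩ T.sym2).card)
    (h5 : ∀ i j, i ≠ j → ¬ ∃ R ⊆ cls c i ∪ cls c j, ((R ∩ cls c i).card : ℝ) ≤ r ∧
        ((R ∩ cls c j).card : ℝ) ≤ r ∧ ∃ A ⊆ (cls c i ∪ cls c j) \ R, y ≤ A.card ∧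
        2 * A.card ≤ (cls c i ∪ cls c j).card ∧
        ∀ u ∈ A, ∀ v ∈ (cls c i ∪ cls c j) \ (R ∪ A), s(u, v) ∉ S)
    (h6 : (m0 : ℝ) + t0 ≤ r) (h7 : ∀ i, r < (cls c i).card) :
    Good c S := by
  classical
  set W := lowSet c S with hW
  set U2 := badSet c S with hU2
  -- the closure
  let FF : Finset (Finset V) := univ.filter (fun Y => U2 ⊆ Y ∧ Y.card ≤ t0 ∧
    4 * Y.card ≤ (S ∩ Y.sym2).card + 4 * U2.card)
  have hFF : FF.Nonempty := ⟨U2, by
    simp only [FF, mem_filter, mem_univ, true_and]
    exact ⟨Subset.refl _, by omega, by omega⟩⟩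
  obtain ⟨Y, hY, hYmax⟩ := exists_max_image FF card hFF
  simp only [FF, mem_filter, mem_univ, true_and] at hY hYmax
  obtain ⟨hYU, hYt, hYe⟩ := hY
  have hYlt : Y.card < t0 := by
    rcases hYt.lt_or_eq with h | h
    · exact h
    · exfalso
      apply h3
      exact ⟨Y, subset_univ _, h, by omega⟩
  have hYdeg : ∀ v, v ∉ Y → (Y.filter (fun u => s(v, u) ∈ S)).card ≤ 3 := by
    intro v hv
    by_contra hcon
    push Not at hcon
    have e1 : (insert v Y).card = Y.card + 1 := card_insert_of_notMem hv
    have e2 : (S ∩ Y.sym2).card + (Y.filter (fun u => s(v, u) ∈ S)).card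
        ≤ (S ∩ (insert v Y).sym2).card := by
      have e3 : ((Y.filter (fun u => s(v, u) ∈ S)).image (fun u => s(v, u))).card
          = (Y.filter (fun u => s(v, u) ∈ S)).card := by
        apply card_image_of_injOn
        intro a _ b _ hab
        simp only [Sym2.eq_iff] at hab
        rcases hab with ⟨_, h⟩ | ⟨h, h'⟩
        · exact h
        · rw [← h, ← h']
      rw [← e3, ← card_union_of_disjoint]
      · apply card_le_card
        intro e he
        rw [mem_union] at he
        rcases he with he | he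
        · rw [mem_inter] at he ⊢
          exact ⟨he.1, sym2_mono (subset_insert _ _) he.2⟩
        · rw [mem_image] at he
          obtain ⟨u, hu, rfl⟩ := he
          rw [mem_filter] at hu
          rw [mem_inter, mk_mem_sym2_iff]
          exact ⟨hu.2, mem_insert_self _ _, mem_insert_of_mem hu.1⟩
      · rw [disjoint_left]
        intro e he1 he2
        rw [mem_image] at he2
        obtain ⟨u, hu, rfl⟩ := he2
        rw [mem_inter, mk_mem_sym2_iff] at he1
        exact hv he1.2.1
    have e4 := hYmax (insert v Y) ⟨hYU.trans (subset_insert _ _), by omega, by omega⟩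
    omega
  -- the core
  let D : Fin k → Finset V := fun i => cls c i \ (W ∪ Y)
  have hDc : ∀ i, D i ⊆ cls c i := fun i => sdiff_subset
  have hDne : ∀ i, (D i).Nonempty := by
    intro i
    rw [← card_pos]
    have e1 : (cls c i).card ≤ (D i).card + (cls c i ∩ (W ∪ Y)).card := by
      have := card_sdiff_add_card_inter (cls c i) (W ∪ Y)
      exact this.ge
    have e2 : (cls c i ∩ (W ∪ Y)).card ≤ m0 + t0 := by
      rw [inter_union_distrib_left]
      refine (card_union_le _ _).trans ?_
      have := h1 i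
      have := card_le_card (inter_subset_right (s₁ := cls c i) (s₂ := Y))
      omega
    have e3 : (m0 + t0 : ℕ) < (cls c i).card := by
      have := h7 i
      have : ((m0 + t0 : ℕ) : ℝ) < (cls c i).card := by push_cast; linarith
      exact_mod_cast this
    omega
  have hdeg : ∀ v, v ∉ W → v ∉ Y → ∀ l, l ≠ c v → 4 ≤ ((D l).filter (fun u => s(v, u) ∈ S)).card := by
    intro v hvW hvY l hl
    have a1 : 10 ≤ (nb c S l v).card := by
      by_contra hcon
      apply hvW
      simp only [hW, lowSet, mem_filter, mem_univ, true_and]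
      exact ⟨l, hl, by omega⟩
    have a2 : ((cls c l ∩ W).filter (fun w => s(w, v) ∈ S)).card ≤ 3 := by
      by_contra hcon
      apply hvY
      apply hYU
      simp only [hU2, badSet, mem_filter, mem_univ, true_and]
      exact ⟨l, hl, Nat.lt_of_not_le hcon⟩
    have a3 := hYdeg v hvY
    have a4 : nb c S l v ⊆ (D l).filter (fun u => s(v, u) ∈ S) ∪
        ((cls c l ∩ W).filter (fun w => s(w, v) ∈ S) ∪ Y.filter (fun u => s(v, u) ∈ S)) := by
      intro u hu
      simp only [nb, mem_filter] at hu
      simp only [mem_union, mem_filter, D, mem_sdiff, mem_inter]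
      by_cases huW : u ∈ W
      · right; left
        rw [Sym2.eq_swap]
        exact ⟨⟨hu.1, huW⟩, hu.2⟩
      · by_cases huY : u ∈ Y
        · right; right
          exact ⟨huY, hu.2⟩
        · left
          exact ⟨⟨hu.1, by tauto⟩, hu.2⟩
    have a5 := card_le_card a4
    have a6 := card_union_le ((D l).filter (fun u => s(v, u) ∈ S))
        ((cls c l ∩ W).filter (fun w => s(w, v) ∈ S) ∪ Y.filter (fun u => s(v, u) ∈ S))
    have a7 := card_union_le ((cls c l ∩ W).filter (fun w => s(w, v) ∈ S))
      (Y.filter (fun u => s(v, u) ∈ S))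
    omega
  -- small side impossible
  have main : ∀ i j, i ≠ j → ∀ A ⊆ D i ∪ D j, A.Nonempty →
      (∀ u ∈ A, ∀ v ∈ (D i ∪ D j) \ A, s(u, v) ∉ S) → 2 * A.card ≤ (D i ∪ D j).card → False := by
    intro i j hij A hA hAne hno hA2
    have hDX : D i ∪ D j ⊆ cls c i ∪ cls c j := union_subset_union (hDc i) (hDc j)
    by_cases hAy : (A.card : ℝ) ≤ y
    · apply h4 i j hij
      refine ⟨A, hA.trans hDX, hAne, hAy, ?_⟩
      apply dense_of_mindeg c S i j hij A (hA.trans hDX)
      intro v hv
      have hvD := hA hv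
      have hvWY : v ∉ W ∧ v ∉ Y := by
        simp only [D, mem_union, mem_sdiff, not_or] at hvD
        rcases hvD with h | h
        · exact h.2
        · exact h.2
      have hcv : c v = i ∨ c v = j := by
        simp only [D, mem_union, mem_sdiff, mem_cls] at hvD
        rcases hvD with h | h
        · exact Or.inl h.1
        · exact Or.inr h.1
      obtain ⟨l, hl, hlij⟩ : ∃ l, l ≠ c v ∧ (l = i ∨ l = j) := by
        rcases hcv with h | h
        · exact ⟨j, by rw [h]; exact hij.symm, Or.inr rfl⟩
        · exact ⟨i, by rw [h]; exact hij, Or.inl rfl⟩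
      refine (hdeg v hvWY.1 hvWY.2 l hl).trans (card_le_card ?_)
      intro u hu
      rw [mem_filter] at hu ⊢
      have hul : c u = l := (mem_cls c l u).mp (hDc l hu.1)
      have huD : u ∈ D i ∪ D j := by
        rw [mem_union]
        rcases hlij with h | h
        · left; rw [← h]; exact hu.1
        · right; rw [← h]; exact hu.1
      refine ⟨?_, by rw [hul]; exact hl, hu.2⟩
      by_contra huA
      exact hno v hv u (mem_sdiff.mpr ⟨huD, huA⟩) hu.2
    · apply h5 i j hij
      refine ⟨(W ∪ Y) ∩ (cls c i ∪ cls c j), inter_subset_right, ?_, ?_, A, ?_, ?_, ?_, ?_⟩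
      · refine le_trans ?_ h6
        have : (((W ∪ Y) ∩ (cls c i ∪ cls c j)) ∩ cls c i).card ≤ m0 + t0 := by
          refine (card_le_card (t := (cls c i ∩ W) ∪ Y) ?_).trans ?_
          · intro x hx
            simp only [mem_inter, mem_union] at hx ⊢
            tauto
          · refine (card_union_le _ _).trans ?_
            have := h1 i
            omega
        exact_mod_cast this
      · refine le_trans ?_ h6
        have : (((W ∪ Y) ∩ (cls c i ∪ cls c j)) ∩ cls c j).card ≤ m0 + t0 := by
          refine (card_le_card (t := (cls c j ∩ W) ∪ Y) ?_).trans ?_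
          · intro x hx
            simp only [mem_inter, mem_union] at hx ⊢
            tauto
          · refine (card_union_le _ _).trans ?_
            have := h1 j
            omega
        exact_mod_cast this
      · intro x hx
        have hxD := hA hx
        simp only [D, mem_union, mem_sdiff, mem_inter] at hxD ⊢
        tauto
      · exact (not_le.mp hAy).le
      · exact hA2.trans (card_le_card hDX)
      · intro u hu v hv
        apply hno u hu v
        simp only [D, mem_union, mem_sdiff, mem_inter] at hv ⊢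
        tauto
  refine ⟨D, hDne, hDc, ?_⟩
  intro i j hij A hA hAne hAc
  by_contra hcon
  push Not at hcon
  by_cases hsz : 2 * A.card ≤ (D i ∪ D j).card
  · exact main i j hij A hA hAne hcon hsz
  · apply main i j hij ((D i ∪ D j) \ A) sdiff_subset hAc
    · intro u hu v hv
      rw [sdiff_sdiff_right_self, inf_eq_inter, mem_inter] at hv
      rw [Sym2.eq_swap]
      exact hcon v hv.2 u hu
    · have := card_sdiff_add_card_inter (D i ∪ D j) A
      rw [inter_eq_right.mpr hA] at this
      omega

end Pool.Agent.H991R2.BL
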