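import Mathlib
import Pool.Agent.H991R2.BL.Stars

open Finset

namespace Pool.Agent.H991R2.BL

lemma sum_powerset_exp {V : Type*} [DecidableEq V] (X : Finset V) (a : ℝ) :
    ∑ A ∈ X.powerset, Real.exp (-a * A.card) ≤ Real.exp (Real.exp (-a) * X.card) := by
  have h1 := Finset.sum_pow_mul_eq_add_pow (Real.exp (-a)) 1 X
  have h2 : ∑ A ∈ X.powerset, Real.exp (-a * A.card)
      = ∑ t ∈ X.powerset, Real.exp (-a) ^ t.card * (1 : ℝ) ^ (X.card - t.card) := by
    apply sum_congr rfl
    intro A _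
    rw [one_pow, mul_one, ← Real.exp_nat_mul, mul_comm]
  rw [h2, h1, mul_comm (Real.exp (-a)), Real.exp_nat_mul]
  apply pow_le_pow_left₀ (by positivity)
  exact Real.add_one_le_exp _

lemma cut_arith (a b lo r hi g ni nj ri rj : ℝ) (ha : 0 ≤ a) (hb : 0 ≤ b) (hab : a + b ≤ hi)
    (h1 : lo ≤ ni) (h2 : lo ≤ nj) (h3 : ri ≤ r) (h4 : rj ≤ r) (hg : g ≤ lo - r - hi / 2) :
    g * (a + b) ≤ a * (nj - rj - b) + b * (ni - ri - a) := by
  have e1 : lo - r - b ≤ nj - rj - b := by linarith
  have e2 : lo - r - a ≤ ni - ri - a := by linarith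
  have e3 := mul_le_mul_of_nonneg_left e1 ha
  have e4 := mul_le_mul_of_nonneg_left e2 hb
  have e5 : g * (a + b) ≤ (lo - r - hi / 2) * (a + b) :=
    mul_le_mul_of_nonneg_right hg (add_nonneg ha hb)
  have e6 : (a + b) * (a + b) ≤ hi * (a + b) := mul_le_mul_of_nonneg_right hab (add_nonneg ha hb)
  have e7 : 4 * (a * b) ≤ (a + b) * (a + b) := by nlinarith [sq_nonneg (a - b)]
  linarith

variable {V : Type*} [Fintype V] [DecidableEq V] {k : ℕ}

set_option maxHeartbeats 2000000 in
lemma pr_cut (c : V → Fin k) (M : ℕ) (i j : Fin k) (hij : i ≠ j) (r y lo hi g θ lam : ℝ)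
    (hM : M ≤ (bic c).card) (h0 : 0 < (bic c).card)
    (hloi : lo ≤ (cls c i).card) (hloj : lo ≤ (cls c j).card)
    (hhii : ((cls c i).card : ℝ) ≤ hi) (hhij : ((cls c j).card : ℝ) ≤ hi)
    (hE : 2 * (hi * hi) ≤ (bic c).card) (hg : g ≤ lo - r - hi / 2) (hr : 0 ≤ r)
    (hlam : 0 ≤ lam) (hθ0 : 0 ≤ θ) (hθ : θ ≤ dens c M * g) (hy : 0 ≤ y) :
    pr (bic c) M (fun S => ∃ R ⊆ cls c i ∪ cls c j, ((R ∩ cls c i).card : ℝ) ≤ r ∧
        ((R ∩ cls c j).card : ℝ) ≤ r ∧ ∃ A ⊆ (cls c i ∪ cls c j) \ R, y ≤ A.card ∧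
        2 * A.card ≤ (cls c i ∪ cls c j).card ∧
        ∀ u ∈ A, ∀ v ∈ (cls c i ∪ cls c j) \ (R ∪ A), s(u, v) ∉ S)
      ≤ Real.exp (2 * r * lam + Real.exp (-lam) * (2 * hi) - θ * y / 2
          + Real.exp (-(θ / 2)) * (2 * hi)) := by
  classical
  set p := dens c M with hp
  have hp0 : 0 ≤ p := dens_nonneg c M
  set X := cls c i ∪ cls c j with hX
  have hdij : Disjoint (cls c i) (cls c j) := by
    rw [disjoint_left]; intro x h1 h2
    rw [mem_cls] at h1 h2
    exact hij (h1.symm.trans h2)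
  have hXc : X.card = (cls c i).card + (cls c j).card := card_union_of_disjoint hdij
  have hXr : (X.card : ℝ) ≤ 2 * hi := by
    rw [hXc]; push_cast; linarith
  let IR : Finset (Finset V) := X.powerset.filter (fun R => ((R ∩ cls c i).card : ℝ) ≤ r ∧
        ((R ∩ cls c j).card : ℝ) ≤ r)
  let IA : Finset V → Finset (Finset V) := fun R => (X \ R).powerset.filter
    (fun A => y ≤ A.card ∧ 2 * A.card ≤ X.card)
  have step1 : pr (bic c) M (fun S => ∃ R ⊆ X, ((R ∩ cls c i).card : ℝ) ≤ r ∧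
        ((R ∩ cls c j).card : ℝ) ≤ r ∧ ∃ A ⊆ X \ R, y ≤ A.card ∧
        2 * A.card ≤ X.card ∧
        ∀ u ∈ A, ∀ v ∈ X \ (R ∪ A), s(u, v) ∉ S)
      ≤ pr (bic c) M (fun S => ∃ R ∈ IR, ∃ A ∈ IA R, ∀ u ∈ A, ∀ v ∈ X \ (R ∪ A), s(u, v) ∉ S) := by
    apply pr_mono
    rintro S _ _ ⟨R, hRX, hR1, hR2, A, hA, hy', hA2, h⟩
    refine ⟨R, ?_, A, ?_, h⟩
    · simp only [IR, mem_filter, mem_powerset]
      exact ⟨hRX, hR1, hR2⟩
    · simp only [IA, mem_filter, mem_powerset]
      exact ⟨hA, hy', hA2⟩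
  refine step1.trans ((pr_union _ _ _ _).trans ?_)
  have step2 : ∀ R ∈ IR, ∀ A ∈ IA R,
      pr (bic c) M (fun S => ∀ u ∈ A, ∀ v ∈ X \ (R ∪ A), s(u, v) ∉ S)
        ≤ Real.exp (-θ * A.card) := by
    intro R hR A hA
    simp only [IR, mem_filter, mem_powerset] at hR
    simp only [IA, mem_filter, mem_powerset] at hA
    obtain ⟨hRX, hR1, hR2⟩ := hR
    obtain ⟨hAX, hAy, hA2⟩ := hA
    let mk : V × V → Sym2 V := fun q => s(q.1, q.2)
    let Ai := A ∩ cls c i
    let Aj := A ∩ cls c j
    let Bi := (cls c i) \ (R ∪ A)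
    let Bj := (cls c j) \ (R ∪ A)
    let P : Finset (V × V) := (Ai ×ˢ Bj) ∪ (Aj ×ˢ Bi)
    have hPdis : Disjoint (Ai ×ˢ Bj) (Aj ×ˢ Bi) := by
      rw [disjoint_left]
      intro q h1 h2
      simp only [mem_product, Ai, Aj, mem_inter, mem_cls] at h1 h2
      exact hij (h1.1.2.symm.trans h2.1.2)
    have hPA : ∀ q ∈ P, q.1 ∈ A ∧ q.2 ∉ A := by
      intro q hq
      simp only [P, mem_union, mem_product, Ai, Aj, Bi, Bj, mem_inter, mem_sdiff, not_or] at hq
      rcases hq with hq | hq
      · exact ⟨hq.1.1, hq.2.2.2⟩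
      · exact ⟨hq.1.1, hq.2.2.2⟩
    have hcardP : (P.image mk).card = Ai.card * Bj.card + Aj.card * Bi.card := by
      rw [card_image_mk A P hPA, card_union_of_disjoint hPdis, card_product, card_product]
    have hsub : P.image mk ⊆ bic c := by
      intro e he
      simp only [mem_image, mk] at he
      obtain ⟨q, hq, rfl⟩ := he
      rw [mem_bic]
      simp only [P, mem_union, mem_product, Ai, Aj, Bi, Bj, mem_inter, mem_sdiff, mem_cls] at hq
      rcases hq with hq | hq
      · rw [hq.1.2, hq.2.1]; exact hij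
      · rw [hq.1.2, hq.2.1]; exact hij.symm
    have hAcard : A.card = Ai.card + Aj.card := by
      have h1 : Disjoint Ai Aj :=
        disjoint_of_subset_left inter_subset_right (disjoint_of_subset_right inter_subset_right hdij)
      rw [← card_union_of_disjoint h1, ← inter_union_distrib_left]
      congr 1
      symm
      rw [inter_eq_left]
      exact hAX.trans sdiff_subset
    have hRA : Disjoint R A := by
      rw [disjoint_left]
      intro x h1 h2
      have := hAX h2
      rw [mem_sdiff] at this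
      exact this.2 h1
    have hB : ∀ l : Fin k, ((cls c l \ (R ∪ A)).card : ℝ)
        = (cls c l).card - (R ∩ cls c l).card - (A ∩ cls c l).card := by
      intro l
      have h1 : (cls c l \ (R ∪ A)).card + ((R ∪ A) ∩ cls c l).card = (cls c l).card := by
        rw [inter_comm]
        exact card_sdiff_add_card_inter _ _
      have h2 : ((R ∪ A) ∩ cls c l).card = (R ∩ cls c l).card + (A ∩ cls c l).card := by
        rw [union_inter_distrib_right, card_union_of_disjoint]
        exact disjoint_of_subset_left inter_subset_left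
          (disjoint_of_subset_right inter_subset_left hRA)
      rw [h2] at h1
      have h3 : ((cls c l \ (R ∪ A)).card : ℝ) + ((R ∩ cls c l).card + (A ∩ cls c l).card)
        = (cls c l).card := by exact_mod_cast h1
      linarith
    have hBi : (Bi.card : ℝ) = (cls c i).card - (R ∩ cls c i).card - Ai.card := hB i
    have hBj : (Bj.card : ℝ) = (cls c j).card - (R ∩ cls c j).card - Aj.card := hB j
    have hai : (0 : ℝ) ≤ Ai.card := by positivity
    have haj : (0 : ℝ) ≤ Aj.card := by positivity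
    have hAr : (A.card : ℝ) = Ai.card + Aj.card := by exact_mod_cast hAcard
    have hA2r : (Ai.card : ℝ) + Aj.card ≤ hi := by
      have : (2 : ℝ) * A.card ≤ X.card := by exact_mod_cast hA2
      rw [hAr] at this
      linarith
    have hh : g * A.card ≤ ((P.image mk).card : ℝ) := by
      rw [hcardP]
      push_cast
      rw [hBi, hBj, hAr]
      exact cut_arith _ _ lo r hi g _ _ _ _ hai haj hA2r hloi hloj hR1 hR2 hg
    have hup : 2 * (P.image mk).card ≤ (bic c).card := by
      rw [hcardP]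
      have hbi : (Bi.card : ℝ) ≤ hi := le_trans (by exact_mod_cast card_le_card sdiff_subset) hhii
      have hbj : (Bj.card : ℝ) ≤ hi := le_trans (by exact_mod_cast card_le_card sdiff_subset) hhij
      have hhi0 : 0 ≤ hi := le_trans (by positivity) hhii
      have : (2 : ℝ) * ((Ai.card : ℝ) * Bj.card + Aj.card * Bi.card) ≤ (bic c).card := by
        refine le_trans ?_ hE
        have e1 : (Ai.card : ℝ) * Bj.card ≤ Ai.card * hi := by gcongr
        have e2 : (Aj.card : ℝ) * Bi.card ≤ Aj.card * hi := by gcongr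
        have e3 : ((Ai.card : ℝ) + Aj.card) * hi ≤ hi * hi := by gcongr
        linarith
      exact_mod_cast this
    have h5 := pr_cyl (bic c) ∅ (P.image mk) M hM hsub hup h0
    have h6 : pr (bic c) M (fun S => ∀ u ∈ A, ∀ v ∈ X \ (R ∪ A), s(u, v) ∉ S)
        ≤ pr (bic c) M (fun S => ∅ ⊆ S ∧ Disjoint (P.image mk) S) := by
      apply pr_mono
      intro S _ _ h
      refine ⟨empty_subset _, ?_⟩
      rw [disjoint_left]
      intro e he
      simp only [mem_image, mk] at he
      obtain ⟨q, hq, rfl⟩ := he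
      apply h _ (hPA q hq).1
      simp only [P, mem_union, mem_product, Ai, Aj, Bi, Bj, mem_inter, mem_sdiff] at hq
      rw [mem_sdiff, hX, mem_union, mem_union]
      rcases hq with hq | hq
      · exact ⟨Or.inr hq.2.1, hq.2.2⟩
      · exact ⟨Or.inl hq.2.1, hq.2.2⟩
    refine h6.trans (h5.trans ?_)
    rw [card_empty, pow_zero, one_mul, Real.exp_le_exp]
    have h7 : p * (g * A.card) ≤ p * ((P.image mk).card : ℝ) := by gcongr
    have h8 : θ * A.card ≤ p * g * A.card := by gcongr
    change -p * ((P.image mk).card : ℝ) ≤ _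
    linarith
  have step3 : ∀ R ∈ IR, pr (bic c) M (fun S => ∃ A ∈ IA R, ∀ u ∈ A, ∀ v ∈ X \ (R ∪ A), s(u, v) ∉ S)
      ≤ Real.exp (lam * (2 * r)) * Real.exp (-lam * R.card)
        * Real.exp (-θ * y / 2 + Real.exp (-(θ / 2)) * (2 * hi)) := by
    intro R hR
    have h1 : ∑ A ∈ IA R, Real.exp (-θ * A.card)
        ≤ Real.exp (-θ * y / 2 + Real.exp (-(θ / 2)) * (2 * hi)) := by
      have h2 : ∀ A ∈ IA R, Real.exp (-θ * A.card)
          ≤ Real.exp (-θ * y / 2) * Real.exp (-(θ / 2) * A.card) := by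
        intro A hA
        simp only [IA, mem_filter, mem_powerset] at hA
        rw [← Real.exp_add, Real.exp_le_exp]
        nlinarith [hA.2.1]
      refine (sum_le_sum h2).trans ?_
      rw [← mul_sum, Real.exp_add]
      gcongr
      have h3 : ∑ A ∈ IA R, Real.exp (-(θ / 2) * A.card)
          ≤ ∑ A ∈ (X \ R).powerset, Real.exp (-(θ / 2) * A.card) :=
        sum_le_sum_of_subset_of_nonneg (filter_subset _ _) (by intros; positivity)
      refine h3.trans ((sum_powerset_exp _ _).trans ?_)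
      rw [Real.exp_le_exp]
      have h4 : ((X \ R).card : ℝ) ≤ 2 * hi :=
        le_trans (by exact_mod_cast card_le_card sdiff_subset) hXr
      gcongr
    have h5 : 1 ≤ Real.exp (lam * (2 * r)) * Real.exp (-lam * R.card) := by
      rw [← Real.exp_add, Real.one_le_exp_iff]
      simp only [IR, mem_filter, mem_powerset] at hR
      have hRc : (R.card : ℝ) ≤ 2 * r := by
        have h6 : R.card ≤ (R ∩ cls c i).card + (R ∩ cls c j).card := by
          have h7 : R = (R ∩ cls c i) ∪ (R ∩ cls c j) := by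
            rw [← inter_union_distrib_left]
            symm
            rw [inter_eq_left]
            exact hR.1
          calc R.card = ((R ∩ cls c i) ∪ (R ∩ cls c j)).card := by rw [← h7]
            _ ≤ _ := card_union_le _ _
        have h8 : (R.card : ℝ) ≤ (R ∩ cls c i).card + (R ∩ cls c j).card := by exact_mod_cast h6
        linarith [hR.2.1, hR.2.2]
      nlinarith
    calc pr (bic c) M (fun S => ∃ A ∈ IA R, ∀ u ∈ A, ∀ v ∈ X \ (R ∪ A), s(u, v) ∉ S)
        ≤ ∑ A ∈ IA R, Real.exp (-θ * A.card) :=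
          (pr_union _ _ _ _).trans (sum_le_sum (step2 R hR))
      _ ≤ 1 * Real.exp (-θ * y / 2 + Real.exp (-(θ / 2)) * (2 * hi)) := by rw [one_mul]; exact h1
      _ ≤ _ := by gcongr
  refine (sum_le_sum step3).trans ?_
  rw [← sum_mul, ← mul_sum]
  have h9 : ∑ R ∈ IR, Real.exp (-lam * R.card) ≤ Real.exp (Real.exp (-lam) * (2 * hi)) := by
    have h3 : ∑ R ∈ IR, Real.exp (-lam * R.card)
        ≤ ∑ R ∈ X.powerset, Real.exp (-lam * R.card) :=
      sum_le_sum_of_subset_of_nonneg (filter_subset _ _) (by intros; positivity)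
    refine h3.trans ((sum_powerset_exp _ _).trans ?_)
    rw [Real.exp_le_exp]
    gcongr
  calc Real.exp (lam * (2 * r)) * (∑ R ∈ IR, Real.exp (-lam * R.card))
        * Real.exp (-θ * y / 2 + Real.exp (-(θ / 2)) * (2 * hi))
      ≤ Real.exp (lam * (2 * r)) * Real.exp (Real.exp (-lam) * (2 * hi))
        * Real.exp (-θ * y / 2 + Real.exp (-(θ / 2)) * (2 * hi)) := by gcongr
    _ = _ := by
      rw [← Real.exp_add, ← Real.exp_add]
      congr 1
      ring

end Pool.Agent.H991R2.BL
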