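import Mathlib
import Pool.Agent.H991R2.BL.Stars

open Finset

namespace Pool.Agent.H991R2.BL

lemma choose_le_exp (x t : ℕ) (ht : 0 < t) :
    (x.choose t : ℝ) ≤ (Real.exp 1 * x / t) ^ t := by
  have h1 : (x.choose t : ℝ) ≤ (x : ℝ) ^ t / t.factorial := Nat.choose_le_pow_div t x
  refine h1.trans ?_
  have ht' : (0 : ℝ) < t := by exact_mod_cast ht
  have h2 : (t : ℝ) ^ t / t.factorial ≤ Real.exp t := Real.pow_div_factorial_le_exp _ ht'.le _
  have h3 : (Real.exp 1 * x / t) ^ t = (x : ℝ) ^ t / (t : ℝ) ^ t * Real.exp t := by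
    rw [div_pow, mul_pow, ← Real.exp_nat_mul, mul_one]
    ring
  rw [h3]
  have h4 : (x : ℝ) ^ t / t.factorial = (x : ℝ) ^ t / (t : ℝ) ^ t * ((t : ℝ) ^ t / t.factorial) := by
    field_simp
  rw [h4]
  gcongr

variable {V : Type*} [Fintype V] [DecidableEq V] {k : ℕ}

lemma pr_sub (c : V → Fin k) (M : ℕ) (F : Finset (Sym2 V)) (hM : M ≤ (bic c).card)
    (h0 : 0 < (bic c).card) :
    pr (bic c) M (fun S => F ⊆ S) ≤ (2 * dens c M) ^ F.card := by
  have h := pr_cyl (bic c) F ∅ M hM (empty_subset _) (by simp) h0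
  simp only [card_empty, Nat.cast_zero, mul_zero, Real.exp_zero, mul_one, disjoint_empty_left,
    and_true] at h
  exact h

lemma pr_dense (c : V → Fin k) (M : ℕ) (X : Finset V) (t : ℕ) (ht : 0 < t)
    (hM : M ≤ (bic c).card) (h0 : 0 < (bic c).card) :
    pr (bic c) M (fun S => ∃ T ⊆ X, T.card = t ∧ 2 * t ≤ (S ∩ T.sym2).card)
      ≤ (Real.exp 3 * X.card * t * dens c M ^ 2) ^ t := by
  classical
  set p := dens c M with hp
  have hp0 : 0 ≤ p := dens_nonneg c M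
  have step1 : pr (bic c) M (fun S => ∃ T ⊆ X, T.card = t ∧ 2 * t ≤ (S ∩ T.sym2).card)
      ≤ pr (bic c) M (fun S => ∃ T ∈ powersetCard t X, ∃ F ∈ powersetCard (2 * t) T.sym2, F ⊆ S) := by
    apply pr_mono
    intro S _ _ h
    obtain ⟨T, hTX, hT, h2⟩ := h
    refine ⟨T, mem_powersetCard.mpr ⟨hTX, hT⟩, ?_⟩
    obtain ⟨F, hF1, hF2⟩ := exists_subset_card_eq h2
    exact ⟨F, mem_powersetCard.mpr ⟨hF1.trans inter_subset_right, hF2⟩,
      hF1.trans inter_subset_left⟩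
  refine step1.trans ((pr_union _ _ _ _).trans ?_)
  have step2 : ∀ T ∈ powersetCard t X,
      pr (bic c) M (fun S => ∃ F ∈ powersetCard (2 * t) T.sym2, F ⊆ S)
        ≤ ((t * t).choose (2 * t) : ℝ) * (2 * p) ^ (2 * t) := by
    intro T hT
    refine (pr_union _ _ _ _).trans ?_
    have h3 : ∀ F ∈ powersetCard (2 * t) T.sym2, pr (bic c) M (fun S => F ⊆ S)
        ≤ (2 * p) ^ (2 * t) := by
      intro F hF
      have := pr_sub c M F hM h0
      rwa [(mem_powersetCard.mp hF).2] at this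
    refine (sum_le_sum h3).trans ?_
    rw [sum_const, nsmul_eq_mul, card_powersetCard]
    have h4 : T.sym2.card ≤ t * t := by
      rw [card_sym2, (mem_powersetCard.mp hT).2, Nat.choose_two_right]
      have : (t + 1) * (t + 1 - 1) = t * t + t := by
        simp only [Nat.add_sub_cancel]; ring
      rw [this]
      have : t ≤ t * t := Nat.le_mul_self t
      omega
    have h5 : (T.sym2.card.choose (2 * t) : ℝ) ≤ ((t * t).choose (2 * t) : ℝ) := by
      exact_mod_cast Nat.choose_le_choose _ h4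
    gcongr
  refine (sum_le_sum step2).trans ?_
  rw [sum_const, nsmul_eq_mul, card_powersetCard]
  have ht' : (0 : ℝ) < t := by exact_mod_cast ht
  have b1 := choose_le_exp X.card t ht
  have b2 := choose_le_exp (t * t) (2 * t) (by omega)
  calc (X.card.choose t : ℝ) * (((t * t).choose (2 * t) : ℝ) * (2 * p) ^ (2 * t))
      ≤ (Real.exp 1 * X.card / t) ^ t *
        ((Real.exp 1 * ((t * t : ℕ) : ℝ) / ((2 * t : ℕ) : ℝ)) ^ (2 * t) * (2 * p) ^ (2 * t)) := by
        gcongr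
    _ = ((Real.exp 1 * X.card / t) *
        ((Real.exp 1 * ((t * t : ℕ) : ℝ) / ((2 * t : ℕ) : ℝ)) ^ 2 * (2 * p) ^ 2)) ^ t := by
        rw [mul_pow (Real.exp 1 * X.card / t), mul_pow _ ((2 * p) ^ 2), ← pow_mul, ← pow_mul]
    _ = _ := by
        congr 1
        push_cast
        have e3 : Real.exp 3 = Real.exp 1 ^ 3 := by
          rw [← Real.exp_nat_mul]; norm_num
        rw [e3]
        field_simp

/-- sum over the sizes -/
lemma pr_dense_le (c : V → Fin k) (M : ℕ) (X : Finset V) (y a : ℝ) (ha : 0 ≤ a)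
    (hM : M ≤ (bic c).card) (h0 : 0 < (bic c).card)
    (hX : Real.exp 3 * X.card * dens c M ^ 2 ≤ a) (hay : a * y ≤ 1 / 4) :
    pr (bic c) M (fun S => ∃ T ⊆ X, T.Nonempty ∧ (T.card : ℝ) ≤ y ∧
        2 * T.card ≤ (S ∩ T.sym2).card)
      ≤ 2 * a := by
  classical
  have step1 : pr (bic c) M (fun S => ∃ T ⊆ X, T.Nonempty ∧ (T.card : ℝ) ≤ y ∧
        2 * T.card ≤ (S ∩ T.sym2).card)
      ≤ pr (bic c) M (fun S => ∃ t ∈ Icc 1 ⌊y⌋₊,
          ∃ T ⊆ X, T.card = t ∧ 2 * t ≤ (S ∩ T.sym2).card) := by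
    apply pr_mono
    intro S _ _ h
    obtain ⟨T, hTX, hT, hTy, h2⟩ := h
    refine ⟨T.card, ?_, T, hTX, rfl, h2⟩
    rw [mem_Icc]
    exact ⟨hT.card_pos, Nat.le_floor hTy⟩
  refine step1.trans ((pr_union _ _ _ _).trans ?_)
  have step2 : ∀ t ∈ Icc 1 ⌊y⌋₊,
      pr (bic c) M (fun S => ∃ T ⊆ X, T.card = t ∧ 2 * t ≤ (S ∩ T.sym2).card)
        ≤ a * (1 / 2) ^ (t - 1) := by
    intro t ht
    rw [mem_Icc] at ht
    have h1 := pr_dense c M X t ht.1 hM h0
    refine h1.trans ?_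
    have hty : (t : ℝ) ≤ y := by
      have := Nat.floor_le (a := y) (by
        by_contra hneg
        push Not at hneg
        have := Nat.floor_of_nonpos hneg.le
        omega)
      have h3 : (t : ℝ) ≤ (⌊y⌋₊ : ℝ) := by exact_mod_cast ht.2
      linarith
    obtain ⟨s, rfl⟩ : ∃ s, t = s + 1 := ⟨t - 1, by omega⟩
    rw [Nat.add_sub_cancel]
    have hs1 : (0 : ℝ) ≤ ((s + 1 : ℕ) : ℝ) := by positivity
    have h4 : Real.exp 3 * X.card * ((s + 1 : ℕ) : ℝ) * dens c M ^ 2 ≤ a * ((s + 1 : ℕ) : ℝ) := by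
      calc _ = (Real.exp 3 * X.card * dens c M ^ 2) * ((s + 1 : ℕ) : ℝ) := by ring
        _ ≤ _ := by gcongr
    have h5 : a * ((s + 1 : ℕ) : ℝ) ≤ 1 / 4 := by
      calc a * ((s + 1 : ℕ) : ℝ) ≤ a * y := by gcongr
        _ ≤ _ := hay
    have h6 : 0 ≤ Real.exp 3 * X.card * ((s + 1 : ℕ) : ℝ) * dens c M ^ 2 := by
      have := dens_nonneg c M
      positivity
    calc (Real.exp 3 * X.card * ((s + 1 : ℕ) : ℝ) * dens c M ^ 2) ^ (s + 1)
        = (Real.exp 3 * X.card * ((s + 1 : ℕ) : ℝ) * dens c M ^ 2) ^ s *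
          (Real.exp 3 * X.card * ((s + 1 : ℕ) : ℝ) * dens c M ^ 2) := pow_succ _ _
      _ ≤ (1 / 4) ^ s * (a * ((s + 1 : ℕ) : ℝ)) := by
          apply mul_le_mul
          · exact pow_le_pow_left₀ h6 (h4.trans h5) _
          · exact h4
          · exact h6
          · positivity
      _ ≤ (1 / 4) ^ s * (a * 2 ^ s) := by
          have : ((s + 1 : ℕ) : ℝ) ≤ 2 ^ s := by
            exact_mod_cast (Nat.lt_two_pow_self (n := s))
          gcongr
      _ = a * (1 / 2) ^ s := by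
          have : (1 / 4 : ℝ) ^ s = (1 / 2) ^ s * (1 / 2) ^ s := by
            rw [← mul_pow]; norm_num
          rw [this]
          have h7 : (1 / 2 : ℝ) ^ s * 2 ^ s = 1 := by
            rw [← mul_pow]; norm_num
          calc (1 / 2 : ℝ) ^ s * (1 / 2) ^ s * (a * 2 ^ s)
              = a * (1 / 2) ^ s * ((1 / 2 : ℝ) ^ s * 2 ^ s) := by ring
            _ = _ := by rw [h7]; ring
  refine (sum_le_sum step2).trans ?_
  rw [← mul_sum]
  have h8 : ∑ t ∈ Icc 1 ⌊y⌋₊, (1 / 2 : ℝ) ^ (t - 1) ≤ 2 := by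
    have e1 : Icc 1 ⌊y⌋₊ = Ico 1 (⌊y⌋₊ + 1) := by
      ext x; simp only [mem_Icc, mem_Ico]; omega
    rw [e1, sum_Ico_eq_sum_range]
    simp only [Nat.add_sub_cancel, Nat.add_sub_cancel_left]
    have h9 : Summable (fun i : ℕ => (1 / 2 : ℝ) ^ i) := summable_geometric_two
    have h10 := h9.sum_le_tsum (range ⌊y⌋₊) (fun i _ => by positivity)
    rw [tsum_geometric_two] at h10
    exact h10
  calc a * _ ≤ a * 2 := by gcongr
    _ = _ := by ring

end Pool.Agent.H991R2.BL
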