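import Mathlib

open Finset MeasureTheory ProbabilityTheory

namespace Pool.Agent.H991R2.BL

lemma entropy_ineq (k L y : ℝ) (hk : 0 < k) (hLk : L = Real.log k) (h1 : 1 ≤ L) (h2 : 4 * L ≤ k)
    (h3 : Real.log (4 * L) + 1 ≤ 0.04 * L) (hy0 : 0 < y) (hyk : y ≤ k) :
    0.96 * L / k * (y - 1) ^ 2 ≤ y * Real.log y - y + 1 := by
  have hL0 : 0 < L := by linarith
  by_cases hc : y ≤ k / (4 * L)
  · have hs : 0 < Real.sqrt y := Real.sqrt_pos.mpr hy0
    have hss : Real.sqrt y ^ 2 = y := Real.sq_sqrt hy0.le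
    set s := Real.sqrt y with hsdef
    have hlog : Real.log y = 2 * Real.log s := by
      rw [← hss, Real.log_pow]; push_cast; ring
    have hls : 1 - s⁻¹ ≤ Real.log s := Real.one_sub_inv_le_log_of_pos hs
    have h4 : s - 1 ≤ s * Real.log s := by
      have := mul_le_mul_of_nonneg_left hls hs.le
      rw [mul_sub, mul_one, mul_inv_cancel₀ hs.ne'] at this
      exact this
    have h5 : (s - 1) ^ 2 ≤ y * Real.log y - y + 1 := by
      rw [hlog, ← hss]
      nlinarith [mul_le_mul_of_nonneg_left h4 hs.le]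
    refine le_trans ?_ h5
    have h6 : (y - 1) ^ 2 ≤ (s - 1) ^ 2 * (2 * (y + 1)) := by
      rw [← hss]
      have : (s ^ 2 - 1) ^ 2 = (s - 1) ^ 2 * (s + 1) ^ 2 := by ring
      rw [this]
      apply mul_le_mul_of_nonneg_left _ (sq_nonneg _)
      nlinarith [sq_nonneg (s - 1)]
    have h7 : 0.96 * L / k * (2 * (y + 1)) ≤ 1 := by
      rw [div_mul_eq_mul_div, div_le_one hk]
      rw [le_div_iff₀ (by positivity)] at hc
      nlinarith
    calc 0.96 * L / k * (y - 1) ^ 2 ≤ 0.96 * L / k * ((s - 1) ^ 2 * (2 * (y + 1))) := by gcongr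
      _ = (0.96 * L / k * (2 * (y + 1))) * (s - 1) ^ 2 := by ring
      _ ≤ 1 * (s - 1) ^ 2 := by gcongr
      _ = _ := one_mul _
  · push Not at hc
    have hy1 : 1 ≤ y := by
      refine le_trans ?_ hc.le
      rw [le_div_iff₀ (by positivity)]
      linarith
    have h4 : 0.96 * L + 1 ≤ Real.log y := by
      have h5 : Real.log (k / (4 * L)) ≤ Real.log y :=
        Real.log_le_log (by positivity) hc.le
      rw [Real.log_div hk.ne' (by positivity), ← hLk] at h5
      linarith
    have h5 : y * (0.96 * L + 1) ≤ y * Real.log y := by gcongr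
    have h6 : 0.96 * L / k * (y - 1) ^ 2 ≤ 0.96 * L * y := by
      have h7 : (y - 1) ^ 2 ≤ y * k := by nlinarith
      calc 0.96 * L / k * (y - 1) ^ 2 ≤ 0.96 * L / k * (y * k) := by gcongr
        _ = _ := by field_simp
    linarith

theorem dual_ineq (k : ℕ) (h1 : 1 ≤ Real.log k) (h2 : 4 * Real.log k ≤ k)
    (h3 : Real.log (4 * Real.log k) + 1 ≤ 0.04 * Real.log k) (s : Fin k → ℝ) :
    (1 / (k : ℝ)) * ∑ j, Real.exp (s j)
      ≤ Real.exp ((1 / (k : ℝ)) * ∑ j, s j + (∑ j, s j ^ 2) / (4 * (0.96 * Real.log k))) := by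
  set L := Real.log k with hL
  have hL0 : 0 < L := by linarith
  have hk : (0 : ℝ) < k := by linarith
  have hkn : 0 < k := by exact_mod_cast hk
  haveI : Nonempty (Fin k) := ⟨⟨0, hkn⟩⟩
  set Z := ∑ j, Real.exp (s j) with hZ
  have hZ0 : 0 < Z := sum_pos (fun j _ => Real.exp_pos _) univ_nonempty
  have hpt : ∀ j, 0.96 * L / k * (k * (Real.exp (s j) / Z) - 1) ^ 2
      ≤ k * (Real.exp (s j) / Z) * (Real.log k + s j - Real.log Z)
        - k * (Real.exp (s j) / Z) + 1 := by
    intro j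
    have he := Real.exp_pos (s j)
    have hy0 : 0 < (k : ℝ) * (Real.exp (s j) / Z) := by positivity
    have hyk : (k : ℝ) * (Real.exp (s j) / Z) ≤ k := by
      have : Real.exp (s j) / Z ≤ 1 := by
        rw [div_le_one hZ0]
        exact single_le_sum (f := fun j => Real.exp (s j)) (fun i _ => (Real.exp_pos _).le)
          (mem_univ j)
      calc (k : ℝ) * (Real.exp (s j) / Z) ≤ k * 1 := by gcongr
        _ = k := mul_one _
    have h4 := entropy_ineq k L _ hk hL h1 h2 h3 hy0 hyk
    have h5 : Real.log (k * (Real.exp (s j) / Z)) = Real.log k + s j - Real.log Z := by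
      rw [Real.log_mul hk.ne' (by positivity), Real.log_div he.ne' hZ0.ne', Real.log_exp]
      ring
    rw [h5] at h4
    exact h4
  have hsum : ∑ j, Real.exp (s j) / Z = 1 := by
    rw [← sum_div, ← hZ, div_self hZ0.ne']
  have h6 := sum_le_sum (s := univ) (fun j _ => hpt j)
  have h7 : ∑ j : Fin k, (k * (Real.exp (s j) / Z) * (Real.log k + s j - Real.log Z)
        - k * (Real.exp (s j) / Z) + 1)
      = k * (Real.log k - Real.log Z) + k * ∑ j, (Real.exp (s j) / Z) * s j := by
    have e1 : ∀ j : Fin k, (k * (Real.exp (s j) / Z) * (Real.log k + s j - Real.log Z)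
        - k * (Real.exp (s j) / Z) + 1) = (k * (Real.log k - Real.log Z) - k) * (Real.exp (s j) / Z)
          + k * ((Real.exp (s j) / Z) * s j) + 1 := by intro j; ring
    rw [sum_congr rfl (fun j _ => e1 j), sum_add_distrib, sum_add_distrib, ← mul_sum, ← mul_sum,
      hsum]
    simp
    ring
  rw [h7] at h6
  have h8 : ∑ j : Fin k, 0.96 * L / k * (k * (Real.exp (s j) / Z) - 1) ^ 2
      = k * (0.96 * L * ∑ j : Fin k, (Real.exp (s j) / Z - 1 / k) ^ 2) := by
    rw [← mul_assoc, mul_sum]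
    apply sum_congr rfl
    intro j _
    field_simp
  rw [h8, ← mul_add] at h6
  have h9 := le_of_mul_le_mul_left h6 hk
  have h10 : Real.log ((1 / (k : ℝ)) * Z) ≤ (1 / (k : ℝ)) * ∑ j, s j
      + (∑ j, s j ^ 2) / (4 * (0.96 * L)) := by
    have e1 : Real.log ((1 / (k : ℝ)) * Z) = Real.log Z - Real.log k := by
      rw [Real.log_mul (by positivity) hZ0.ne', Real.log_div one_ne_zero hk.ne', Real.log_one]
      ring
    rw [e1]
    have e2 : ∀ j : Fin k, (Real.exp (s j) / Z) * s j - 0.96 * L * (Real.exp (s j) / Z - 1 / k) ^ 2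
        ≤ (1 / (k : ℝ)) * s j + s j ^ 2 / (4 * (0.96 * L)) := by
      intro j
      set u := Real.exp (s j) / Z - 1 / k with hu
      have e3 : Real.exp (s j) / Z = u + 1 / k := by rw [hu]; ring
      rw [e3]
      have e4 : u * s j - 0.96 * L * u ^ 2 ≤ s j ^ 2 / (4 * (0.96 * L)) := by
        rw [le_div_iff₀ (by positivity)]
        nlinarith [sq_nonneg (2 * (0.96 * L) * u - s j)]
      linarith
    have e5 := sum_le_sum (s := univ) (fun j _ => e2 j)
    rw [sum_sub_distrib, ← mul_sum, sum_add_distrib, ← mul_sum, ← sum_div] at e5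
    linarith
  have hpos : 0 < (1 / (k : ℝ)) * Z := by positivity
  calc (1 / (k : ℝ)) * Z = Real.exp (Real.log ((1 / (k : ℝ)) * Z)) := (Real.exp_log hpos).symm
    _ ≤ _ := Real.exp_le_exp.mpr h10

lemma integrable_exp_sq (κ : ℝ) (hκ : κ < 1) :
    Integrable (fun x : ℝ => Real.exp (κ * x ^ 2 / 2)) (gaussianReal 0 1) := by
  rw [gaussianReal_of_var_ne_zero _ one_ne_zero,
    integrable_withDensity_iff_integrable_smul' (measurable_gaussianPDF _ _)
      (ae_of_all _ fun _ ↦ gaussianPDF_lt_top)]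
  have h1 : (fun x : ℝ => (gaussianPDF 0 1 x).toReal • Real.exp (κ * x ^ 2 / 2))
      = fun x => (√(2 * Real.pi * ((1 : NNReal) : ℝ)))⁻¹ * Real.exp (-((1 - κ) / 2) * x ^ 2) := by
    funext x
    rw [toReal_gaussianPDF, gaussianPDFReal, smul_eq_mul, mul_assoc, ← Real.exp_add]
    congr 2
    push_cast
    ring
  rw [h1]
  exact (integrable_exp_neg_mul_sq (by linarith)).const_mul _

lemma integral_exp_sq (κ : ℝ) (hκ : κ < 1) :
    ∫ x : ℝ, Real.exp (κ * x ^ 2 / 2) ∂(gaussianReal 0 1) = 1 / Real.sqrt (1 - κ) := by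
  rw [integral_gaussianReal_eq_integral_smul one_ne_zero]
  have h1 : (fun x : ℝ => gaussianPDFReal 0 1 x • Real.exp (κ * x ^ 2 / 2))
      = fun x => (√(2 * Real.pi * ((1 : NNReal) : ℝ)))⁻¹ * Real.exp (-((1 - κ) / 2) * x ^ 2) := by
    funext x
    rw [gaussianPDFReal, smul_eq_mul, mul_assoc, ← Real.exp_add]
    congr 2
    push_cast
    ring
  rw [h1, integral_const_mul, integral_gaussian]
  have hk : 0 < 1 - κ := by linarith
  have hpi := Real.pi_pos
  have h2 : Real.pi / ((1 - κ) / 2) = (2 * Real.pi) / (1 - κ) := by field_simp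
  rw [h2, Real.sqrt_div (by positivity)]
  push_cast
  rw [mul_one]
  have h3 : 0 < Real.sqrt (2 * Real.pi) := by positivity
  field_simp

lemma pointwise_sum {n k : ℕ} (hk : 0 < k) (c : Fin n → Fin k) (γ κ B : ℝ) (hγ : 0 < γ)
    (hB : 0 ≤ B)
    (hdual : ∀ s : Fin k → ℝ, (1 / (k : ℝ)) * ∑ j, Real.exp (s j)
      ≤ Real.exp ((1 / (k : ℝ)) * ∑ j, s j + (∑ j, s j ^ 2) / (4 * γ)))
    (hc : ∀ i, ((univ.filter (fun v => c v = i)).card : ℝ) * B / γ ≤ κ)
    (g : Fin k × Fin k → ℝ) :
    ∑ c' : Fin n → Fin k, ∏ p : Fin k × Fin k, Real.exp (Real.sqrt (2 * B) *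
      (((univ.filter (fun v => c v = p.1 ∧ c' v = p.2)).card : ℝ)
        - ((univ.filter (fun v => c v = p.1)).card : ℝ) / k) * g p)
      ≤ (k : ℝ) ^ n * ∏ p : Fin k × Fin k, Real.exp (κ * g p ^ 2 / 2) := by
  set t := Real.sqrt (2 * B) with ht
  have htt : t ^ 2 = 2 * B := Real.sq_sqrt (by positivity)
  have hkr : (0 : ℝ) < k := by exact_mod_cast hk
  let sb : Fin k → ℝ := fun i => (1 / (k : ℝ)) * ∑ j, t * g (i, j)
  have h1 : ∀ c' : Fin n → Fin k, ∏ p : Fin k × Fin k, Real.exp (t *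
      (((univ.filter (fun v => c v = p.1 ∧ c' v = p.2)).card : ℝ)
        - ((univ.filter (fun v => c v = p.1)).card : ℝ) / k) * g p)
      = ∏ v : Fin n, Real.exp (t * g (c v, c' v) - sb (c v)) := by
    intro c'
    rw [← Real.exp_sum, ← Real.exp_sum]
    congr 1
    rw [sum_sub_distrib]
    have e1 : ∑ v : Fin n, t * g (c v, c' v)
        = ∑ p : Fin k × Fin k, t * ((univ.filter (fun v => c v = p.1 ∧ c' v = p.2)).card : ℝ)
          * g p := by
      have : ∀ p : Fin k × Fin k,
          t * ((univ.filter (fun v => c v = p.1 ∧ c' v = p.2)).card : ℝ) * g p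
          = ∑ v : Fin n, if (c v, c' v) = p then t * g p else 0 := by
        intro p
        rw [← sum_filter, sum_const, nsmul_eq_mul]
        have : (univ.filter (fun v => (c v, c' v) = p)) =
          univ.filter (fun v => c v = p.1 ∧ c' v = p.2) := by
          ext v; simp [Prod.ext_iff]
        rw [this]; ring
      rw [sum_congr rfl (fun p _ => this p), sum_comm]
      apply sum_congr rfl
      intro v _
      rw [sum_ite_eq]
      simp
    have e2 : ∑ v : Fin n, sb (c v)
        = ∑ p : Fin k × Fin k, t * (((univ.filter (fun v => c v = p.1)).card : ℝ) / k) * g p := by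
      rw [Fintype.sum_prod_type]
      have : ∀ v : Fin n, sb (c v) = ∑ i, if c v = i then sb i else 0 := by
        intro v
        rw [sum_ite_eq]; simp
      rw [sum_congr rfl (fun v _ => this v), sum_comm]
      apply sum_congr rfl
      intro i _
      rw [← sum_filter, sum_const, nsmul_eq_mul]
      simp only [sb]
      rw [mul_sum, mul_sum]
      apply sum_congr rfl
      intro j _
      ring
    rw [e1, e2, ← sum_sub_distrib]
    apply sum_congr rfl
    intro p _
    ring
  rw [sum_congr rfl (fun c' _ => h1 c')]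
  have h2 : ∑ c' : Fin n → Fin k, ∏ v : Fin n, Real.exp (t * g (c v, c' v) - sb (c v))
      = ∏ v : Fin n, ∑ a : Fin k, Real.exp (t * g (c v, a) - sb (c v)) := by
    rw [Finset.prod_univ_sum, Fintype.piFinset_univ]
  rw [h2]
  have h3 : ∀ v : Fin n, ∑ a : Fin k, Real.exp (t * g (c v, a) - sb (c v))
      ≤ k * Real.exp ((∑ j, (t * g (c v, j)) ^ 2) / (4 * γ)) := by
    intro v
    have e1 : ∑ a : Fin k, Real.exp (t * g (c v, a) - sb (c v))
        = k * ((1 / (k : ℝ)) * ∑ j, Real.exp (t * g (c v, j))) * Real.exp (-sb (c v)) := by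
      have : ∀ a : Fin k, Real.exp (t * g (c v, a) - sb (c v))
        = Real.exp (t * g (c v, a)) * Real.exp (-sb (c v)) := by
        intro a; rw [← Real.exp_add]; congr 1
      rw [sum_congr rfl (fun a _ => this a), ← sum_mul]
      field_simp
    rw [e1]
    have e2 := hdual (fun j => t * g (c v, j))
    calc k * ((1 / (k : ℝ)) * ∑ j, Real.exp (t * g (c v, j))) * Real.exp (-sb (c v))
        ≤ k * (Real.exp ((1 / (k : ℝ)) * ∑ j, t * g (c v, j)
          + (∑ j, (t * g (c v, j)) ^ 2) / (4 * γ))) * Real.exp (-sb (c v)) := by gcongr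
      _ = k * Real.exp ((∑ j, (t * g (c v, j)) ^ 2) / (4 * γ)) := by
        rw [mul_assoc, ← Real.exp_add]
        congr 2
        simp only [sb]
        ring
  refine (prod_le_prod (fun v _ => sum_nonneg (fun a _ => (Real.exp_pos _).le))
    (fun v _ => h3 v)).trans ?_
  rw [prod_mul_distrib, prod_const, card_univ, Fintype.card_fin]
  have h4 : ∏ v : Fin n, Real.exp ((∑ j, (t * g (c v, j)) ^ 2) / (4 * γ))
      ≤ ∏ p : Fin k × Fin k, Real.exp (κ * g p ^ 2 / 2) := by
    rw [← Real.exp_sum, ← Real.exp_sum, Real.exp_le_exp]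
    have e1 : ∑ v : Fin n, (∑ j, (t * g (c v, j)) ^ 2) / (4 * γ)
        = ∑ i : Fin k, ((univ.filter (fun v => c v = i)).card : ℝ)
          * ((∑ j, (t * g (i, j)) ^ 2) / (4 * γ)) := by
      have : ∀ v : Fin n, (∑ j, (t * g (c v, j)) ^ 2) / (4 * γ)
          = ∑ i, if c v = i then (∑ j, (t * g (i, j)) ^ 2) / (4 * γ) else 0 := by
        intro v
        rw [sum_ite_eq]; simp
      rw [sum_congr rfl (fun v _ => this v), sum_comm]
      apply sum_congr rfl
      intro i _
      rw [← sum_filter, sum_const, nsmul_eq_mul]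
    rw [e1, Fintype.sum_prod_type]
    apply sum_le_sum
    intro i _
    have e2 : ((univ.filter (fun v => c v = i)).card : ℝ)
          * ((∑ j, (t * g (i, j)) ^ 2) / (4 * γ))
        = ∑ j, (((univ.filter (fun v => c v = i)).card : ℝ) * B / γ) * g (i, j) ^ 2 / 2 := by
      rw [← mul_div_assoc, mul_sum, sum_div]
      apply sum_congr rfl
      intro j _
      rw [mul_pow, htt]
      field_simp
      ring
    rw [e2]
    apply sum_le_sum
    intro j _
    have := hc i
    gcongr
  gcongr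

theorem gauss_sum {n k : ℕ} (hk : 0 < k) (c : Fin n → Fin k) (γ B κ : ℝ) (hγ : 0 < γ) (hB : 0 ≤ B)
    (hκ : κ < 1)
    (hdual : ∀ s : Fin k → ℝ, (1 / (k : ℝ)) * ∑ j, Real.exp (s j)
      ≤ Real.exp ((1 / (k : ℝ)) * ∑ j, s j + (∑ j, s j ^ 2) / (4 * γ)))
    (hc : ∀ i, ((univ.filter (fun v => c v = i)).card : ℝ) * B / γ ≤ κ) :
    ∑ c' : Fin n → Fin k, Real.exp (B * ∑ i, ∑ j,
      (((univ.filter (fun v => c v = i ∧ c' v = j)).card : ℝ)
        - ((univ.filter (fun v => c v = i)).card : ℝ) / k) ^ 2)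
      ≤ (k : ℝ) ^ n * (1 / Real.sqrt (1 - κ)) ^ (k * k) := by
  set t := Real.sqrt (2 * B) with ht
  have htt : t ^ 2 = 2 * B := Real.sq_sqrt (by positivity)
  let μ : Measure (Fin k × Fin k → ℝ) := Measure.pi (fun _ => gaussianReal 0 1)
  let z : (Fin n → Fin k) → Fin k × Fin k → ℝ := fun c' p =>
    ((univ.filter (fun v => c v = p.1 ∧ c' v = p.2)).card : ℝ)
        - ((univ.filter (fun v => c v = p.1)).card : ℝ) / k
  have h1 : ∀ c' : Fin n → Fin k, Real.exp (B * ∑ i, ∑ j,
      (((univ.filter (fun v => c v = i ∧ c' v = j)).card : ℝ)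
        - ((univ.filter (fun v => c v = i)).card : ℝ) / k) ^ 2)
      = ∫ g, ∏ p : Fin k × Fin k, Real.exp (t * z c' p * g p) ∂μ := by
    intro c'
    rw [integral_fintype_prod_eq_prod (μ := fun _ : Fin k × Fin k => gaussianReal 0 1)
      (f := fun p x => Real.exp (t * z c' p * x))]
    have e1 : ∀ p : Fin k × Fin k, ∫ x, Real.exp (t * z c' p * x) ∂(gaussianReal 0 1)
        = Real.exp ((t * z c' p) ^ 2 / 2) := by
      intro p
      have := congrFun (mgf_fun_id_gaussianReal (μ := 0) (v := 1)) (t * z c' p)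
      simp only [mgf] at this
      rw [this]
      congr 1
      push_cast
      ring
    rw [prod_congr rfl (fun p _ => e1 p), ← Real.exp_sum]
    congr 1
    rw [Fintype.sum_prod_type, mul_sum]
    apply sum_congr rfl
    intro i _
    rw [mul_sum]
    apply sum_congr rfl
    intro j _
    rw [mul_pow, htt]
    ring
  rw [sum_congr rfl (fun c' _ => h1 c')]
  have hint : ∀ c' : Fin n → Fin k,
      Integrable (fun g : Fin k × Fin k → ℝ => ∏ p : Fin k × Fin k, Real.exp (t * z c' p * g p)) μ := by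
    intro c'
    exact Integrable.fintype_prod (f := fun p x => Real.exp (t * z c' p * x))
      (fun p => integrable_exp_mul_gaussianReal (t * z c' p))
  rw [← integral_finset_sum _ (fun c' _ => hint c')]
  have hint2 : Integrable (fun g : Fin k × Fin k → ℝ =>
      (k : ℝ) ^ n * ∏ p : Fin k × Fin k, Real.exp (κ * g p ^ 2 / 2)) μ := by
    apply Integrable.const_mul
    exact Integrable.fintype_prod (f := fun p x => Real.exp (κ * x ^ 2 / 2))
      (fun p => integrable_exp_sq κ hκ)
  have h2 : ∫ g, ∑ c' : Fin n → Fin k, ∏ p : Fin k × Fin k, Real.exp (t * z c' p * g p) ∂μ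
      ≤ ∫ g, (k : ℝ) ^ n * ∏ p : Fin k × Fin k, Real.exp (κ * g p ^ 2 / 2) ∂μ := by
    apply integral_mono (integrable_finset_sum _ (fun c' _ => hint c')) hint2
    intro g
    exact pointwise_sum hk c γ κ B hγ hB hdual hc g
  refine h2.trans (le_of_eq ?_)
  rw [integral_const_mul]
  congr 1
  rw [integral_fintype_prod_eq_prod (μ := fun _ : Fin k × Fin k => gaussianReal 0 1)
      (f := fun p x => Real.exp (κ * x ^ 2 / 2))]
  simp_rw [integral_exp_sq κ hκ]
  rw [prod_const, card_univ, Fintype.card_prod, Fintype.card_fin]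

end Pool.Agent.H991R2.BL
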