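import Mathlib
import Pool.Agent.H991R2.BL.Stars

open Finset

namespace Pool.Agent.H991R2.BL

/-- probability that a random `M`-set misses a given `m`-set -/
noncomputable def qq (N M m : ℕ) : ℝ := ((N - m).choose M : ℝ) / (N.choose M : ℝ)

lemma qq_eq (N M m : ℕ) (h : m + M ≤ N) :
    qq N M m = ∏ i ∈ range M, (((N : ℝ) - m - i) / ((N : ℝ) - i)) := by
  unfold qq
  have h1 : ((N - m).descFactorial M : ℝ) = ∏ i ∈ range M, ((N : ℝ) - m - i) := by
    rw [Nat.descFactorial_eq_prod_range]
    push_cast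
    apply prod_congr rfl
    intro i hi
    rw [mem_range] at hi
    rw [Nat.cast_sub (by omega), Nat.cast_sub (by omega)]
  have h2 : (N.descFactorial M : ℝ) = ∏ i ∈ range M, ((N : ℝ) - i) := by
    rw [Nat.descFactorial_eq_prod_range]
    push_cast
    apply prod_congr rfl
    intro i hi
    rw [mem_range] at hi
    rw [Nat.cast_sub (by omega)]
  rw [prod_div_distrib, ← h1, ← h2, Nat.descFactorial_eq_factorial_mul_choose,
    Nat.descFactorial_eq_factorial_mul_choose]
  push_cast
  rw [mul_div_mul_left]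
  have := Nat.factorial_pos M
  positivity

lemma qq_pos (N M m : ℕ) (h : m + M ≤ N) : 0 < qq N M m := by
  unfold qq
  have h1 := Nat.choose_pos (show M ≤ N - m by omega)
  have h2 := Nat.choose_pos (show M ≤ N by omega)
  have h1' : (0 : ℝ) < ((N - m).choose M : ℝ) := by exact_mod_cast h1
  have h2' : (0 : ℝ) < (N.choose M : ℝ) := by exact_mod_cast h2
  positivity

lemma ratio (N M m m' I u : ℕ) (T D : ℝ) (hu : u + I = m + m') (hT0 : 0 ≤ T)
    (hT : (I : ℝ) * N - m * m' ≤ T) (hD : 0 < D)
    (hDl : D ≤ ((N : ℝ) - m - M) * ((N : ℝ) - m' - M))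
    (h1 : m + M < N) (h2 : m' + M < N) (h3 : u + M ≤ N) :
    qq N M u ≤ qq N M m * qq N M m' * Real.exp (M * (T / D)) := by
  rw [qq_eq N M u h3, qq_eq N M m h1.le, qq_eq N M m' h2.le]
  have h4 : Real.exp (M * (T / D)) = ∏ _i ∈ range M, Real.exp (T / D) := by
    rw [prod_const, card_range, ← Real.exp_nat_mul]
  rw [h4, ← prod_mul_distrib, ← prod_mul_distrib]
  have hur : (u : ℝ) = m + m' - I := by
    have : (u : ℝ) + I = m + m' := by exact_mod_cast hu
    linarith
  have h1r : (m : ℝ) + M < N := by exact_mod_cast h1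
  have h2r : (m' : ℝ) + M < N := by exact_mod_cast h2
  have h3r : (u : ℝ) + M ≤ N := by exact_mod_cast h3
  have hu0 : (0 : ℝ) ≤ u := by positivity
  have hm0 : (0 : ℝ) ≤ m := by positivity
  have hm0' : (0 : ℝ) ≤ m' := by positivity
  apply prod_le_prod
  · intro i hi
    rw [mem_range] at hi
    have hir : (i : ℝ) < M := by exact_mod_cast hi
    apply div_nonneg <;> linarith
  · intro i hi
    rw [mem_range] at hi
    have hir : (i : ℝ) < M := by exact_mod_cast hi
    have hi0 : (0 : ℝ) ≤ i := by positivity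
    have hNi : 0 < (N : ℝ) - i := by linarith
    have e1 : ((N : ℝ) - m - i) / (N - i) * ((N - m' - i) / (N - i)) * Real.exp (T / D)
        = (((N : ℝ) - m - i) * (N - m' - i) * Real.exp (T / D) / (N - i)) / (N - i) := by
      field_simp
    rw [e1]
    apply div_le_div_of_nonneg_right _ hNi.le
    rw [le_div_iff₀ hNi]
    have e2 : 1 + T / D ≤ Real.exp (T / D) := by
      have := Real.add_one_le_exp (T / D); linarith
    have hDi : D ≤ ((N : ℝ) - m - i) * (N - m' - i) := by
      refine hDl.trans ?_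
      apply mul_le_mul <;> linarith
    have e3 : ((N : ℝ) - m - i) * (N - m' - i) + T
        ≤ ((N : ℝ) - m - i) * (N - m' - i) * (1 + T / D) := by
      have : T ≤ ((N : ℝ) - m - i) * (N - m' - i) * (T / D) := by
        calc T = D * (T / D) := by field_simp
          _ ≤ _ := by
            have : 0 ≤ T / D := by positivity
            gcongr
      linarith
    have e4 : ((N : ℝ) - u - i) * (N - i)
        ≤ ((N : ℝ) - m - i) * (N - m' - i) + T := by
      rw [hur]
      have hI0 : (0 : ℝ) ≤ I := by positivity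
      nlinarith [mul_nonneg hI0 hi0]
    calc ((N : ℝ) - u - i) * (N - i) ≤ ((N : ℝ) - m - i) * (N - m' - i) + T := e4
      _ ≤ ((N : ℝ) - m - i) * (N - m' - i) * (1 + T / D) := e3
      _ ≤ _ := by
        have : 0 ≤ ((N : ℝ) - m - i) * (N - m' - i) := by
          apply mul_nonneg <;> linarith
        gcongr

/-! ### monochromatic pairs -/

variable {n : ℕ} {α : Type*} [Fintype α] [DecidableEq α]

/-- fibre sizes -/
def fib (f : Fin n → α) (a : α) : Finset (Fin n) := univ.filter (fun v => f v = a)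

/-- monochromatic non-diagonal pairs -/
def monoS (f : Fin n → α) : Finset (Sym2 (Fin n)) :=
  univ.biUnion (fun a => (fib f a).offDiag.image (fun p => s(p.1, p.2)))

lemma mem_monoS (f : Fin n → α) (u v : Fin n) : s(u, v) ∈ monoS f ↔ u ≠ v ∧ f u = f v := by
  unfold monoS fib
  simp only [mem_biUnion, mem_univ, true_and, mem_image, mem_offDiag, mem_filter, Prod.exists,
    Sym2.eq_iff]
  constructor
  · rintro ⟨a, x, y, ⟨h1, h2, h3⟩, (⟨rfl, rfl⟩ | ⟨rfl, rfl⟩)⟩
    · exact ⟨h3, h1.trans h2.symm⟩
    · exact ⟨h3.symm, h2.trans h1.symm⟩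
  · rintro ⟨h1, h2⟩
    exact ⟨f u, u, v, ⟨rfl, h2.symm, h1⟩, Or.inl ⟨rfl, rfl⟩⟩

lemma card_monoS (f : Fin n → α) :
    2 * (monoS f).card + n = ∑ a, (fib f a).card ^ 2 := by
  unfold monoS
  rw [card_biUnion]
  · rw [mul_sum]
    have h1 : ∀ a : α, 2 * ((fib f a).offDiag.image (fun p => s(p.1, p.2))).card
        + (fib f a).card = (fib f a).card ^ 2 := by
      intro a
      have := Sym2.two_mul_card_image_offDiag (fib f a)
      have h2 : (fib f a).offDiag.image (fun p => s(p.1, p.2))
        = (fib f a).offDiag.image Sym2.mk.uncurry := rfl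
      rw [h2, this, offDiag_card]
      have h3 : (fib f a).card ≤ (fib f a).card * (fib f a).card := Nat.le_mul_self _
      rw [pow_two]
      omega
    have h2 : ∑ a, (fib f a).card = n := by
      have := Finset.card_eq_sum_card_fiberwise (f := f) (s := (univ : Finset (Fin n)))
        (t := univ) (by intro x _; simp)
      rw [card_univ, Fintype.card_fin] at this
      exact this.symm
    calc ∑ a, 2 * ((fib f a).offDiag.image (fun p => s(p.1, p.2))).card + n
        = ∑ a, 2 * ((fib f a).offDiag.image (fun p => s(p.1, p.2))).card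
          + ∑ a, (fib f a).card := by rw [h2]
      _ = _ := by rw [← sum_add_distrib]; exact sum_congr rfl (fun a _ => h1 a)
  · intro a _ b _ hab
    simp only [Function.onFun]
    rw [disjoint_left]
    intro e h1 h2
    simp only [mem_image, mem_offDiag, fib, mem_filter, mem_univ, true_and] at h1 h2
    obtain ⟨p, ⟨hp1, hp2, _⟩, rfl⟩ := h1
    obtain ⟨q, ⟨hq1, hq2, _⟩, h3⟩ := h2
    rw [Sym2.eq_iff] at h3
    rcases h3 with ⟨h4, _⟩ | ⟨h4, _⟩
    · rw [h4] at hq1; exact hab (hp1.symm.trans hq1)
    · rw [h4] at hq1; exact hab (hp2.symm.trans hq1)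

end Pool.Agent.H991R2.BL
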