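import Mathlib
import Pool.Agent.H991R2.BL.SecMom

open Finset

namespace Pool.Agent.H991R2.BL

variable {E : Type*} [Fintype E] [DecidableEq E]

/-- the first `M` elements -/
def ini (σ : E ≃ Fin (Fintype.card E)) (M : ℕ) : Finset E :=
  univ.filter (fun e => (σ e : ℕ) < M)

lemma mem_ini (σ : E ≃ Fin (Fintype.card E)) (M : ℕ) (e : E) : e ∈ ini σ M ↔ (σ e : ℕ) < M := by
  simp [ini]

lemma card_ini (σ : E ≃ Fin (Fintype.card E)) (M : ℕ) (hM : M ≤ Fintype.card E) :
    (ini σ M).card = M := by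
  have h1 : (ini σ M).map σ.toEmbedding = univ.filter (fun i : Fin (Fintype.card E) => (i : ℕ) < M) := by
    ext i
    simp only [mem_map_equiv, mem_ini, mem_filter, mem_univ, true_and, Equiv.apply_symm_apply]
  rw [← card_map σ.toEmbedding, h1, Fin.card_filter_val_lt]
  exact min_eq_right hM

/-- orders in which all of `A` comes after position `M2` -/
def PP (A : Finset E) (M2 : ℕ) : Finset (E ≃ Fin (Fintype.card E)) :=
  univ.filter (fun σ => ∀ e ∈ A, M2 ≤ (σ e : ℕ))

lemma mem_PP (A : Finset E) (M2 : ℕ) (σ : E ≃ Fin (Fintype.card E)) :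
    σ ∈ PP A M2 ↔ ∀ e ∈ A, M2 ≤ (σ e : ℕ) := by simp [PP]

lemma card_fib_le (A : Finset E) (M1 M2 : ℕ) (S S' : Finset E) (hS : S ⊆ univ \ A)
    (hS' : S' ⊆ univ \ A) (hc : S.card = S'.card) :
    ((PP A M2).filter (fun σ => ini σ M1 = S)).card
      ≤ ((PP A M2).filter (fun σ => ini σ M1 = S')).card := by
  classical
  have hSA : ∀ x ∈ S, x ∉ A := fun x hx => (mem_sdiff.mp (hS hx)).2
  have hSA' : ∀ x ∈ S', x ∉ A := fun x hx => (mem_sdiff.mp (hS' hx)).2
  let p : {x // x ∉ A} → Prop := fun x => x.1 ∈ S'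
  let q : {x // x ∉ A} → Prop := fun x => x.1 ∈ S
  have hcard : Fintype.card {x // p x} = Fintype.card {x // q x} := by
    have e1 : ∀ (T : Finset E) (hT : ∀ x ∈ T, x ∉ A),
        Fintype.card {x : {x // x ∉ A} // x.1 ∈ T} = T.card := by
      intro T hT
      rw [← Fintype.card_coe T]
      apply Fintype.card_congr
      exact ⟨fun x => ⟨x.1.1, x.2⟩, fun x => ⟨⟨x.1, hT x.1 x.2⟩, x.2⟩, fun _ => rfl, fun _ => rfl⟩
    rw [e1 S' hSA', e1 S hSA, hc]
  let e : {x // p x} ≃ {x // q x} := Fintype.equivOfCardEq hcard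
  let τ : Equiv.Perm {x // x ∉ A} := e.extendSubtype
  let π : Equiv.Perm E := Equiv.Perm.ofSubtype τ
  have hπA : ∀ x ∈ A, π x = x := by
    intro x hx
    exact Equiv.Perm.ofSubtype_apply_of_not_mem τ (by simpa using hx)
  have hπS : ∀ x, π x ∈ S ↔ x ∈ S' := by
    intro x
    by_cases hx : x ∈ A
    · rw [hπA x hx]
      constructor
      · intro h; exact absurd hx (hSA x h)
      · intro h; exact absurd hx (hSA' x h)
    · have e1 : π x = (τ ⟨x, hx⟩ : E) := Equiv.Perm.ofSubtype_apply_of_mem τ hx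
      rw [e1]
      by_cases hx' : x ∈ S'
      · have := e.extendSubtype_mem ⟨x, hx⟩ hx'
        exact iff_of_true this hx'
      · have := e.extendSubtype_not_mem ⟨x, hx⟩ hx'
        exact iff_of_false this hx'
  apply card_le_card_of_injOn (fun σ => π.trans σ)
  · intro σ hσ
    simp only [coe_filter, Set.mem_ofPred_eq, mem_PP] at hσ ⊢
    refine ⟨?_, ?_⟩
    · intro x hx
      rw [Equiv.trans_apply, hπA x hx]
      exact hσ.1 x hx
    · ext x
      rw [mem_ini, Equiv.trans_apply, ← hπS x, ← hσ.2, mem_ini]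
  · intro σ _ σ' _ h
    have h' : π.trans σ = π.trans σ' := h
    ext x
    have := congrArg (fun s : E ≃ Fin (Fintype.card E) => (s (π.symm x) : ℕ)) h'
    simpa using this

lemma unif (A : Finset E) (M1 M2 : ℕ) (h12 : M1 ≤ M2) (hM : M1 ≤ Fintype.card E)
    (P : Finset E → Prop) [DecidablePred P] :
    ((PP A M2).filter (fun σ => P (ini σ M1))).card * (Fintype.card E - A.card).choose M1
      = (PP A M2).card * ((powersetCard M1 (univ \ A)).filter P).card := by
  classical
  have hmaps : ∀ σ ∈ PP A M2, ini σ M1 ∈ powersetCard M1 (univ \ A) := by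
    intro σ hσ
    rw [mem_powersetCard]
    refine ⟨?_, card_ini σ M1 hM⟩
    intro x hx
    rw [mem_sdiff]
    refine ⟨mem_univ _, fun hA => ?_⟩
    rw [mem_PP] at hσ
    have := hσ x hA
    rw [mem_ini] at hx
    omega
  have hcardP : (powersetCard M1 (univ \ A)).card = (Fintype.card E - A.card).choose M1 := by
    rw [card_powersetCard, card_sdiff_of_subset (subset_univ _), card_univ]
  rcases (powersetCard M1 (univ \ A)).eq_empty_or_nonempty with h0 | ⟨S0, hS0⟩
  · rw [← hcardP, h0]; simp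
  · rw [mem_powersetCard] at hS0
    have hconst : ∀ S ∈ powersetCard M1 (univ \ A),
        ((PP A M2).filter (fun σ => ini σ M1 = S)).card
          = ((PP A M2).filter (fun σ => ini σ M1 = S0)).card := by
      intro S hS
      rw [mem_powersetCard] at hS
      apply le_antisymm
      · exact card_fib_le A M1 M2 S S0 hS.1 hS0.1 (hS.2.trans hS0.2.symm)
      · exact card_fib_le A M1 M2 S0 S hS0.1 hS.1 (hS0.2.trans hS.2.symm)
    have h1 : (PP A M2).card = (powersetCard M1 (univ \ A)).card
        * ((PP A M2).filter (fun σ => ini σ M1 = S0)).card := by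
      rw [card_eq_sum_card_fiberwise (f := fun σ => ini σ M1) (t := powersetCard M1 (univ \ A)) hmaps,
        sum_congr rfl hconst, sum_const, smul_eq_mul]
    have h2 : ((PP A M2).filter (fun σ => P (ini σ M1))).card
        = ((powersetCard M1 (univ \ A)).filter P).card
        * ((PP A M2).filter (fun σ => ini σ M1 = S0)).card := by
      have hmaps2 : ∀ σ ∈ (PP A M2).filter (fun σ => P (ini σ M1)),
          ini σ M1 ∈ (powersetCard M1 (univ \ A)).filter P := by
        intro σ hσ
        rw [mem_filter] at hσ ⊢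
        exact ⟨hmaps σ hσ.1, hσ.2⟩
      rw [card_eq_sum_card_fiberwise (f := fun σ => ini σ M1)
        (t := (powersetCard M1 (univ \ A)).filter P) hmaps2]
      have h3 : ∀ S ∈ (powersetCard M1 (univ \ A)).filter P,
          (((PP A M2).filter (fun σ => P (ini σ M1))).filter (fun σ => ini σ M1 = S)).card
          = ((PP A M2).filter (fun σ => ini σ M1 = S0)).card := by
        intro S hS
        rw [mem_filter] at hS
        rw [← hconst S hS.1]
        congr 1
        ext σ
        simp only [mem_filter]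
        constructor
        · rintro ⟨⟨a1, _⟩, a3⟩; exact ⟨a1, a3⟩
        · rintro ⟨a1, a3⟩; exact ⟨⟨a1, by rw [a3]; exact hS.2⟩, a3⟩
      rw [sum_congr rfl h3, sum_const, smul_eq_mul]
    rw [h2, h1, hcardP]
    ring

lemma card_PP (A : Finset E) (M2 : ℕ) (hM : M2 ≤ Fintype.card E) :
    ((PP A M2).card : ℝ) = (Fintype.card E).factorial * qq (Fintype.card E) M2 A.card := by
  classical
  have h := unif (∅ : Finset E) M2 M2 le_rfl hM (fun S => Disjoint S A)
  have h1 : (PP (∅ : Finset E) M2) = univ := by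
    ext σ; simp [mem_PP]
  have h2 : (univ : Finset (E ≃ Fin (Fintype.card E))).card = (Fintype.card E).factorial := by
    rw [card_univ]
    exact Fintype.card_equiv (Fintype.equivFin E)
  have h3 : ((PP (∅ : Finset E) M2).filter (fun σ => Disjoint (ini σ M2) A)) = PP A M2 := by
    rw [h1]
    ext σ
    simp only [mem_filter, mem_univ, true_and, mem_PP, disjoint_left, mem_ini]
    constructor
    · intro h e he
      by_contra hcon
      exact h (not_le.mp hcon) he
    · intro h e he hA
      have := h e hA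
      omega
  have h4 : ((powersetCard M2 (univ \ ∅)).filter (fun S => Disjoint S A))
      = powersetCard M2 (univ \ A) := by
    ext S
    simp only [mem_filter, mem_powersetCard, sdiff_empty, subset_univ, true_and]
    constructor
    · rintro ⟨a1, a2⟩
      refine ⟨?_, a1⟩
      intro x hx
      rw [mem_sdiff]
      exact ⟨mem_univ _, fun hA => (disjoint_left.mp a2) hx hA⟩
    · rintro ⟨a1, a2⟩
      refine ⟨a2, ?_⟩
      rw [disjoint_left]
      intro x hx hA
      exact (mem_sdiff.mp (a1 hx)).2 hA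
  rw [h3, h4, h1, h2, card_empty, Nat.sub_zero, card_powersetCard,
    card_sdiff_of_subset (subset_univ _), card_univ] at h
  have hpos : (0 : ℝ) < ((Fintype.card E).choose M2 : ℝ) := by
    exact_mod_cast Nat.choose_pos hM
  have h' : ((PP A M2).card : ℝ) * ((Fintype.card E).choose M2 : ℝ)
      = (Fintype.card E).factorial * ((Fintype.card E - A.card).choose M2 : ℝ) := by
    exact_mod_cast h
  unfold qq
  rw [← mul_div_assoc, eq_div_iff hpos.ne']
  exact h'

lemma PP_union (A B : Finset E) (M2 : ℕ) : PP A M2 ∩ PP B M2 = PP (A ∪ B) M2 := by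
  ext σ
  simp only [mem_inter, mem_PP, mem_union]
  constructor
  · rintro ⟨h1, h2⟩ e (he | he)
    · exact h1 e he
    · exact h2 e he
  · intro h
    exact ⟨fun e he => h e (Or.inl he), fun e he => h e (Or.inr he)⟩

/-- weighted second moment method -/
lemma second_moment {Ω ι : Type*} [Fintype Ω] [DecidableEq Ω] (C : Finset ι) (w : ι → ℝ)
    (hw : ∀ c ∈ C, 0 ≤ w c) (X : ι → Finset Ω) (a b : ℝ) (ha : 0 ≤ a)
    (h1 : ∀ c ∈ C, a ≤ w c * (X c).card)
    (h2 : ∀ c ∈ C, ∑ c' ∈ C, w c * w c' * ((X c ∩ X c').card : ℝ) ≤ b) :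
    (C.card * a) ^ 2 ≤ ((C.biUnion X).card : ℝ) * (C.card * b) := by
  classical
  let Y : Ω → ℝ := fun σ => ∑ c ∈ C, if σ ∈ X c then w c else 0
  have hY1 : ∑ σ ∈ C.biUnion X, Y σ = ∑ c ∈ C, w c * (X c).card := by
    simp only [Y]
    rw [sum_comm]
    apply sum_congr rfl
    intro c hc
    rw [← sum_filter, sum_const, nsmul_eq_mul, mul_comm]
    congr 2
    congr 1
    ext σ
    simp only [mem_filter, mem_biUnion]
    constructor
    · rintro ⟨_, h⟩; exact h
    · intro h; exact ⟨⟨c, hc, h⟩, h⟩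
  have hY2 : ∑ σ ∈ C.biUnion X, Y σ ^ 2
      ≤ ∑ c ∈ C, ∑ c' ∈ C, w c * w c' * ((X c ∩ X c').card : ℝ) := by
    have e1 : ∀ σ, Y σ ^ 2 = ∑ c ∈ C, ∑ c' ∈ C, if σ ∈ X c ∩ X c' then w c * w c' else 0 := by
      intro σ
      simp only [Y]
      rw [pow_two, Finset.sum_mul_sum]
      apply sum_congr rfl; intro c _
      apply sum_congr rfl; intro c' _
      by_cases g1 : σ ∈ X c
      · by_cases g2 : σ ∈ X c'
        · simp [g1, g2]
        · simp [g1, g2]
      · simp [g1]
    rw [sum_congr rfl (fun σ _ => e1 σ), sum_comm]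
    apply sum_le_sum
    intro c hc
    rw [sum_comm]
    apply sum_le_sum
    intro c' hc'
    rw [← sum_filter, sum_const, nsmul_eq_mul, mul_comm]
    apply mul_le_mul_of_nonneg_left _ (mul_nonneg (hw c hc) (hw c' hc'))
    norm_cast
    apply card_le_card
    intro σ hσ
    exact (mem_filter.mp hσ).2
  have hCS := sq_sum_le_card_mul_sum_sq (s := C.biUnion X) (f := Y)
  have h3 : C.card * a ≤ ∑ σ ∈ C.biUnion X, Y σ := by
    rw [hY1, ← nsmul_eq_mul, ← sum_const]
    exact sum_le_sum h1
  have h4 : ∑ σ ∈ C.biUnion X, Y σ ^ 2 ≤ C.card * b := by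
    refine hY2.trans ?_
    rw [← nsmul_eq_mul, ← sum_const]
    exact sum_le_sum h2
  calc (C.card * a) ^ 2 ≤ (∑ σ ∈ C.biUnion X, Y σ) ^ 2 := by
        apply pow_le_pow_left₀ (by positivity) h3
    _ ≤ ((C.biUnion X).card : ℝ) * ∑ σ ∈ C.biUnion X, Y σ ^ 2 := hCS
    _ ≤ _ := by gcongr

end Pool.Agent.H991R2.BL
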