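import Mathlib
import Pool.Agent.H991R2.BL.Stars
import Pool.Agent.H991R2.BL.Dense
import Pool.Agent.H991R2.BL.Cut
import Pool.Agent.H991R2.BL.Core

open Finset

namespace Pool.Agent.H991R2.BL

variable {V : Type*} [Fintype V] [DecidableEq V] {k : ℕ}

/-- parameters of the planted model -/
structure Par (c : V → Fin k) (M : ℕ) (L ν : ℝ) : Prop where
  hkL : (k : ℝ) = Real.exp L
  hcard : (Fintype.card V : ℝ) = k * ν
  cl : ∀ l, 0.999 * ν ≤ (cls c l).card
  cu : ∀ l, ((cls c l).card : ℝ) ≤ 1.001 * ν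
  p1 : 1.84 * L ≤ dens c M * ν
  p2 : dens c M * ν ≤ 1.86 * L
  hM : M ≤ (bic c).card
  hE : 4 * ν ^ 2 ≤ ((bic c).card : ℝ)
  hL : 1 ≤ L
  hν : 27 * L ≤ ν

/-- `δ` -/
noncomputable def del (L : ℝ) : ℝ := 20 * (4 * L) ^ 9 * Real.exp (-0.83 * L)

/-- `δ₂` -/
noncomputable def del2 (L : ℝ) : ℝ := Real.exp L * (4 * L * del L) ^ 4

lemma del_pos {L : ℝ} (hL : 1 ≤ L) : 0 < del L := by unfold del; positivity

lemma del2_pos {L : ℝ} (hL : 1 ≤ L) : 0 < del2 L := by
  have := del_pos hL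
  unfold del2; positivity

namespace Par

variable {c : V → Fin k} {M : ℕ} {L ν : ℝ}

lemma νpos (h : Par c M L ν) : 0 < ν := by linarith [h.hν, h.hL]

lemma E0 (h : Par c M L ν) : 0 < (bic c).card := by
  have h1 := h.hE
  have h2 := h.νpos
  have : (0 : ℝ) < (bic c).card := by nlinarith [sq_pos_of_pos h2]
  exact_mod_cast this

lemma npos (h : Par c M L ν) : 0 < (Fintype.card V : ℝ) := by
  rw [h.hcard, h.hkL]
  have := h.νpos
  positivity

lemma low_bound (h : Par c M L ν) :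
    k * (10 * (4 * L) ^ 9) * Real.exp (-(dens c M) * (0.999 * ν - 10)) ≤ del L := by
  have hν := h.νpos
  have hL := h.hL
  have hp0 := dens_nonneg c M
  have h1 : dens c M * 10 ≤ 0.69 := by
    have h2 : dens c M * (27 * L) ≤ 1.86 * L := by
      calc dens c M * (27 * L) ≤ dens c M * ν := by gcongr; exact h.hν
        _ ≤ _ := h.p2
    have h3 : dens c M * 27 ≤ 1.86 := by
      by_contra hcon
      push Not at hcon
      have : 1.86 * L < dens c M * 27 * L := by gcongr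
      linarith
    linarith
  have h4 : Real.exp (-(dens c M) * (0.999 * ν - 10)) ≤ Real.exp (-1.83 * L + 0.69) := by
    rw [Real.exp_le_exp]
    have := h.p1
    nlinarith
  have h5 : Real.exp (0.69 : ℝ) ≤ 2 := by
    have h6 : (0.69 : ℝ) ≤ Real.log 2 := by
      have := Real.log_two_gt_d9
      linarith
    calc Real.exp 0.69 ≤ Real.exp (Real.log 2) := Real.exp_le_exp.mpr h6
      _ = 2 := Real.exp_log (by norm_num)
  calc k * (10 * (4 * L) ^ 9) * Real.exp (-(dens c M) * (0.999 * ν - 10))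
      ≤ k * (10 * (4 * L) ^ 9) * Real.exp (-1.83 * L + 0.69) := by gcongr
    _ = (10 * (4 * L) ^ 9) * (Real.exp L * Real.exp (-1.83 * L)) * Real.exp 0.69 := by
        rw [h.hkL, Real.exp_add]; ring
    _ = (10 * (4 * L) ^ 9) * Real.exp (-0.83 * L) * Real.exp 0.69 := by
        rw [← Real.exp_add]; congr 3; ring
    _ ≤ (10 * (4 * L) ^ 9) * Real.exp (-0.83 * L) * 2 := by gcongr
    _ = del L := by unfold del; ring

lemma twop (h : Par c M L ν) (l : Fin k) : 2 * dens c M * (cls c l).card ≤ 4 * L := by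
  have hp0 := dens_nonneg c M
  have hL := h.hL
  calc 2 * dens c M * (cls c l).card ≤ 2 * dens c M * (1.001 * ν) := by
        gcongr; exact h.cu l
    _ = 2.002 * (dens c M * ν) := by ring
    _ ≤ 2.002 * (1.86 * L) := mul_le_mul_of_nonneg_left h.p2 (by norm_num)
    _ ≤ 4 * L := by linarith

lemma pr_low' (h : Par c M L ν) (j : Fin k) (Q X : Finset V) (hQ : ∀ w ∈ Q, c w = j)
    (hX : X.card ≤ 1) (hXj : ∀ x ∈ X, c x ≠ j) :
    pr (bic c) M (fun S => ∀ w ∈ Q, low c S w ∧ ∀ x ∈ X, s(w, x) ∈ S)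
      ≤ ((2 * dens c M) ^ X.card * del L) ^ Q.card := by
  have hν := h.νpos
  have hL := h.hL
  have hp0 := dens_nonneg c M
  have hb : ∀ l, (cls c l).card ≤ ⌊1.001 * ν⌋₊ := fun l => Nat.le_floor (h.cu l)
  have hQc : Q.card ≤ ⌊1.001 * ν⌋₊ := by
    refine (card_le_card ?_).trans (hb j)
    intro w hw
    rw [mem_cls]; exact hQ w hw
  have hfl : ((⌊1.001 * ν⌋₊ : ℕ) : ℝ) ≤ 1.001 * ν := Nat.floor_le (by positivity)
  have h2 : 2 * (Q.card * ⌊1.001 * ν⌋₊) ≤ (bic c).card := by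
    have : (2 : ℝ) * ((Q.card : ℝ) * (⌊1.001 * ν⌋₊ : ℕ)) ≤ (bic c).card := by
      have hQr : (Q.card : ℝ) ≤ 1.001 * ν := le_trans (by exact_mod_cast hQc) hfl
      calc (2 : ℝ) * ((Q.card : ℝ) * (⌊1.001 * ν⌋₊ : ℕ)) ≤ 2 * ((1.001 * ν) * (1.001 * ν)) := by
            gcongr
        _ ≤ 4 * ν ^ 2 := by nlinarith [sq_nonneg ν]
        _ ≤ _ := h.hE
    exact_mod_cast this
  have h3 := pr_low c j Q X hQ hX hXj M ⌊1.001 * ν⌋₊ (0.999 * ν) (4 * L) h.cl hb (by linarith)
    h.twop h.hM h2 h.E0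
  refine h3.trans ?_
  have h4 := h.low_bound
  gcongr

/-- E1 -/
lemma e1 (h : Par c M L ν) (i : Fin k) (m0 : ℕ) (hm : Real.exp 3 * del L * ν ≤ m0) :
    pr (bic c) M (fun S => m0 < (cls c i ∩ lowSet c S).card) ≤ (1 / 2) ^ m0 := by
  classical
  have hν := h.νpos
  have hL := h.hL
  have hd := del_pos hL
  have hp0 := dens_nonneg c M
  have hm0 : (0 : ℝ) < m0 := lt_of_lt_of_le (by positivity) hm
  have step1 : pr (bic c) M (fun S => m0 < (cls c i ∩ lowSet c S).card)
      ≤ pr (bic c) M (fun S => ∃ Q ∈ powersetCard m0 (cls c i),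
        ∀ w ∈ Q, low c S w ∧ ∀ x ∈ (∅ : Finset V), s(w, x) ∈ S) := by
    apply pr_mono
    intro S _ _ hlt
    obtain ⟨Q, hQ1, hQ2⟩ := exists_subset_card_eq hlt.le
    refine ⟨Q, mem_powersetCard.mpr ⟨hQ1.trans inter_subset_left, hQ2⟩, ?_⟩
    intro w hw
    have := mem_inter.mp (hQ1 hw)
    simp only [lowSet, mem_filter, mem_univ, true_and] at this
    exact ⟨this.2, by simp⟩
  refine step1.trans ((pr_union _ _ _ _).trans ?_)
  have step2 : ∀ Q ∈ powersetCard m0 (cls c i),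
      pr (bic c) M (fun S => ∀ w ∈ Q, low c S w ∧ ∀ x ∈ (∅ : Finset V), s(w, x) ∈ S)
        ≤ del L ^ m0 := by
    intro Q hQ
    rw [mem_powersetCard] at hQ
    have := h.pr_low' i Q ∅ (fun w hw => (mem_cls c i w).mp (hQ.1 hw)) (by simp) (by simp)
    rw [hQ.2] at this
    simpa using this
  refine (sum_le_sum step2).trans ?_
  rw [sum_const, nsmul_eq_mul, card_powersetCard]
  have h5 := choose_le_exp (cls c i).card m0 (by exact_mod_cast hm0)
  calc ((cls c i).card.choose m0 : ℝ) * del L ^ m0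
      ≤ (Real.exp 1 * (cls c i).card / m0) ^ m0 * del L ^ m0 := by gcongr
    _ = (Real.exp 1 * (cls c i).card / m0 * del L) ^ m0 := by rw [mul_pow]
    _ ≤ (1 / 2) ^ m0 := by
      apply pow_le_pow_left₀ (by positivity)
      rw [div_mul_eq_mul_div, div_le_iff₀ hm0]
      have h6 := h.cu i
      have e3 : Real.exp 3 = Real.exp 1 * Real.exp 2 := by rw [← Real.exp_add]; norm_num
      have e2 : (3 : ℝ) ≤ Real.exp 2 := by
        have := Real.add_one_le_exp (2 : ℝ); linarith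
      have he1 := Real.exp_pos 1
      calc Real.exp 1 * (cls c i).card * del L ≤ Real.exp 1 * (1.001 * ν) * del L := by gcongr
        _ ≤ 1 / 2 * (Real.exp 3 * del L * ν) := by
          rw [e3]
          have : 1.001 * (Real.exp 1 * del L * ν) ≤ 1 / 2 * Real.exp 2 * (Real.exp 1 * del L * ν) := by
            gcongr; linarith
          linarith
        _ ≤ 1 / 2 * m0 := by gcongr

/-- E2, one vertex -/
lemma e2v (h : Par c M L ν) (v : V) :
    pr (bic c) M (fun S => v ∈ badSet c S) ≤ del2 L := by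
  classical
  have hν := h.νpos
  have hL := h.hL
  have hd := del_pos hL
  have hp0 := dens_nonneg c M
  have step1 : pr (bic c) M (fun S => v ∈ badSet c S)
      ≤ pr (bic c) M (fun S => ∃ j ∈ (univ : Finset (Fin k)).filter (· ≠ c v),
        ∃ Q ∈ powersetCard 4 (cls c j),
        ∀ w ∈ Q, low c S w ∧ ∀ x ∈ ({v} : Finset V), s(w, x) ∈ S) := by
    apply pr_mono
    intro S _ _ hv
    simp only [badSet, mem_filter, mem_univ, true_and] at hv
    obtain ⟨j, hj, h4⟩ := hv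
    obtain ⟨Q, hQ1, hQ2⟩ := exists_subset_card_eq h4
    refine ⟨j, by simp [hj], Q, mem_powersetCard.mpr ⟨?_, hQ2⟩, ?_⟩
    · intro w hw
      have := hQ1 hw
      rw [mem_filter, mem_inter] at this
      exact this.1.1
    · intro w hw
      have := hQ1 hw
      simp only [mem_filter, mem_inter, lowSet, mem_univ, true_and] at this
      refine ⟨this.1.2, ?_⟩
      intro x hx
      rw [mem_singleton] at hx
      rw [hx]; exact this.2
  refine step1.trans ((pr_union _ _ _ _).trans ?_)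
  have step2 : ∀ j ∈ (univ : Finset (Fin k)).filter (· ≠ c v),
      pr (bic c) M (fun S => ∃ Q ∈ powersetCard 4 (cls c j),
        ∀ w ∈ Q, low c S w ∧ ∀ x ∈ ({v} : Finset V), s(w, x) ∈ S) ≤ (4 * L * del L) ^ 4 := by
    intro j hj
    simp only [mem_filter, mem_univ, true_and] at hj
    refine (pr_union _ _ _ _).trans ?_
    have step3 : ∀ Q ∈ powersetCard 4 (cls c j),
        pr (bic c) M (fun S => ∀ w ∈ Q, low c S w ∧ ∀ x ∈ ({v} : Finset V), s(w, x) ∈ S)
          ≤ ((2 * dens c M) * del L) ^ 4 := by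
      intro Q hQ
      rw [mem_powersetCard] at hQ
      have := h.pr_low' j Q {v} (fun w hw => (mem_cls c j w).mp (hQ.1 hw)) (by simp)
        (by intro x hx; rw [mem_singleton] at hx; rw [hx]; exact hj.symm)
      rw [hQ.2] at this
      simpa using this
    refine (sum_le_sum step3).trans ?_
    rw [sum_const, nsmul_eq_mul, card_powersetCard]
    have h6 : ((cls c j).card.choose 4 : ℝ) ≤ ((cls c j).card : ℝ) ^ 4 := by
      exact_mod_cast Nat.choose_le_pow _ _
    calc ((cls c j).card.choose 4 : ℝ) * ((2 * dens c M) * del L) ^ 4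
        ≤ ((cls c j).card : ℝ) ^ 4 * ((2 * dens c M) * del L) ^ 4 := by gcongr
      _ = ((2 * dens c M * (cls c j).card) * del L) ^ 4 := by rw [← mul_pow]; ring
      _ ≤ (4 * L * del L) ^ 4 := by
        have := h.twop j
        gcongr
  refine (sum_le_sum step2).trans ?_
  rw [sum_const, nsmul_eq_mul]
  unfold del2
  rw [← h.hkL]
  have h12 : (((univ : Finset (Fin k)).filter (· ≠ c v)).card : ℝ) ≤ k := by
    have := card_filter_le (univ : Finset (Fin k)) (· ≠ c v)
    rw [card_univ, Fintype.card_fin] at this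
    exact_mod_cast this
  gcongr

/-- E2 -/
lemma e2 (h : Par c M L ν) (t0 : ℕ) (ht : 16 * del2 L * (k * ν) ≤ t0) :
    pr (bic c) M (fun S => t0 < 2 * (badSet c S).card) ≤ 1 / 8 := by
  classical
  have hν := h.νpos
  have hL := h.hL
  have hd := del2_pos hL
  have hn := h.npos
  rw [← h.hcard] at ht
  have h1 := pr_markov (bic c) M (univ : Finset V) (fun v S => v ∈ badSet c S)
    (8 * del2 L * Fintype.card V) (by positivity)
  have h2 : pr (bic c) M (fun S => t0 < 2 * (badSet c S).card)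
      ≤ pr (bic c) M (fun S => 8 * del2 L * Fintype.card V
        ≤ (((univ : Finset V).filter (fun v => v ∈ badSet c S)).card : ℝ)) := by
    apply pr_mono
    intro S _ _ hlt
    have h3 : (univ : Finset V).filter (fun v => v ∈ badSet c S) = badSet c S := by
      ext; simp
    rw [h3]
    have : (t0 : ℝ) < 2 * (badSet c S).card := by exact_mod_cast hlt
    linarith
  refine h2.trans (h1.trans ?_)
  rw [div_le_iff₀ (by positivity)]
  refine (sum_le_sum (fun v _ => h.e2v v)).trans ?_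
  rw [sum_const, nsmul_eq_mul, card_univ]
  linarith

/-- E3 -/
lemma e3 (h : Par c M L ν) (t0 : ℕ) (ht0 : 0 < t0) (ht : (t0 : ℝ) ≤ 17 * del2 L * (k * ν))
    (hnum : Real.exp 3 * 17 * del2 L * Real.exp (2 * L) * (1.86 * L) ^ 2 ≤ 1 / 2) :
    pr (bic c) M (fun S => ∃ T ⊆ (univ : Finset V), T.card = t0 ∧ 2 * t0 ≤ (S ∩ T.sym2).card)
      ≤ (1 / 2) ^ t0 := by
  have hν := h.νpos
  have hL := h.hL
  have hd := del2_pos hL
  have hp0 := dens_nonneg c M
  refine (pr_dense c M univ t0 ht0 h.hM h.E0).trans ?_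
  apply pow_le_pow_left₀ (by positivity)
  refine le_trans ?_ hnum
  rw [card_univ, h.hcard]
  calc Real.exp 3 * (k * ν) * t0 * dens c M ^ 2
      ≤ Real.exp 3 * (k * ν) * (17 * del2 L * (k * ν)) * dens c M ^ 2 := by gcongr
    _ = Real.exp 3 * 17 * del2 L * (k * k) * (dens c M * ν) ^ 2 := by ring
    _ ≤ Real.exp 3 * 17 * del2 L * (k * k) * (1.86 * L) ^ 2 := by
        have := h.p2
        gcongr
    _ = _ := by
        rw [h.hkL, ← Real.exp_add]; ring_nf

/-- E4 -/
lemma e4 (h : Par c M L ν) (i j : Fin k) :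
    pr (bic c) M (fun S => ∃ T ⊆ cls c i ∪ cls c j, T.Nonempty ∧
        (T.card : ℝ) ≤ ν / (1000 * L ^ 2) ∧ 2 * T.card ≤ (S ∩ T.sym2).card)
      ≤ 280 * L ^ 2 / ν := by
  have hν := h.νpos
  have hL := h.hL
  have hp0 := dens_nonneg c M
  have hL0 : 0 < L := by linarith
  have hexp : Real.exp 3 ≤ 20.1 := by
    have e3 : Real.exp 3 = Real.exp 1 ^ 3 := by rw [← Real.exp_nat_mul]; norm_num
    rw [e3]
    have := Real.exp_one_lt_d9
    have h0 := Real.exp_pos 1
    calc Real.exp 1 ^ 3 ≤ 2.7182818286 ^ 3 := by gcongr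
      _ ≤ 20.1 := by norm_num
  have hX : Real.exp 3 * ((cls c i ∪ cls c j).card : ℝ) * dens c M ^ 2 ≤ 140 * L ^ 2 / ν := by
    have h1 : ((cls c i ∪ cls c j).card : ℝ) ≤ 2.002 * ν := by
      have h2 : ((cls c i ∪ cls c j).card : ℝ) ≤ (cls c i).card + (cls c j).card := by
        exact_mod_cast card_union_le _ _
      have := h.cu i
      have := h.cu j
      linarith
    rw [le_div_iff₀ hν]
    calc Real.exp 3 * ((cls c i ∪ cls c j).card : ℝ) * dens c M ^ 2 * ν
        ≤ 20.1 * (2.002 * ν) * dens c M ^ 2 * ν := by gcongr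
      _ = 20.1 * 2.002 * (dens c M * ν) ^ 2 := by ring
      _ ≤ 20.1 * 2.002 * (1.86 * L) ^ 2 := by
          have := h.p2
          gcongr
      _ ≤ 140 * L ^ 2 := by nlinarith [sq_nonneg L]
  have h3 := pr_dense_le c M (cls c i ∪ cls c j) (ν / (1000 * L ^ 2)) (140 * L ^ 2 / ν)
    (by positivity) h.hM h.E0 hX (by
      have : 140 * L ^ 2 / ν * (ν / (1000 * L ^ 2)) = 140 / 1000 := by field_simp
      rw [this]; norm_num)
  refine h3.trans (le_of_eq ?_)
  ring

/-- E5 -/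
lemma e5 (h : Par c M L ν) (i j : Fin k) (hij : i ≠ j) (ρ : ℝ) (hρ0 : 0 ≤ ρ) (hρ : ρ ≤ 0.09) :
    pr (bic c) M (fun S => ∃ R ⊆ cls c i ∪ cls c j, ((R ∩ cls c i).card : ℝ) ≤ ρ * ν ∧
        ((R ∩ cls c j).card : ℝ) ≤ ρ * ν ∧ ∃ A ⊆ (cls c i ∪ cls c j) \ R,
        ν / (1000 * L ^ 2) ≤ A.card ∧
        2 * A.card ≤ (cls c i ∪ cls c j).card ∧
        ∀ u ∈ A, ∀ v ∈ (cls c i ∪ cls c j) \ (R ∪ A), s(u, v) ∉ S)
      ≤ Real.exp (ν * (2 * ρ * L + 2.002 * Real.exp (-L) - 0.000368 / L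
          + 2.002 * Real.exp (-(0.368 * L)))) := by
  have hν := h.νpos
  have hL := h.hL
  have hL0 : 0 < L := by linarith
  have hp0 := dens_nonneg c M
  have h1 := pr_cut c M i j hij (ρ * ν) (ν / (1000 * L ^ 2)) (0.999 * ν) (1.001 * ν) (0.4 * ν)
    (0.736 * L) L h.hM h.E0 (h.cl i) (h.cl j) (h.cu i) (h.cu j)
    (le_trans (by nlinarith [sq_nonneg ν]) h.hE) (by nlinarith) (by positivity) hL0.le
    (by positivity) (by have := h.p1; nlinarith) (by positivity)
  refine h1.trans (le_of_eq ?_)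
  congr 1
  have e1 : 0.736 * L / 2 = 0.368 * L := by ring
  rw [e1]
  field_simp
  ring

end Par

end Pool.Agent.H991R2.BL
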