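import Mathlib
import Pool.Agent.H991R2.BL.Planted

open Finset Filter Topology

namespace Pool.Agent.H991R2.BL

/-- the exponent in E5 -/
noncomputable def brk (L : ℝ) : ℝ :=
  2 * (2 * (Real.exp 3 * del L)) * L + 2.002 * Real.exp (-L) - 0.000368 / L
          + 2.002 * Real.exp (-(0.368 * L))

structure NumL (L : ℝ) : Prop where
  a1 : Real.exp 3 * 17 * del2 L * Real.exp (2 * L) * (1.86 * L) ^ 2 ≤ 1 / 2
  a2 : 64 * del2 L * Real.exp L ≤ Real.exp 3 * del L
  a3 : 2 * (Real.exp 3 * del L) ≤ 0.09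
  a4 : brk L < 0

structure NumN (k : ℕ) (L ν : ℝ) : Prop where
  b1 : (k : ℝ) * (1 / 2) ^ ⌈Real.exp 3 * del L * ν⌉₊ ≤ 1 / 16
  b2 : (1 / 2 : ℝ) ^ ⌈16 * del2 L * (k * ν)⌉₊ ≤ 1 / 16
  b3 : (k : ℝ) * k * (280 * L ^ 2 / ν) ≤ 1 / 16
  b4 : (k : ℝ) * k * Real.exp (ν * brk L) ≤ 1 / 16
  b6 : 1 ≤ del2 L * (k * ν)
  b7 : 4 ≤ Real.exp 3 * del L * ν

theorem Par.good {V : Type*} [Fintype V] [DecidableEq V] {k : ℕ} {c : V → Fin k} {M : ℕ}
    {L ν : ℝ} (h : Par c M L ν) (hL : NumL L) (hN : NumN k L ν) :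
    1 / 2 ≤ pr (bic c) M (Good c) := by
  classical
  have hν := h.νpos
  have hL1 := h.hL
  have hd := del_pos hL1
  have hd2 := del2_pos hL1
  have hk0 : (0 : ℝ) < k := by rw [h.hkL]; positivity
  set m0 := ⌈Real.exp 3 * del L * ν⌉₊ with hm0
  set t0 := ⌈16 * del2 L * (k * ν)⌉₊ with ht0
  have hm0l : Real.exp 3 * del L * ν ≤ m0 := Nat.le_ceil _
  have hm0u : (m0 : ℝ) < Real.exp 3 * del L * ν + 1 := Nat.ceil_lt_add_one (by positivity)
  have ht0l : 16 * del2 L * (k * ν) ≤ t0 := Nat.le_ceil _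
  have ht0u : (t0 : ℝ) < 16 * del2 L * (k * ν) + 1 := Nat.ceil_lt_add_one (by positivity)
  have ht0p : 0 < t0 := by
    have : (0 : ℝ) < t0 := by
      have := hN.b6
      linarith
    exact_mod_cast this
  have hcompl := pr_compl (bic c) M h.hM (Good c)
  have hoff : (((univ : Finset (Fin k × Fin k)).filter (fun q => q.1 ≠ q.2)).card : ℝ)
      ≤ (k : ℝ) * k := by
    have := card_filter_le (univ : Finset (Fin k × Fin k)) (fun q => q.1 ≠ q.2)
    rw [card_univ, Fintype.card_prod, Fintype.card_fin] at this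
    exact_mod_cast this
  have hE1 : pr (bic c) M (fun S => ∃ i ∈ (univ : Finset (Fin k)),
      m0 < (cls c i ∩ lowSet c S).card) ≤ 1 / 16 := by
    refine (pr_union _ _ _ _).trans ?_
    refine (sum_le_sum (fun i _ => h.e1 i m0 hm0l)).trans ?_
    rw [sum_const, nsmul_eq_mul, card_univ, Fintype.card_fin]
    exact hN.b1
  have hE2 := h.e2 t0 ht0l
  have hE3 := h.e3 t0 ht0p (by have := hN.b6; linarith) hL.a1
  have hE4 : pr (bic c) M (fun S => ∃ q ∈ (univ : Finset (Fin k × Fin k)).filter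
      (fun q => q.1 ≠ q.2), ∃ T ⊆ cls c q.1 ∪ cls c q.2, T.Nonempty ∧
        (T.card : ℝ) ≤ ν / (1000 * L ^ 2) ∧ 2 * T.card ≤ (S ∩ T.sym2).card) ≤ 1 / 16 := by
    refine (pr_union _ _ _ _).trans ?_
    refine (sum_le_sum (fun q _ => h.e4 q.1 q.2)).trans ?_
    rw [sum_const, nsmul_eq_mul]
    refine le_trans ?_ hN.b3
    gcongr
  have hE5 : pr (bic c) M (fun S => ∃ q ∈ (univ : Finset (Fin k × Fin k)).filter
      (fun q => q.1 ≠ q.2), ∃ R ⊆ cls c q.1 ∪ cls c q.2,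
        ((R ∩ cls c q.1).card : ℝ) ≤ (2 * (Real.exp 3 * del L)) * ν ∧
        ((R ∩ cls c q.2).card : ℝ) ≤ (2 * (Real.exp 3 * del L)) * ν ∧
        ∃ A ⊆ (cls c q.1 ∪ cls c q.2) \ R, ν / (1000 * L ^ 2) ≤ A.card ∧
        2 * A.card ≤ (cls c q.1 ∪ cls c q.2).card ∧
        ∀ u ∈ A, ∀ v ∈ (cls c q.1 ∪ cls c q.2) \ (R ∪ A), s(u, v) ∉ S) ≤ 1 / 16 := by
    refine (pr_union _ _ _ _).trans ?_
    have h5 : ∀ q ∈ (univ : Finset (Fin k × Fin k)).filter (fun q => q.1 ≠ q.2),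
        pr (bic c) M (fun S => ∃ R ⊆ cls c q.1 ∪ cls c q.2,
        ((R ∩ cls c q.1).card : ℝ) ≤ (2 * (Real.exp 3 * del L)) * ν ∧
        ((R ∩ cls c q.2).card : ℝ) ≤ (2 * (Real.exp 3 * del L)) * ν ∧
        ∃ A ⊆ (cls c q.1 ∪ cls c q.2) \ R, ν / (1000 * L ^ 2) ≤ A.card ∧
        2 * A.card ≤ (cls c q.1 ∪ cls c q.2).card ∧
        ∀ u ∈ A, ∀ v ∈ (cls c q.1 ∪ cls c q.2) \ (R ∪ A), s(u, v) ∉ S)
          ≤ Real.exp (ν * brk L) := by
      intro q hq
      simp only [mem_filter, mem_univ, true_and] at hq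
      exact h.e5 q.1 q.2 hq (2 * (Real.exp 3 * del L)) (by positivity) hL.a3
    refine (sum_le_sum h5).trans ?_
    rw [sum_const, nsmul_eq_mul]
    refine le_trans ?_ hN.b4
    gcongr
  have hbad : pr (bic c) M (fun S => ¬ Good c S)
      ≤ 1 / 16 + (1 / 8 + (1 / 16 + (1 / 16 + 1 / 16))) := by
    refine le_trans (pr_mono _ _ _
      (fun S => (∃ i ∈ (univ : Finset (Fin k)), m0 < (cls c i ∩ lowSet c S).card) ∨
        ((t0 < 2 * (badSet c S).card) ∨
        ((∃ T ⊆ (univ : Finset V), T.card = t0 ∧ 2 * t0 ≤ (S ∩ T.sym2).card) ∨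
        ((∃ q ∈ (univ : Finset (Fin k × Fin k)).filter
          (fun q => q.1 ≠ q.2), ∃ T ⊆ cls c q.1 ∪ cls c q.2, T.Nonempty ∧
          (T.card : ℝ) ≤ ν / (1000 * L ^ 2) ∧ 2 * T.card ≤ (S ∩ T.sym2).card) ∨
        (∃ q ∈ (univ : Finset (Fin k × Fin k)).filter
          (fun q => q.1 ≠ q.2), ∃ R ⊆ cls c q.1 ∪ cls c q.2,
          ((R ∩ cls c q.1).card : ℝ) ≤ (2 * (Real.exp 3 * del L)) * ν ∧
          ((R ∩ cls c q.2).card : ℝ) ≤ (2 * (Real.exp 3 * del L)) * ν ∧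
          ∃ A ⊆ (cls c q.1 ∪ cls c q.2) \ R, ν / (1000 * L ^ 2) ≤ A.card ∧
          2 * A.card ≤ (cls c q.1 ∪ cls c q.2).card ∧
          ∀ u ∈ A, ∀ v ∈ (cls c q.1 ∪ cls c q.2) \ (R ∪ A), s(u, v) ∉ S))))) ?_) ?_
    · intro S hS hSM hng
      by_contra hcon
      rw [not_or, not_or, not_or, not_or] at hcon
      obtain ⟨g1, g2, g3, g4, g5⟩ := hcon
      apply hng
      refine good_of c S hS m0 t0 ((2 * (Real.exp 3 * del L)) * ν) (ν / (1000 * L ^ 2))
        ?_ ?_ g3 ?_ ?_ ?_ ?_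
      · intro i
        by_contra hlt
        exact g1 ⟨i, mem_univ _, not_le.mp hlt⟩
      · exact not_lt.mp g2
      · intro i j hij hT
        exact g4 ⟨(i, j), by simp [hij], hT⟩
      · intro i j hij hT
        exact g5 ⟨(i, j), by simp [hij], hT⟩
      · have h1 : 16 * del2 L * (k * ν) ≤ 1 / 4 * (Real.exp 3 * del L * ν) := by
          rw [h.hkL]
          have := hL.a2
          have h2 : 64 * del2 L * Real.exp L * ν ≤ Real.exp 3 * del L * ν := by gcongr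
          linarith
        have := hN.b7
        linarith
      · intro i
        have h1 := h.cl i
        have h2 : 2 * (Real.exp 3 * del L) * ν ≤ 0.09 * ν := by
          have := hL.a3
          gcongr
        linarith
    · refine (pr_or _ _ _ _).trans (add_le_add hE1 ?_)
      refine (pr_or _ _ _ _).trans (add_le_add hE2 ?_)
      refine (pr_or _ _ _ _).trans (add_le_add (hE3.trans hN.b2) ?_)
      exact (pr_or _ _ _ _).trans (add_le_add hE4 hE5)
  linarith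

lemma ev_small (C : ℝ) (m : ℕ) (a ε : ℝ) (ha : 0 < a) (hε : 0 < ε) :
    ∀ᶠ L : ℝ in atTop, C * (L ^ m * Real.exp (-a * L)) ≤ ε := by
  have h1 : Tendsto (fun L : ℝ => L ^ m * Real.exp (-a * L)) atTop (𝓝 0) := by
    have := tendsto_rpow_mul_exp_neg_mul_atTop_nhds_zero (m : ℝ) a ha
    refine this.congr (fun x => ?_)
    rw [Real.rpow_natCast]
  have h2 : Tendsto (fun L : ℝ => C * (L ^ m * Real.exp (-a * L))) atTop (𝓝 0) := by
    have := h1.const_mul C
    simpa using this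
  exact h2.eventually_le_const hε

lemma ev_NumL : ∀ᶠ L : ℝ in atTop, NumL L := by
  have c1 := ev_small (Real.exp 3 * 17 * 20 ^ 4 * 4 ^ 40 * 1.86 ^ 2) 42 0.32 (1 / 2)
    (by norm_num) (by norm_num)
  have c2 := ev_small (64 * 20 ^ 3 * 4 ^ 31) 31 0.49 (Real.exp 3) (by norm_num) (Real.exp_pos 3)
  have c3 := ev_small (2 * Real.exp 3 * 20 * 4 ^ 9) 9 0.83 0.09 (by norm_num) (by norm_num)
  have c4 := ev_small (4 * Real.exp 3 * 20 * 4 ^ 9) 11 0.83 0.0001 (by norm_num) (by norm_num)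
  have c5 := ev_small 2.002 1 1 0.0001 (by norm_num) (by norm_num)
  have c6 := ev_small 2.002 1 0.368 0.0001 (by norm_num) (by norm_num)
  filter_upwards [c1, c2, c3, c4, c5, c6, eventually_ge_atTop (1 : ℝ)] with L c1 c2 c3 c4 c5 c6 h1
  have hL0 : 0 < L := by linarith
  have hd : del L = 20 * 4 ^ 9 * (L ^ 9 * Real.exp (-0.83 * L)) := by
    unfold del; rw [mul_pow]; ring
  refine ⟨?_, ?_, ?_, ?_⟩
  · refine le_trans (le_of_eq ?_) c1
    unfold del2
    rw [hd]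
    have e1 : Real.exp (-0.32 * L) = Real.exp L * Real.exp (-0.83 * L) ^ 4 * Real.exp (2 * L) := by
      rw [← Real.exp_nat_mul, ← Real.exp_add, ← Real.exp_add]
      congr 1
      push_cast
      ring
    rw [e1]
    ring
  · have e2 : 64 * del2 L * Real.exp L = (64 * 20 ^ 3 * 4 ^ 31) * (L ^ 31 * Real.exp (-0.49 * L))
        * del L := by
      unfold del2
      rw [hd]
      have e1 : Real.exp (-0.49 * L) = Real.exp L * Real.exp (-0.83 * L) ^ 3 * Real.exp L := by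
        rw [← Real.exp_nat_mul, ← Real.exp_add, ← Real.exp_add]
        congr 1
        push_cast
        ring
      rw [e1]
      ring
    rw [e2]
    have := (del_pos h1).le
    gcongr
  · refine le_trans (le_of_eq ?_) c3
    rw [hd]; ring
  · unfold brk
    have d1 : 2 * (2 * (Real.exp 3 * del L)) * L ≤ 0.0001 / L := by
      rw [le_div_iff₀ hL0]
      refine le_trans (le_of_eq ?_) c4
      rw [hd]; ring
    have d2 : 2.002 * Real.exp (-L) ≤ 0.0001 / L := by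
      rw [le_div_iff₀ hL0]
      refine le_trans (le_of_eq ?_) c5
      rw [show -(1 : ℝ) * L = -L by ring]; ring
    have d3 : 2.002 * Real.exp (-(0.368 * L)) ≤ 0.0001 / L := by
      rw [le_div_iff₀ hL0]
      refine le_trans (le_of_eq ?_) c6
      rw [show -(0.368 : ℝ) * L = -(0.368 * L) by ring]; ring
    have d4 : 0.0001 / L + 0.0001 / L + 0.0001 / L - 0.000368 / L < 0 := by
      have : 0.0001 / L + 0.0001 / L + 0.0001 / L - 0.000368 / L = -(0.000068 / L) := by ring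
      rw [this]
      have : 0 < 0.000068 / L := by positivity
      linarith
    linarith

lemma ev_half_pow (C a : ℝ) (ha : 0 < a) (ε : ℝ) (hε : 0 < ε) :
    ∀ᶠ ν : ℝ in atTop, C * (1 / 2) ^ ⌈a * ν⌉₊ ≤ ε := by
  have h1 : Tendsto (fun ν : ℝ => ⌈a * ν⌉₊) atTop atTop :=
    tendsto_nat_ceil_atTop.comp (tendsto_id.const_mul_atTop ha)
  have h2 : Tendsto (fun n : ℕ => (1 / 2 : ℝ) ^ n) atTop (𝓝 0) :=
    tendsto_pow_atTop_nhds_zero_of_lt_one (by norm_num) (by norm_num)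
  have h3 : Tendsto (fun ν : ℝ => C * (1 / 2 : ℝ) ^ ⌈a * ν⌉₊) atTop (𝓝 0) := by
    have := (h2.comp h1).const_mul C
    simpa using this
  exact h3.eventually_le_const hε

lemma ev_NumN (k : ℕ) (L : ℝ) (hL : 1 ≤ L) (hk : (k : ℝ) = Real.exp L) (h4 : brk L < 0) :
    ∀ᶠ ν : ℝ in atTop, NumN k L ν := by
  have hd := del_pos hL
  have hd2 := del2_pos hL
  have hk0 : (0 : ℝ) < k := by rw [hk]; positivity
  have c1 := ev_half_pow k (Real.exp 3 * del L) (by positivity) (1 / 16) (by norm_num)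
  have c2 := ev_half_pow 1 (16 * del2 L * k) (by positivity) (1 / 16) (by norm_num)
  have c3 : ∀ᶠ ν : ℝ in atTop, (k : ℝ) * k * (280 * L ^ 2 / ν) ≤ 1 / 16 := by
    have h1 : Tendsto (fun ν : ℝ => (k : ℝ) * k * (280 * L ^ 2 / ν)) atTop (𝓝 0) := by
      have := (tendsto_const_nhds (x := 280 * L ^ 2)).div_atTop (tendsto_id (α := ℝ) (x := atTop))
      have := this.const_mul ((k : ℝ) * k)
      simpa using this
    exact h1.eventually_le_const (by norm_num)
  have c4 : ∀ᶠ ν : ℝ in atTop, (k : ℝ) * k * Real.exp (ν * brk L) ≤ 1 / 16 := by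
    have h1 : Tendsto (fun ν : ℝ => (k : ℝ) * k * Real.exp (ν * brk L)) atTop (𝓝 0) := by
      have h2 : Tendsto (fun ν : ℝ => ν * brk L) atTop atBot :=
        tendsto_id.atTop_mul_const_of_neg h4
      have := (Real.tendsto_exp_atBot.comp h2).const_mul ((k : ℝ) * k)
      simpa using this
    exact h1.eventually_le_const (by norm_num)
  have c6 : ∀ᶠ ν : ℝ in atTop, 1 ≤ del2 L * k * ν :=
    (tendsto_id.const_mul_atTop (by positivity : 0 < del2 L * k)).eventually_ge_atTop 1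
  have c7 : ∀ᶠ ν : ℝ in atTop, 4 ≤ Real.exp 3 * del L * ν :=
    (tendsto_id.const_mul_atTop (by positivity : 0 < Real.exp 3 * del L)).eventually_ge_atTop 4
  filter_upwards [c1, c2, c3, c4, c6, c7] with ν c1 c2 c3 c4 c6 c7
  refine ⟨c1, ?_, c3, c4, ?_, c7⟩
  · rw [one_mul] at c2
    rw [show 16 * del2 L * (k * ν) = 16 * del2 L * k * ν by ring]
    exact c2
  · rw [show del2 L * (k * ν) = del2 L * k * ν by ring]
    exact c6

theorem planted_main : ∀ᶠ L : ℝ in atTop, ∀ k : ℕ, (k : ℝ) = Real.exp L →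
    ∀ᶠ ν : ℝ in atTop, ∀ (n : ℕ) (c : Fin n → Fin k) (M : ℕ), Par c M L ν →
      1 / 2 ≤ pr (bic c) M (Good c) := by
  filter_upwards [ev_NumL, eventually_ge_atTop (1 : ℝ)] with L hL h1
  intro k hk
  filter_upwards [ev_NumN k L h1 hk hL.a4] with ν hν n c M hpar
  exact hpar.good hL hν

end Pool.Agent.H991R2.BL
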