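import Mathlib
import Pool.Agent.H991R2.BL.SecMom
import Pool.Agent.H991R2.BL.Dual

open Finset

namespace Pool.Agent.H991R2.BL

variable {n k : ℕ}

/-- squared imbalance -/
noncomputable def imb (c : Fin n → Fin k) : ℝ := ∑ i, (((fib c i).card : ℝ) - n / k) ^ 2

/-- squared deviation of the overlap matrix -/
noncomputable def ZZ (c c' : Fin n → Fin k) : ℝ := ∑ i, ∑ j,
      (((univ.filter (fun v => c v = i ∧ c' v = j)).card : ℝ)
        - ((univ.filter (fun v => c v = i)).card : ℝ) / k) ^ 2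

lemma imb_nonneg (c : Fin n → Fin k) : 0 ≤ imb c := by unfold imb; positivity

lemma ZZ_nonneg (c c' : Fin n → Fin k) : 0 ≤ ZZ c c' := by unfold ZZ; positivity

lemma sum_fib {α : Type*} [Fintype α] [DecidableEq α] (f : Fin n → α) :
    ∑ a, ((fib f a).card : ℝ) = n := by
  have := Finset.card_eq_sum_card_fiberwise (f := f) (s := (univ : Finset (Fin n)))
        (t := univ) (by intro x _; simp)
  rw [card_univ, Fintype.card_fin] at this
  have h : (n : ℝ) = ((∑ a, (fib f a).card : ℕ) : ℝ) := by exact_mod_cast this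
  rw [h]; push_cast; rfl

lemma sum_sq_fib (hk : 0 < k) (c : Fin n → Fin k) :
    ∑ i, ((fib c i).card : ℝ) ^ 2 = (n : ℝ) ^ 2 / k + imb c := by
  have hkr : (0 : ℝ) < k := by exact_mod_cast hk
  have h1 : imb c = ∑ i, (((fib c i).card : ℝ) ^ 2 - 2 * (n / k) * (fib c i).card
      + (n / k : ℝ) ^ 2) := by
    unfold imb
    apply sum_congr rfl
    intro i _
    ring
  rw [h1, sum_add_distrib, sum_sub_distrib, ← mul_sum, sum_fib, sum_const, card_univ,
    Fintype.card_fin, nsmul_eq_mul]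
  field_simp
  ring

lemma sum_sq_fib2 (hk : 0 < k) (c c' : Fin n → Fin k) :
    ∑ p : Fin k × Fin k, ((fib (fun v => (c v, c' v)) p).card : ℝ) ^ 2
      = ZZ c c' + (1 / k) * ∑ i, ((fib c i).card : ℝ) ^ 2 := by
  have hkr : (0 : ℝ) < k := by exact_mod_cast hk
  rw [Fintype.sum_prod_type]
  unfold ZZ
  rw [mul_sum, ← sum_add_distrib]
  apply sum_congr rfl
  intro i _
  have h1 : ∀ j, ((fib (fun v => (c v, c' v)) (i, j)).card : ℝ)
      = ((univ.filter (fun v => c v = i ∧ c' v = j)).card : ℝ) := by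
    intro j
    unfold fib
    congr 2
    ext v
    simp
  have h2 : ∑ j, ((univ.filter (fun v => c v = i ∧ c' v = j)).card : ℝ) = (fib c i).card := by
    have := Finset.card_eq_sum_card_fiberwise (f := c') (s := fib c i)
        (t := univ) (by intro x _; simp)
    have h : ((fib c i).card : ℝ) = ((∑ j, ((fib c i).filter (fun v => c' v = j)).card : ℕ) : ℝ) := by
      exact_mod_cast this
    rw [h]
    push_cast
    apply sum_congr rfl
    intro j _
    congr 2
    ext v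
    simp [fib]
  have h3 : ((univ.filter (fun v => c v = i)).card : ℝ) = (fib c i).card := rfl
  simp_rw [h1, h3]
  have h4 : ∀ j, (((univ.filter (fun v => c v = i ∧ c' v = j)).card : ℝ)
        - ((fib c i).card : ℝ) / k) ^ 2
      = ((univ.filter (fun v => c v = i ∧ c' v = j)).card : ℝ) ^ 2
        - 2 * ((fib c i).card / k) * ((univ.filter (fun v => c v = i ∧ c' v = j)).card : ℝ)
        + (((fib c i).card : ℝ) / k) ^ 2 := by
    intro j; ring
  rw [sum_congr rfl (fun j _ => h4 j), sum_add_distrib, sum_sub_distrib, ← mul_sum, h2, sum_const,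
    card_univ, Fintype.card_fin, nsmul_eq_mul]
  field_simp
  ring

lemma two_mono (hk : 0 < k) (c : Fin n → Fin k) :
    2 * ((monoS c).card : ℝ) = (n : ℝ) ^ 2 / k + imb c - n := by
  have h := card_monoS c
  have h' : 2 * ((monoS c).card : ℝ) + n = ∑ i, ((fib c i).card : ℝ) ^ 2 := by exact_mod_cast h
  rw [sum_sq_fib hk] at h'
  linarith

lemma two_mono2 (hk : 0 < k) (c c' : Fin n → Fin k) :
    2 * ((monoS (fun v => (c v, c' v))).card : ℝ)
      = ZZ c c' + (1 / k) * ((n : ℝ) ^ 2 / k + imb c) - n := by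
  have h := card_monoS (fun v => (c v, c' v))
  have h' : 2 * ((monoS (fun v => (c v, c' v))).card : ℝ) + n
      = ∑ p, ((fib (fun v => (c v, c' v)) p).card : ℝ) ^ 2 := by exact_mod_cast h
  rw [sum_sq_fib2 hk, sum_sq_fib hk] at h'
  linarith

lemma monoS_inter (c c' : Fin n → Fin k) :
    monoS c ∩ monoS c' = monoS (fun v => (c v, c' v)) := by
  ext e
  induction e using Sym2.ind with
  | _ u v =>
    rw [mem_inter, mem_monoS, mem_monoS, mem_monoS, Prod.mk.injEq]
    tauto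

/-- `b` -/
noncomputable def bb (k : ℕ) (L : ℝ) : ℝ := 0.95 * (k - 1) * L / ((1 - 1 / k) ^ 2 * 0.999 ^ 2)

lemma arith_D (a b x D : ℝ) (ha : x ≤ a) (hb : x ≤ b) (hx : 0 ≤ x) (hD : D = x ^ 2) :
    D ≤ a * b := by
  rw [hD, pow_two]
  exact mul_le_mul ha hb hx (hx.trans ha)

lemma arith_T (n r Δ X X' I N m m' : ℝ) (hn : 1 ≤ n) (hr : 1 ≤ n * r)
    (hΔ : 0 ≤ Δ) (hX : 0 ≤ X) (hX' : 0 ≤ X')
    (hI : 2 * I = Δ + n ^ 2 * r * r - n) (hN : 2 * N = n ^ 2 - n)
    (hm : 2 * m = n ^ 2 * r + X - n) (hm' : 2 * m' = n ^ 2 * r + X' - n) :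
    I * N - m * m' ≤ Δ * n ^ 2 / 4 := by
  have h1 : 4 * (I * N - m * m') = (2 * I) * (2 * N) - (2 * m) * (2 * m') := by ring
  have h2 : 0 ≤ n ^ 2 * r - n := by nlinarith
  have h3 : (n ^ 2 * r - n) * (n ^ 2 * r - n) ≤ (2 * m) * (2 * m') := by
    rw [hm, hm']
    apply mul_le_mul <;> linarith
  have h4 : (2 * I) * (2 * N) - (n ^ 2 * r - n) * (n ^ 2 * r - n)
      = Δ * n ^ 2 - Δ * n - n ^ 3 * (1 - r) ^ 2 := by
    rw [hI, hN]; ring
  have h5 : 0 ≤ n ^ 3 * (1 - r) ^ 2 := by positivity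
  have h6 : 0 ≤ Δ * n := by positivity
  linarith

lemma arith_e2 (M n Δ r x : ℝ) (hn : 0 < n) (h1r : 0 < 1 - r)
    (hx : x = n ^ 2 * (1 - r) / 2 * 0.999) :
    M * (Δ * n ^ 2 / 4 / x ^ 2) = M / n * (Δ / n) / ((1 - r) ^ 2 * 0.999 ^ 2) := by
  have h2 := h1r.ne'
  rw [hx]
  field_simp
  ring

set_option maxHeartbeats 2000000 in
lemma Rbound (hk : 5 ≤ k) (L : ℝ) (hL : 0 ≤ L) (M N : ℕ) (hN : 2 * (N : ℝ) = (n : ℝ) ^ 2 - n)
    (hM : (M : ℝ) ≤ 0.95 * (k - 1) * L * n)
    (hn : 2 * (n : ℝ) + M ≤ 0.001 * ((n : ℝ) ^ 2 * (1 - 1 / k) / 2)) (hn0 : 0 < n) (hkn : k ≤ n)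
    (c c' : Fin n → Fin k) (hc : imb c ≤ 4 * n) (hc' : imb c' ≤ 4 * n) :
    qq N M (monoS c ∪ monoS c').card ≤ qq N M (monoS c).card * qq N M (monoS c').card
      * (Real.exp (4 * bb k L / k) * Real.exp (bb k L / n * ZZ c c')) := by
  have hk0 : 0 < k := by omega
  have hkr : (5 : ℝ) ≤ k := by exact_mod_cast hk
  have hnr : (0 : ℝ) < n := by exact_mod_cast hn0
  have hn1 : (1 : ℝ) ≤ n := by exact_mod_cast hn0
  have hknr : (k : ℝ) ≤ n := by exact_mod_cast hkn
  set r : ℝ := 1 / k with hr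
  have hr0 : 0 < r := by positivity
  have hr5 : r ≤ 1 / 5 := by
    rw [hr]
    exact one_div_le_one_div_of_le (by norm_num) hkr
  have hX := imb_nonneg c
  have hX' := imb_nonneg c'
  have hZ := ZZ_nonneg c c'
  set X := imb c with hXd
  set X' := imb c' with hX'd
  set Z := ZZ c c' with hZd
  have hm := two_mono hk0 c
  have hm' := two_mono hk0 c'
  have hI := two_mono2 hk0 c c'
  rw [← monoS_inter] at hI
  set m := (monoS c).card with hmd
  set m' := (monoS c').card with hm'd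
  set I := (monoS c ∩ monoS c').card with hId
  set u := (monoS c ∪ monoS c').card with hud
  have huI : u + I = m + m' := card_union_add_card_inter _ _
  have e1 : (n : ℝ) ^ 2 / k = (n : ℝ) ^ 2 * r := by rw [hr]; ring
  rw [e1] at hm hm' hI
  rw [← hXd] at hm hI
  rw [← hX'd] at hm'
  set Δ : ℝ := Z + r * X with hΔ
  have hΔ0 : 0 ≤ Δ := by positivity
  have hI' : 2 * (I : ℝ) = Δ + (n : ℝ) ^ 2 * r * r - n := by rw [hI, hΔ]; ring
  have hnsq : (n : ℝ) ^ 2 * r ≤ (n : ℝ) ^ 2 * (1 / 5) := by gcongr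
  have hM0 : (0 : ℝ) ≤ M := by positivity
  have hn2 : 2 * (n : ℝ) + M ≤ 0.0005 * (n : ℝ) ^ 2 := by
    have : (n : ℝ) ^ 2 * (1 - r) ≤ (n : ℝ) ^ 2 := by nlinarith [sq_nonneg (n : ℝ)]
    linarith
  have h1 : m + M < N := by
    have : (m : ℝ) + M < N := by nlinarith
    exact_mod_cast this
  have h2 : m' + M < N := by
    have : (m' : ℝ) + M < N := by nlinarith
    exact_mod_cast this
  have h3 : u + M ≤ N := by
    have h4 : u ≤ m + m' := by omega
    have : (m : ℝ) + m' + M ≤ N := by nlinarith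
    have h5 : m + m' + M ≤ N := by exact_mod_cast this
    omega
  set x : ℝ := (n : ℝ) ^ 2 * (1 - r) / 2 * 0.999 with hx
  have h1r : 0 < 1 - r := by linarith
  have hx0 : 0 < x := by positivity
  have hT := arith_T n r Δ X X' I N m m' hn1 (by
    rw [hr, mul_one_div, le_div_iff₀ (by linarith)]; linarith) hΔ0 hX hX' hI' hN hm hm'
  have hrat := ratio N M m m' I u (Δ * (n : ℝ) ^ 2 / 4) (x ^ 2) huI (by positivity)
    hT (by positivity) (arith_D _ _ x _ (by nlinarith) (by nlinarith) hx0.le rfl) h1 h2 h3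
  refine hrat.trans ?_
  have hq1 := (qq_pos N M m h1.le).le
  have hq2 := (qq_pos N M m' h2.le).le
  rw [← Real.exp_add]
  have hexp : (M : ℝ) * (Δ * (n : ℝ) ^ 2 / 4 / x ^ 2) ≤ 4 * bb k L / k + bb k L / n * Z := by
    have e2 := arith_e2 (M : ℝ) n Δ r x hnr h1r hx
    rw [e2]
    have e3 : (M : ℝ) / n ≤ 0.95 * (k - 1) * L := by
      rw [div_le_iff₀ hnr]; exact hM
    have e4 : M / n * (Δ / n) / ((1 - r) ^ 2 * 0.999 ^ 2)
        ≤ 0.95 * (k - 1) * L * (Δ / n) / ((1 - r) ^ 2 * 0.999 ^ 2) := by gcongr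
    refine e4.trans ?_
    have e5 : 0.95 * ((k : ℝ) - 1) * L * (Δ / n) / ((1 - r) ^ 2 * 0.999 ^ 2)
        = bb k L * (Δ / n) := by
      unfold bb
      rw [← hr]
      ring
    rw [e5]
    have hbb : 0 ≤ bb k L := by
      unfold bb
      rw [← hr]
      have : (0 : ℝ) ≤ (k : ℝ) - 1 := by linarith
      positivity
    have e6 : Δ / n ≤ 4 * r + Z / n := by
      rw [div_le_iff₀ hnr]
      have : (4 * r + Z / n) * n = 4 * r * n + Z := by field_simp
      rw [this, hΔ]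
      have : r * X ≤ r * (4 * n) := by gcongr
      linarith
    calc bb k L * (Δ / n) ≤ bb k L * (4 * r + Z / n) := by gcongr
      _ = _ := by rw [hr]; ring
  have hexp' := Real.exp_le_exp.mpr hexp
  gcongr

end Pool.Agent.H991R2.BL
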