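import Mathlib
import Pool.Agent.H991R2.BL.SecMom2

open Finset

namespace Pool.Agent.H991R2.BL

variable {n k : ℕ}

/-- balanced colourings -/
noncomputable def Bal (n k : ℕ) : Finset (Fin n → Fin k) := by
  classical exact univ.filter (fun c => imb c ≤ 4 * n)

lemma mem_Bal (c : Fin n → Fin k) : c ∈ Bal n k ↔ imb c ≤ 4 * n := by
  unfold Bal; simp

/-- centred indicator -/
noncomputable def ff (i a : Fin k) : ℝ := (if a = i then 1 else 0) - 1 / k

lemma sum_ff (hk : 0 < k) (i : Fin k) : ∑ a, ff i a = 0 := by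
  unfold ff
  rw [sum_sub_distrib, sum_ite_eq', sum_const, card_univ, Fintype.card_fin, nsmul_eq_mul]
  have hkr : (0 : ℝ) < k := by exact_mod_cast hk
  simp
  field_simp
  ring

lemma sum_ff_sq (hk : 0 < k) (a : Fin k) : ∑ i, ff i a ^ 2 ≤ 1 := by
  have hkr : (0 : ℝ) < k := by exact_mod_cast hk
  have h1 : ∀ i : Fin k, ff i a ^ 2 = (if a = i then (1 - 2 / (k : ℝ)) else 0) + (1 / (k : ℝ)) ^ 2 := by
    intro i
    unfold ff
    by_cases h : a = i
    · simp only [h, if_true]; ring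
    · simp only [h, if_false]; ring
  rw [sum_congr rfl (fun i _ => h1 i), sum_add_distrib, sum_ite_eq, sum_const, card_univ,
    Fintype.card_fin, nsmul_eq_mul]
  simp only [mem_univ, if_true]
  have h2 : 1 - 2 / (k : ℝ) + k * (1 / (k : ℝ)) ^ 2 = 1 - 1 / k := by field_simp; ring
  rw [h2]
  have : 0 < 1 / (k : ℝ) := by positivity
  linarith

lemma imb_eq (hk : 0 < k) (c : Fin n → Fin k) :
    imb c = ∑ i, ∑ u, ∑ v, ff i (c u) * ff i (c v) := by
  unfold imb
  apply sum_congr rfl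
  intro i _
  rw [← Finset.sum_mul_sum, ← pow_two]
  congr 1
  unfold ff fib
  rw [sum_sub_distrib, ← sum_filter, sum_const, sum_const, card_univ, Fintype.card_fin]
  simp
  ring

lemma sum_imb (hk : 0 < k) : ∑ c : Fin n → Fin k, imb c ≤ (k : ℝ) ^ n * n := by
  have h1 : ∀ (i : Fin k) (u v : Fin n), u ≠ v →
      ∑ c : Fin n → Fin k, ff i (c u) * ff i (c v) = 0 := by
    intro i u v huv
    let h : Fin n → Fin k → ℝ := fun w a => if w = u then ff i a else if w = v then ff i a else 1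
    have e1 : ∀ c : Fin n → Fin k, ff i (c u) * ff i (c v) = ∏ w, h w (c w) := by
      intro c
      have e2 : ∀ w : Fin n, h w (c w) = (if w = u then ff i (c u) else 1)
          * (if w = v then ff i (c v) else 1) := by
        intro w
        simp only [h]
        by_cases hwu : w = u
        · have hwv : w ≠ v := fun hh => huv (hwu.symm.trans hh)
          simp only [hwu, if_true]
          have : u ≠ v := huv
          simp [this]
        · by_cases hwv : w = v
          · subst hwv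
            simp [hwu]
          · simp [hwu, hwv]
      rw [prod_congr rfl (fun w _ => e2 w), prod_mul_distrib, prod_ite_eq', prod_ite_eq']
      simp
    rw [sum_congr rfl (fun c _ => e1 c)]
    have e3 : ∑ c : Fin n → Fin k, ∏ w, h w (c w) = ∏ w, ∑ a, h w a := by
      rw [Finset.prod_univ_sum, Fintype.piFinset_univ]
    rw [e3]
    apply prod_eq_zero (mem_univ u)
    simp only [h, if_true]
    exact sum_ff hk i
  have h2 : ∑ c : Fin n → Fin k, imb c
      = ∑ i : Fin k, ∑ u : Fin n, ∑ c : Fin n → Fin k, ff i (c u) ^ 2 := by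
    calc ∑ c : Fin n → Fin k, imb c
        = ∑ c : Fin n → Fin k, ∑ i, ∑ u, ∑ v, ff i (c u) * ff i (c v) :=
          sum_congr rfl (fun c _ => imb_eq hk c)
      _ = ∑ i : Fin k, ∑ u : Fin n, ∑ v : Fin n, ∑ c : Fin n → Fin k,
            ff i (c u) * ff i (c v) := by
          rw [sum_comm]
          apply sum_congr rfl; intro i _
          rw [sum_comm]
          apply sum_congr rfl; intro u _
          rw [sum_comm]
      _ = _ := by
          apply sum_congr rfl; intro i _
          apply sum_congr rfl; intro u _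
          rw [sum_eq_single u]
          · apply sum_congr rfl; intro c _; ring
          · intro v _ hv
            exact h1 i u v hv.symm
          · intro h; exact absurd (mem_univ u) h
  rw [h2]
  have h3 : ∑ i : Fin k, ∑ u : Fin n, ∑ c : Fin n → Fin k, ff i (c u) ^ 2
      = ∑ u : Fin n, ∑ c : Fin n → Fin k, ∑ i : Fin k, ff i (c u) ^ 2 := by
    rw [sum_comm]
    apply sum_congr rfl; intro u _
    rw [sum_comm]
  rw [h3]
  have h4 : ∑ u : Fin n, ∑ c : Fin n → Fin k, ∑ i : Fin k, ff i (c u) ^ 2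
      ≤ ∑ u : Fin n, ∑ c : Fin n → Fin k, (1 : ℝ) :=
    sum_le_sum (fun u _ => sum_le_sum (fun c _ => sum_ff_sq hk (c u)))
  refine h4.trans (le_of_eq ?_)
  simp
  ring

lemma card_Bal (hk : 0 < k) (hn : 0 < n) : 3 / 4 * (k : ℝ) ^ n ≤ ((Bal n k).card : ℝ) := by
  classical
  have hnr : (0 : ℝ) < n := by exact_mod_cast hn
  have h1 : (((univ : Finset (Fin n → Fin k)).filter (fun c => ¬ imb c ≤ 4 * n)).card : ℝ) * (4 * n)
      ≤ (k : ℝ) ^ n * n := by
    refine le_trans ?_ (sum_imb hk)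
    rw [← nsmul_eq_mul, ← sum_const]
    refine le_trans (sum_le_sum (g := fun c => imb c) ?_)
      (sum_le_sum_of_subset_of_nonneg (filter_subset _ _) (fun c _ _ => imb_nonneg c))
    intro c hc
    rw [mem_filter] at hc
    exact (not_le.mp hc.2).le
  have h2 : (((univ : Finset (Fin n → Fin k)).filter (fun c => ¬ imb c ≤ 4 * n)).card : ℝ)
      ≤ 1 / 4 * (k : ℝ) ^ n := by
    have : (((univ : Finset (Fin n → Fin k)).filter (fun c => ¬ imb c ≤ 4 * n)).card : ℝ) * (4 * n)
        ≤ (1 / 4 * (k : ℝ) ^ n) * (4 * n) := by linarith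
    exact le_of_mul_le_mul_right this (by positivity)
  have h3 := Finset.card_filter_add_card_filter_not (s := (univ : Finset (Fin n → Fin k)))
    (fun c => imb c ≤ 4 * n)
  rw [card_univ, Fintype.card_fun, Fintype.card_fin, Fintype.card_fin] at h3
  have h4 : (Bal n k) = (univ : Finset (Fin n → Fin k)).filter (fun c => imb c ≤ 4 * n) := by
    unfold Bal; congr!
  have h5 : ((Bal n k).card : ℝ)
      + (((univ : Finset (Fin n → Fin k)).filter (fun c => ¬ imb c ≤ 4 * n)).card : ℝ)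
      = (k : ℝ) ^ n := by
    rw [h4]
    exact_mod_cast h3
  linarith

lemma fib_bound (hk : 0 < k) (hn : 4 * 10 ^ 6 * (k : ℝ) ^ 2 ≤ n) (c : Fin n → Fin k)
    (hc : imb c ≤ 4 * n) (i : Fin k) :
    0.999 * ((n : ℝ) / k) ≤ (fib c i).card ∧ ((fib c i).card : ℝ) ≤ 1.001 * ((n : ℝ) / k) := by
  have hkr : (0 : ℝ) < k := by exact_mod_cast hk
  have hn0 : (0 : ℝ) < n := lt_of_lt_of_le (by positivity) hn
  have h1 : (((fib c i).card : ℝ) - n / k) ^ 2 ≤ 4 * n := by
    refine le_trans ?_ hc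
    unfold imb
    exact single_le_sum (f := fun i => (((fib c i).card : ℝ) - n / k) ^ 2)
      (fun i _ => sq_nonneg _) (mem_univ i)
  have h2 : (4 : ℝ) * n ≤ (0.001 * (n / k)) ^ 2 := by
    rw [mul_pow, div_pow, ← mul_div_assoc, le_div_iff₀ (by positivity)]
    nlinarith
  have h3 := abs_le_of_sq_le_sq' (h1.trans h2) (by positivity)
  constructor <;> linarith [h3.1, h3.2]

lemma sum_R (hk : 1000 ≤ k) (h1 : 1 ≤ Real.log k) (h2 : 4 * Real.log k ≤ k)
    (h3 : Real.log (4 * Real.log k) + 1 ≤ 0.04 * Real.log k)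
    (M N : ℕ) (hN : 2 * (N : ℝ) = (n : ℝ) ^ 2 - n)
    (hM : (M : ℝ) ≤ 0.95 * (k - 1) * Real.log k * n)
    (hn : 2 * (n : ℝ) + M ≤ 0.001 * ((n : ℝ) ^ 2 * (1 - 1 / k) / 2)) (hn0 : 0 < n) (hkn : k ≤ n)
    (hn6 : 4 * 10 ^ 6 * (k : ℝ) ^ 2 ≤ n)
    (c : Fin n → Fin k) (hc : c ∈ Bal n k) :
    ∑ c' ∈ Bal n k, qq N M (monoS c ∪ monoS c').card
        / (qq N M (monoS c).card * qq N M (monoS c').card)
      ≤ Real.exp (4 * bb k (Real.log k) / k) * (1 / Real.sqrt (1 - 0.995)) ^ (k * k)
        * (k : ℝ) ^ n := by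
  have hk0 : 0 < k := by omega
  have hkr : (1000 : ℝ) ≤ k := by exact_mod_cast hk
  have hnr : (0 : ℝ) < n := by exact_mod_cast hn0
  set L := Real.log k with hL
  have hL0 : 0 < L := by linarith
  have hbb : 0 ≤ bb k L := by
    unfold bb
    have : (0 : ℝ) ≤ (k : ℝ) - 1 := by linarith
    have h1k : (0 : ℝ) ≤ 1 - 1 / k := by
      rw [sub_nonneg, div_le_one (by linarith)]; linarith
    positivity
  rw [mem_Bal] at hc
  have hpos : ∀ c' : Fin n → Fin k, imb c' ≤ 4 * n → 0 < qq N M (monoS c').card := by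
    intro c' hc'
    apply qq_pos
    have hm := two_mono hk0 c'
    have e1 : (n : ℝ) ^ 2 / k ≤ (n : ℝ) ^ 2 / 1000 := by gcongr
    have e2 : (n : ℝ) ^ 2 * (1 - 1 / k) ≤ (n : ℝ) ^ 2 := by
      have : 0 < 1 / (k : ℝ) := by positivity
      nlinarith [sq_nonneg (n : ℝ)]
    have hM0 : (0 : ℝ) ≤ M := by positivity
    have : ((monoS c').card : ℝ) + M ≤ N := by nlinarith
    exact_mod_cast this
  have step1 : ∀ c' ∈ Bal n k, qq N M (monoS c ∪ monoS c').card
        / (qq N M (monoS c).card * qq N M (monoS c').card)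
      ≤ Real.exp (4 * bb k L / k) * Real.exp (bb k L / n * ZZ c c') := by
    intro c' hc'
    rw [mem_Bal] at hc'
    have hp1 := hpos c hc
    have hp2 := hpos c' hc'
    rw [div_le_iff₀ (by positivity)]
    have := Rbound (by omega) L hL0.le M N hN hM hn hn0 hkn c c' hc hc'
    linarith
  refine (sum_le_sum step1).trans ?_
  rw [← mul_sum, mul_assoc]
  apply mul_le_mul_of_nonneg_left _ (Real.exp_pos _).le
  have step2 : ∑ c' ∈ Bal n k, Real.exp (bb k L / n * ZZ c c')
      ≤ ∑ c' : Fin n → Fin k, Real.exp (bb k L / n * ZZ c c') :=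
    sum_le_sum_of_subset_of_nonneg (subset_univ _) (fun _ _ _ => (Real.exp_pos _).le)
  refine step2.trans ?_
  rw [mul_comm _ ((k : ℝ) ^ n)]
  refine gauss_sum hk0 c (0.96 * L) (bb k L / n) 0.995 (by positivity) (by positivity)
    (by norm_num) (dual_ineq k h1 h2 h3) ?_
  intro i
  have hf := (fib_bound hk0 hn6 c hc i).2
  have e0 : ((univ.filter (fun v => c v = i)).card : ℝ) = (fib c i).card := rfl
  rw [e0]
  have e1 : ((fib c i).card : ℝ) * (bb k L / n) / (0.96 * L)
      ≤ (1.001 * ((n : ℝ) / k)) * (bb k L / n) / (0.96 * L) := by gcongr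
  refine e1.trans ?_
  have hk1 : (0 : ℝ) < (k : ℝ) - 1 := by linarith
  have e2 : (1.001 * ((n : ℝ) / k)) * (bb k L / n) / (0.96 * L)
      = 1.001 * 0.95 / (0.96 * 0.999 ^ 2) * (k / (k - 1)) := by
    unfold bb
    have e3 : (1 : ℝ) - 1 / k = (k - 1) / k := by field_simp
    rw [e3]
    have := hk1.ne'
    field_simp
  rw [e2]
  have e3 : (k : ℝ) / (k - 1) ≤ 1000 / 999 := by
    rw [div_le_div_iff₀ hk1 (by norm_num)]
    linarith
  calc 1.001 * 0.95 / (0.96 * 0.999 ^ 2) * ((k : ℝ) / (k - 1))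
      ≤ 1.001 * 0.95 / (0.96 * 0.999 ^ 2) * (1000 / 999) := by gcongr
    _ ≤ 0.995 := by norm_num

end Pool.Agent.H991R2.BL
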