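import Mathlib
import Pool.Agent.H991R2.BL.Perm
import Pool.Agent.H991R2.BL.SecMom3
import Pool.Agent.H991R2.BL.PlantedMain

open Finset Filter Topology

namespace Pool.Agent.H991R2.BL

/-- the pairs -/
abbrev Ed (n : ℕ) := {e : Sym2 (Fin n) // ¬ e.IsDiag}

variable {n k : ℕ}

/-- monochromatic pairs as a subset of `Ed n` -/
def Ac {α : Type*} [Fintype α] [DecidableEq α] (c : Fin n → α) : Finset (Ed n) :=
  (monoS c).subtype (fun e => ¬ e.IsDiag)

lemma monoS_notDiag {α : Type*} [Fintype α] [DecidableEq α] (c : Fin n → α) :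
    ∀ e ∈ monoS c, ¬ e.IsDiag := by
  intro e
  induction e using Sym2.ind with
  | _ u v =>
    intro h
    rw [mem_monoS] at h
    rw [Sym2.mk_isDiag_iff]
    exact h.1

lemma card_subtype_of (X : Finset (Sym2 (Fin n))) (h : ∀ e ∈ X, ¬ e.IsDiag) :
    (X.subtype (fun e => ¬ e.IsDiag)).card = X.card := by
  rw [card_subtype]
  congr 1
  exact filter_true_of_mem h

lemma card_Ac (c : Fin n → Fin k) : (Ac c).card = (monoS c).card :=
  card_subtype_of _ (monoS_notDiag c)

lemma card_Ac_union (c c' : Fin n → Fin k) :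
    (Ac c ∪ Ac c').card = (monoS c ∪ monoS c').card := by
  have : Ac c ∪ Ac c' = (monoS c ∪ monoS c').subtype (fun e => ¬ e.IsDiag) := by
    ext e
    simp [Ac]
  rw [this]
  apply card_subtype_of
  intro e he
  rw [mem_union] at he
  rcases he with he | he
  · exact monoS_notDiag c e he
  · exact monoS_notDiag c' e he

/-- the edge set of a set of pairs -/
def Lift (S : Finset (Ed n)) : Finset (Sym2 (Fin n)) :=
  S.map (Function.Embedding.subtype _)

lemma mem_Lift (S : Finset (Ed n)) (e : Sym2 (Fin n)) :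
    e ∈ Lift S ↔ ∃ h : ¬ e.IsDiag, (⟨e, h⟩ : Ed n) ∈ S := by
  simp [Lift]

lemma Lift_compl (c : Fin n → Fin k) : Lift (univ \ Ac c) = bic c := by
  ext e
  induction e using Sym2.ind with
  | _ u v =>
    rw [mem_Lift, mem_bic]
    have key : ∀ h : ¬ (s(u, v) : Sym2 (Fin n)).IsDiag,
        ((⟨s(u, v), h⟩ : Ed n) ∈ univ \ Ac c ↔ ¬ (u ≠ v ∧ c u = c v)) := by
      intro h
      rw [Finset.mem_sdiff, Ac, Finset.mem_subtype, mem_monoS]
      simp only [mem_univ, true_and]
    constructor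
    · rintro ⟨h1, h2⟩ h3
      rw [key h1] at h2
      rw [Sym2.mk_isDiag_iff] at h1
      exact h2 ⟨h1, h3⟩
    · intro h
      have h1 : u ≠ v := fun h2 => h (by rw [h2])
      have h1' : ¬ (s(u, v) : Sym2 (Fin n)).IsDiag := by
        rw [Sym2.mk_isDiag_iff]; exact h1
      refine ⟨h1', ?_⟩
      rw [key h1']
      exact fun h3 => h h3.2

lemma card_Ed (n : ℕ) : 2 * ((Fintype.card (Ed n) : ℕ) : ℝ) = (n : ℝ) ^ 2 - n := by
  have h1 : Fintype.card (Ed n) = n.choose 2 := by
    have := Sym2.card_subtype_not_diag (α := Fin n)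
    rw [Fintype.card_fin] at this
    rw [← this]
  rw [h1, Nat.cast_choose_two]
  ring

lemma card_bic (c : Fin n → Fin k) : (bic c).card = Fintype.card (Ed n) - (monoS c).card := by
  rw [← Lift_compl, Lift, card_map, card_sdiff_of_subset (subset_univ _), card_univ, card_Ac]

lemma card_mono_le (c : Fin n → Fin k) : (monoS c).card ≤ Fintype.card (Ed n) := by
  rw [← card_Ac, ← card_univ]
  exact card_le_card (subset_univ _)

lemma two_bic (hk : 0 < k) (c : Fin n → Fin k) :
    2 * ((bic c).card : ℝ) = (n : ℝ) ^ 2 * (1 - 1 / k) - imb c := by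
  have h1 : ((bic c).card : ℝ) = (Fintype.card (Ed n) : ℕ) - (monoS c).card := by
    rw [card_bic, Nat.cast_sub (card_mono_le c)]
  have h2 := card_Ed n
  have h3 := two_mono hk c
  rw [h1]
  have e1 : (n : ℝ) ^ 2 * (1 - 1 / k) = (n : ℝ) ^ 2 - (n : ℝ) ^ 2 / k := by ring
  rw [e1]
  linarith

/-- the good set of orders -/
noncomputable def XX (M1 M2 : ℕ) (c : Fin n → Fin k) :
    Finset (Ed n ≃ Fin (Fintype.card (Ed n))) := by
  classical exact (PP (Ac c) M2).filter (fun σ => Good c (Lift (ini σ M1)))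

lemma mem_XX (M1 M2 : ℕ) (c : Fin n → Fin k) (σ : Ed n ≃ Fin (Fintype.card (Ed n))) :
    σ ∈ XX M1 M2 c ↔ σ ∈ PP (Ac c) M2 ∧ Good c (Lift (ini σ M1)) := by
  unfold XX; simp

lemma card_XX (M1 M2 : ℕ) (c : Fin n → Fin k) (h12 : M1 ≤ M2) (hM : M1 ≤ (bic c).card)
    (hM2 : M2 ≤ Fintype.card (Ed n)) :
    ((XX M1 M2 c).card : ℝ) = ((Fintype.card (Ed n)).factorial
      * qq (Fintype.card (Ed n)) M2 (monoS c).card) * pr (bic c) M1 (Good c) := by
  classical
  have hu := unif (Ac c) M1 M2 h12 (h12.trans hM2) (fun S => Good c (Lift S))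
  have h1 : ((powersetCard M1 (univ \ Ac c)).filter (fun S => Good c (Lift S))).card
      = ((powersetCard M1 (bic c)).filter (fun S => Good c S)).card := by
    rw [← Lift_compl c]
    unfold Lift
    rw [powersetCard_map, filter_map, card_map]
    rfl
  have h2 : Fintype.card (Ed n) - (Ac c).card = (bic c).card := by
    rw [card_Ac, card_bic]
  rw [h1, h2] at hu
  have h3 : (XX M1 M2 c).card = ((PP (Ac c) M2).filter (fun σ => Good c (Lift (ini σ M1)))).card := by
    unfold XX; congr!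
  have hpos : (0 : ℝ) < ((bic c).card.choose M1 : ℝ) := by
    exact_mod_cast Nat.choose_pos hM
  rw [pr_eq, ← card_Ac, ← card_PP (Ac c) M2 hM2, h3, ← mul_div_assoc, eq_div_iff hpos.ne']
  exact_mod_cast hu

/-- numerical conditions on `n` -/
structure NN (k n : ℕ) (M1 M2 : ℕ) : Prop where
  hk : 1000 ≤ k
  hL : 1 ≤ Real.log k
  c1 : (M2 : ℝ) ≤ 0.95 * (k - 1) * Real.log k * n
  c2 : 0.95 * (k - 1) * Real.log k * n ≤ M2 + 1
  c3 : (M1 : ℝ) ≤ 0.925 * (k - 1) * Real.log k * n
  c4 : 0.925 * (k - 1) * Real.log k * n ≤ M1 + 1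
  n1 : 2 * (n : ℝ) + M2 ≤ 0.001 * ((n : ℝ) ^ 2 * (1 - 1 / k) / 2)
  n2 : k ≤ n
  n3 : 4 * 10 ^ 6 * (k : ℝ) ^ 2 ≤ n
  n4 : 27 * Real.log k ≤ n / k

set_option maxHeartbeats 4000000 in
lemma NN.par {M1 M2 : ℕ} (h : NN k n M1 M2) (c : Fin n → Fin k) (hc : c ∈ Bal n k) :
    Par c M1 (Real.log k) ((n : ℝ) / k) := by
  have hk := h.hk
  have hk0 : 0 < k := by omega
  have hkr : (1000 : ℝ) ≤ k := by exact_mod_cast hk
  have hkr0 : (0 : ℝ) < k := by linarith
  have hn0 : (0 : ℝ) < n := by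
    have := h.n2
    exact_mod_cast (by omega : 0 < n)
  have hn1000 : (1000 : ℝ) ≤ n := by
    have := h.n2
    exact_mod_cast (by omega : 1000 ≤ n)
  have hL := h.hL
  rw [mem_Bal] at hc
  have hX := imb_nonneg c
  have h2 := two_bic hk0 c
  have hfb := fib_bound hk0 h.n3 c hc
  have hr1 : (1 : ℝ) / k ≤ 1 / 1000 := one_div_le_one_div_of_le (by norm_num) hkr
  have hr0 : (0 : ℝ) < 1 / k := by positivity
  set L := Real.log k with hLd
  have hb_lo : 0.4 * (n : ℝ) ^ 2 ≤ (bic c).card := by nlinarith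
  have hbpos : (0 : ℝ) < (bic c).card := by nlinarith
  refine ⟨?_, ?_, ?_, ?_, ?_, ?_, ?_, ?_, hL, h.n4⟩
  · rw [hLd, Real.exp_log hkr0]
  · rw [Fintype.card_fin]; field_simp
  · intro l; exact (hfb l).1
  · intro l; exact (hfb l).2
  · -- p1
    unfold dens
    rw [div_mul_div_comm, le_div_iff₀ (by positivity)]
    have e1 := h.c4
    have e2 : 2 * ((bic c).card : ℝ) * k ≤ (n : ℝ) ^ 2 * (k - 1) := by
      have : (n : ℝ) ^ 2 * (1 - 1 / k) * k = (n : ℝ) ^ 2 * (k - 1) := by field_simp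
      nlinarith
    have e3 : 0.925 * (k - 1) * L * n * n ≤ (M1 + 1) * (n : ℝ) := by gcongr
    have e4 : (n : ℝ) ≤ 0.005 * (k - 1) * L * n * n := by
      have : 1 ≤ 0.005 * ((k : ℝ) - 1) * L * n := by
        have g1 : (1 : ℝ) ≤ 0.005 * (k - 1) := by linarith
        have g2 : (1 : ℝ) ≤ 0.005 * (k - 1) * L := by nlinarith
        nlinarith
      nlinarith
    have e5 : 0.92 * L * (2 * ((bic c).card : ℝ) * k) ≤ 0.92 * L * ((n : ℝ) ^ 2 * (k - 1)) := by
      gcongr
    nlinarith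
  · -- p2
    unfold dens
    rw [div_mul_div_comm, div_le_iff₀ (by positivity)]
    have e1 := h.c3
    have e2 : (n : ℝ) ^ 2 * (k - 1) - 4 * n * k ≤ 2 * ((bic c).card : ℝ) * k := by
      have : (n : ℝ) ^ 2 * (1 - 1 / k) * k = (n : ℝ) ^ 2 * (k - 1) := by field_simp
      nlinarith
    have e3 : (M1 : ℝ) * n ≤ 0.925 * (k - 1) * L * n * n := by gcongr
    have e5 : 0.93 * L * ((n : ℝ) ^ 2 * (k - 1) - 4 * n * k)
        ≤ 0.93 * L * (2 * ((bic c).card : ℝ) * k) := by
      gcongr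
    have e6 : 4 * 0.93 * L * n * k ≤ 0.005 * (k - 1) * L * n * n := by
      have g0 : (4 * 10 ^ 6 : ℝ) ≤ n := by
        refine le_trans ?_ h.n3
        nlinarith
      have g1 : 4 * 0.93 * (k : ℝ) ≤ 0.005 * (k - 1) * n := by nlinarith
      have g2 : 4 * 0.93 * (k : ℝ) * (L * n) ≤ 0.005 * (k - 1) * n * (L * n) := by gcongr
      nlinarith
    nlinarith
  · have e1 := h.n1
    have e2 : (M1 : ℝ) ≤ (bic c).card := by
      have e3 := h.c3
      have e4 := h.c2
      have e5 : (M1 : ℝ) ≤ M2 + 1 := by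
        have : 0.925 * ((k : ℝ) - 1) * L * n ≤ 0.95 * (k - 1) * L * n := by
          have : (0 : ℝ) ≤ (k - 1) * L * n := by
            have : (0 : ℝ) ≤ k - 1 := by linarith
            positivity
          nlinarith
        linarith
      have e6 : (n : ℝ) ^ 2 * (1 - 1 / k) ≤ (n : ℝ) ^ 2 := by nlinarith [sq_nonneg (n : ℝ)]
      nlinarith
    exact_mod_cast e2
  · have e1 : 4 * ((n : ℝ) / k) ^ 2 ≤ 0.4 * (n : ℝ) ^ 2 := by
      rw [div_pow, ← mul_div_assoc, div_le_iff₀ (by positivity)]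
      have : (1000 : ℝ) ^ 2 ≤ (k : ℝ) ^ 2 := by gcongr
      nlinarith [sq_nonneg (n : ℝ)]
    linarith

set_option maxHeartbeats 4000000 in
/-- many orders are good -/
theorem many_good {M1 M2 : ℕ} (h : NN k n M1 M2) (h2 : 4 * Real.log k ≤ k)
    (h3 : Real.log (4 * Real.log k) + 1 ≤ 0.04 * Real.log k) (h12 : M1 ≤ M2)
    (hpl : ∀ (c : Fin n → Fin k) (M : ℕ), Par c M (Real.log k) ((n : ℝ) / k) →
      1 / 2 ≤ pr (bic c) M (Good c)) (K : ℝ)
    (hK : K = Real.exp (4 * bb k (Real.log k) / k) * (1 / Real.sqrt (1 - 0.995)) ^ (k * k)) :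
    3 / 16 * ((Fintype.card (Ed n)).factorial : ℝ) ≤ ((Bal n k).biUnion (XX M1 M2)).card * K := by
  classical
  have hk := h.hk
  have hk0 : 0 < k := by omega
  have hkr : (1000 : ℝ) ≤ k := by exact_mod_cast hk
  have hn0n : 0 < n := by have := h.n2; omega
  have hn0 : (0 : ℝ) < n := by exact_mod_cast hn0n
  have hn1000 : (1000 : ℝ) ≤ n := by
    have := h.n2
    exact_mod_cast (by omega : 1000 ≤ n)
  have hr1 : (1 : ℝ) / k ≤ 1 / 1000 := one_div_le_one_div_of_le (by norm_num) hkr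
  have hr0 : (0 : ℝ) < 1 / k := by positivity
  have hN := card_Ed n
  set N := Fintype.card (Ed n) with hNd
  have hM0 : (0 : ℝ) ≤ M2 := by positivity
  have e6 : (n : ℝ) ^ 2 * (1 - 1 / k) ≤ (n : ℝ) ^ 2 := by nlinarith [sq_nonneg (n : ℝ)]
  have hn1 := h.n1
  have hmM : ∀ c ∈ Bal n k, (monoS c).card + M2 ≤ N := by
    intro c hc
    rw [mem_Bal] at hc
    have hm := two_mono hk0 c
    have e1 : (n : ℝ) ^ 2 / k = (n : ℝ) ^ 2 * (1 / k) := by ring
    rw [e1] at hm
    have e7 : (n : ℝ) ^ 2 * (1 / k) ≤ (n : ℝ) ^ 2 * (1 / 1000) := by gcongr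
    have : ((monoS c).card : ℝ) + M2 ≤ N := by nlinarith
    exact_mod_cast this
  have hM2N : M2 ≤ N := by
    have : (M2 : ℝ) ≤ N := by nlinarith
    exact_mod_cast this
  have hsm := second_moment (Bal n k) (fun c => 1 / qq N M2 (monoS c).card)
    (fun c hc => by
      have := qq_pos N M2 (monoS c).card (hmM c hc)
      positivity)
    (XX M1 M2) ((N.factorial : ℝ) / 2) (N.factorial * (K * (k : ℝ) ^ n)) (by positivity) ?_ ?_
  · have hB := card_Bal (n := n) hk0 hn0n
    have hkn : (0 : ℝ) < (k : ℝ) ^ n := by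
      have : (0 : ℝ) < k := by linarith
      positivity
    have hBpos : (0 : ℝ) < (Bal n k).card := by linarith
    have hNf : (0 : ℝ) < N.factorial := by exact_mod_cast Nat.factorial_pos N
    set U := (((Bal n k).biUnion (XX M1 M2)).card : ℝ) with hU
    have e8 : ((Bal n k).card : ℝ) * N.factorial / 4 ≤ U * (K * (k : ℝ) ^ n) := by
      have e9 : (((Bal n k).card : ℝ) * N.factorial)
          * (((Bal n k).card : ℝ) * N.factorial / 4)
          ≤ (((Bal n k).card : ℝ) * N.factorial) * (U * (K * (k : ℝ) ^ n)) := by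
        calc (((Bal n k).card : ℝ) * N.factorial) * (((Bal n k).card : ℝ) * N.factorial / 4)
            = (((Bal n k).card : ℝ) * (N.factorial / 2)) ^ 2 := by ring
          _ ≤ _ := hsm
          _ = _ := by ring
      exact le_of_mul_le_mul_left e9 (by positivity)
    have e10 : 3 / 4 * (k : ℝ) ^ n * N.factorial / 4 ≤ U * (K * (k : ℝ) ^ n) := by
      refine le_trans ?_ e8
      gcongr
    have e11 : (3 / 16 * (N.factorial : ℝ)) * (k : ℝ) ^ n ≤ (U * K) * (k : ℝ) ^ n := by
      calc (3 / 16 * (N.factorial : ℝ)) * (k : ℝ) ^ n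
          = 3 / 4 * (k : ℝ) ^ n * N.factorial / 4 := by ring
        _ ≤ _ := e10
        _ = _ := by ring
    exact le_of_mul_le_mul_right e11 hkn
  · intro c hc
    have hpar := h.par c hc
    have hpr := hpl c M1 hpar
    have hq := qq_pos N M2 (monoS c).card (hmM c hc)
    rw [card_XX M1 M2 c h12 hpar.hM hM2N, ← hNd]
    have e1 : 1 / qq N M2 (monoS c).card
        * ((N.factorial : ℝ) * qq N M2 (monoS c).card * pr (bic c) M1 (Good c))
        = N.factorial * pr (bic c) M1 (Good c) := by field_simp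
    rw [e1]
    have : (N.factorial : ℝ) / 2 = N.factorial * (1 / 2) := by ring
    rw [this]
    gcongr
  · intro c hc
    have hR := sum_R (n := n) hk h.hL h2 h3 M2 N hN h.c1 h.n1 hn0n h.n2 h.n3 c hc
    rw [← hK] at hR
    have e1 : ∀ c' ∈ Bal n k, 1 / qq N M2 (monoS c).card * (1 / qq N M2 (monoS c').card)
        * ((XX M1 M2 c ∩ XX M1 M2 c').card : ℝ)
        ≤ N.factorial * (qq N M2 (monoS c ∪ monoS c').card
          / (qq N M2 (monoS c).card * qq N M2 (monoS c').card)) := by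
      intro c' hc'
      have hq := qq_pos N M2 (monoS c).card (hmM c hc)
      have hq' := qq_pos N M2 (monoS c').card (hmM c' hc')
      have e2 : ((XX M1 M2 c ∩ XX M1 M2 c').card : ℝ)
          ≤ N.factorial * qq N M2 (monoS c ∪ monoS c').card := by
        have e3 : XX M1 M2 c ∩ XX M1 M2 c' ⊆ PP (Ac c ∪ Ac c') M2 := by
          rw [← PP_union]
          intro σ hσ
          rw [mem_inter, mem_XX, mem_XX] at hσ
          rw [mem_inter]
          exact ⟨hσ.1.1, hσ.2.1⟩
        have e4 : ((PP (Ac c ∪ Ac c') M2).card : ℝ)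
            = N.factorial * qq N M2 (monoS c ∪ monoS c').card := by
          rw [← card_Ac_union]
          exact card_PP (Ac c ∪ Ac c') M2 hM2N
        rw [← e4]
        exact_mod_cast card_le_card e3
      calc 1 / qq N M2 (monoS c).card * (1 / qq N M2 (monoS c').card)
            * ((XX M1 M2 c ∩ XX M1 M2 c').card : ℝ)
          ≤ 1 / qq N M2 (monoS c).card * (1 / qq N M2 (monoS c').card)
            * (N.factorial * qq N M2 (monoS c ∪ monoS c').card) := by gcongr
        _ = _ := by field_simp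
    refine (sum_le_sum e1).trans ?_
    rw [← mul_sum]
    gcongr

end Pool.Agent.H991R2.BL
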