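import Mathlib
import Pool.Agent.H991R2.BL.Final

open Finset Filter Topology

namespace Pool.Agent.H991R2.BL

/-- the property of the frozen statement -/
def FProp (k n : ℕ) (ε : ℝ) (σ : {e : Sym2 (Fin n) // ¬ e.IsDiag} ≃
              Fin (Fintype.card {e : Sym2 (Fin n) // ¬ e.IsDiag})) : Prop :=
            ∀ G : ℕ → SimpleGraph (Fin n),
              (∀ t : ℕ, G t = SimpleGraph.fromEdgeSet
                {e : Sym2 (Fin n) | ∃ h : ¬ e.IsDiag, ((σ ⟨e, h⟩ : ℕ) < t)}) →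
            ∀ B : SimpleGraph (Fin n) → Prop,
              (∀ H : SimpleGraph (Fin n), B H ↔
                ∃ V : Fin k → Finset (Fin n),
                  (∀ i, (V i).Nonempty) ∧
                  (∀ i j, i ≠ j → Disjoint (V i) (V j)) ∧
                  (∀ i, H.IsIndepSet ((V i : Finset (Fin n)) : Set (Fin n))) ∧
                  (∀ i j, i ≠ j →
                    (H.induce ((V i ∪ V j : Finset (Fin n)) : Set (Fin n))).Connected) ∧
                  ¬ (k = 3 ∧ ∀ i, (V i).card = 1)) →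
            ∃ t₁ t₂ : ℕ,
              B (G t₁) ∧ (∀ t, t < t₁ → ¬ B (G t)) ∧
              ((k + 1 : ℕ∞) ≤ (G t₂).chromaticNumber) ∧
              (∀ t, t < t₂ → ¬ ((k + 1 : ℕ∞) ≤ (G t).chromaticNumber)) ∧
              (t₂ : ℝ) ≤ (t₁ : ℝ) + ε * (n : ℝ) ∧
              (t₁ : ℝ) ≤ (t₂ : ℝ) + ε * (n : ℝ)

lemma connected_of_cut {n : ℕ} (H : SimpleGraph (Fin n)) (W : Finset (Fin n)) (hW : W.Nonempty)
    (hcut : ∀ A ⊆ W, A.Nonempty → (W \ A).Nonempty → ∃ u ∈ A, ∃ v ∈ W \ A, H.Adj u v) :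
    (H.induce ((W : Finset (Fin n)) : Set (Fin n))).Connected := by
  classical
  obtain ⟨w0, hw0⟩ := hW
  have : Nonempty ((W : Finset (Fin n)) : Set (Fin n)) := ⟨⟨w0, by simpa using hw0⟩⟩
  refine SimpleGraph.Connected.mk ?_
  intro a b
  by_contra hab
  let A : Finset (Fin n) := W.filter (fun x => ∃ hx : x ∈ ((W : Finset (Fin n)) : Set (Fin n)),
    (H.induce ((W : Finset (Fin n)) : Set (Fin n))).Reachable a ⟨x, hx⟩)
  have haA : a.1 ∈ A := by
    simp only [A, mem_filter]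
    exact ⟨by simpa using a.2, a.2, SimpleGraph.Reachable.refl a⟩
  have hbA : b.1 ∈ W \ A := by
    rw [Finset.mem_sdiff]
    refine ⟨by simpa using b.2, ?_⟩
    simp only [A, mem_filter, not_and, not_exists]
    intro _ hb
    exact hab
  obtain ⟨u, hu, v, hv, huv⟩ := hcut A (filter_subset _ _) ⟨a.1, haA⟩ ⟨b.1, hbA⟩
  simp only [A, mem_filter] at hu
  obtain ⟨huW, huW', hreach⟩ := hu
  rw [Finset.mem_sdiff] at hv
  apply hv.2
  simp only [A, mem_filter]
  have hvW : v ∈ ((W : Finset (Fin n)) : Set (Fin n)) := by simpa using hv.1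
  refine ⟨hv.1, hvW, hreach.trans (SimpleGraph.Adj.reachable ?_)⟩
  exact huv

lemma not_FProp {k n M1 M2 : ℕ} {ε : ℝ} (hk : 1000 ≤ k) (h12 : M1 ≤ M2)
    (hε : (M1 : ℝ) + ε * n < M2 + 1)
    (c : Fin n → Fin k) (σ : Ed n ≃ Fin (Fintype.card (Ed n))) (hσ : σ ∈ XX M1 M2 c) :
    ¬ FProp k n ε σ := by
  intro hF
  rw [mem_XX, mem_PP] at hσ
  obtain ⟨hP, D, hDne, hDc, hDcut⟩ := hσ
  have hmono : ∀ (u v : Fin n) (h : ¬ (s(u, v) : Sym2 (Fin n)).IsDiag), c u = c v →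
      M2 ≤ (σ ⟨s(u, v), h⟩ : ℕ) := by
    intro u v h huv
    apply hP
    rw [Ac, Finset.mem_subtype, mem_monoS]
    rw [Sym2.mk_isDiag_iff] at h
    exact ⟨h, huv⟩
  obtain ⟨t₁, t₂, hB1, hB2, hχ1, hχ2, hd1, hd2⟩ := hF
    (fun t => SimpleGraph.fromEdgeSet
                {e : Sym2 (Fin n) | ∃ h : ¬ e.IsDiag, ((σ ⟨e, h⟩ : ℕ) < t)})
    (fun t => rfl)
    (fun H => ∃ V : Fin k → Finset (Fin n),
                  (∀ i, (V i).Nonempty) ∧
                  (∀ i j, i ≠ j → Disjoint (V i) (V j)) ∧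
                  (∀ i, H.IsIndepSet ((V i : Finset (Fin n)) : Set (Fin n))) ∧
                  (∀ i j, i ≠ j →
                    (H.induce ((V i ∪ V j : Finset (Fin n)) : Set (Fin n))).Connected) ∧
                  ¬ (k = 3 ∧ ∀ i, (V i).card = 1))
    (fun H => Iff.rfl)
  have hadj : ∀ (t : ℕ) (u v : Fin n), (SimpleGraph.fromEdgeSet
      {e : Sym2 (Fin n) | ∃ h : ¬ e.IsDiag, ((σ ⟨e, h⟩ : ℕ) < t)}).Adj u v ↔
      ∃ h : ¬ (s(u, v) : Sym2 (Fin n)).IsDiag, ((σ ⟨s(u, v), h⟩ : ℕ) < t) := by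
    intro t u v
    rw [SimpleGraph.fromEdgeSet_adj]
    constructor
    · rintro ⟨h, _⟩; exact h
    · rintro ⟨h, h'⟩
      refine ⟨⟨h, h'⟩, ?_⟩
      rw [Sym2.mk_isDiag_iff] at h
      exact h
  have ht1 : t₁ ≤ M1 := by
    by_contra hlt
    apply hB2 M1 (not_le.mp hlt)
    refine ⟨D, hDne, ?_, ?_, ?_, ?_⟩
    · intro i j hij
      rw [Finset.disjoint_left]
      intro x hx hx'
      have h1 := hDc i hx
      have h2 := hDc j hx'
      rw [mem_cls] at h1 h2
      exact hij (h1.symm.trans h2)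
    · intro i u hu v hv huv hadj'
      rw [hadj] at hadj'
      obtain ⟨h, h'⟩ := hadj'
      have h1 := hDc i (by simpa using hu)
      have h2 := hDc i (by simpa using hv)
      rw [mem_cls] at h1 h2
      have := hmono u v h (h1.trans h2.symm)
      omega
    · intro i j hij
      apply connected_of_cut
      · exact (hDne i).mono subset_union_left
      · intro A hA hAne hAc
        obtain ⟨u, hu, v, hv, huv⟩ := hDcut i j hij A hA hAne hAc
        refine ⟨u, hu, v, hv, ?_⟩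
        rw [hadj]
        rw [mem_Lift] at huv
        obtain ⟨h, h'⟩ := huv
        rw [mem_ini] at h'
        exact ⟨h, h'⟩
    · rintro ⟨h3, _⟩
      omega
  have ht2 : M2 < t₂ := by
    by_contra hle
    push Not at hle
    have hcol : (SimpleGraph.fromEdgeSet
      {e : Sym2 (Fin n) | ∃ h : ¬ e.IsDiag, ((σ ⟨e, h⟩ : ℕ) < t₂)}).Colorable k := by
      refine ⟨SimpleGraph.Coloring.mk c ?_⟩
      intro u v huv hcuv
      rw [hadj] at huv
      obtain ⟨h, h'⟩ := huv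
      have := hmono u v h hcuv
      omega
    have hle2 := hcol.chromaticNumber_le
    have h5 := hχ1.trans hle2
    have h6 : ((k + 1 : ℕ) : ℕ∞) ≤ (k : ℕ∞) := by exact_mod_cast h5
    have h7 : k + 1 ≤ k := by exact_mod_cast h6
    omega
  have h8 : (t₁ : ℝ) ≤ M1 := by exact_mod_cast ht1
  have h9 : (M2 : ℝ) + 1 ≤ t₂ := by exact_mod_cast ht2
  linarith

lemma ratio_le {k n M1 M2 : ℕ} {ε K : ℝ} (hk : 1000 ≤ k) (h12 : M1 ≤ M2)
    (hε : (M1 : ℝ) + ε * n < M2 + 1) (hK : 0 < K)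
    (h : 3 / 16 * ((Fintype.card (Ed n)).factorial : ℝ)
      ≤ ((Bal n k).biUnion (XX M1 M2)).card * K) :
    (({σ : {e : Sym2 (Fin n) // ¬ e.IsDiag} ≃
              Fin (Fintype.card {e : Sym2 (Fin n) // ¬ e.IsDiag}) | FProp k n ε σ} : Set _).ncard : ℝ)
      / ((Fintype.card {e : Sym2 (Fin n) // ¬ e.IsDiag}).factorial : ℝ) ≤ 1 - 3 / (16 * K) := by
  classical
  set U := (Bal n k).biUnion (XX M1 M2) with hU
  have hNf : (0 : ℝ) < ((Fintype.card (Ed n)).factorial : ℝ) := by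
    exact_mod_cast Nat.factorial_pos _
  have h1 : {σ : {e : Sym2 (Fin n) // ¬ e.IsDiag} ≃
              Fin (Fintype.card {e : Sym2 (Fin n) // ¬ e.IsDiag}) | FProp k n ε σ}
      ⊆ ((univ \ U : Finset (Ed n ≃ Fin (Fintype.card (Ed n)))) : Set _) := by
    intro σ hσ
    rw [Finset.mem_coe, Finset.mem_sdiff]
    refine ⟨mem_univ _, fun hin => ?_⟩
    rw [hU, mem_biUnion] at hin
    obtain ⟨c, _, hc⟩ := hin
    exact not_FProp hk h12 hε c σ hc hσ
  have h2 := Set.ncard_le_ncard h1 (Finset.finite_toSet _)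
  rw [Set.ncard_coe_finset] at h2
  have h3 : (univ \ U).card + U.card = (Fintype.card (Ed n)).factorial := by
    rw [Finset.card_sdiff_add_card_eq_card (subset_univ _), card_univ]
    exact Fintype.card_equiv (Fintype.equivFin (Ed n))
  have h4 : ((univ \ U).card : ℝ) + U.card = (Fintype.card (Ed n)).factorial := by
    exact_mod_cast h3
  have h5 : 3 / (16 * K) * ((Fintype.card (Ed n)).factorial : ℝ) ≤ U.card := by
    rw [div_mul_eq_mul_div, div_le_iff₀ (by positivity)]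
    linarith
  rw [div_le_iff₀ hNf]
  have h6 : (({σ : {e : Sym2 (Fin n) // ¬ e.IsDiag} ≃
              Fin (Fintype.card {e : Sym2 (Fin n) // ¬ e.IsDiag}) | FProp k n ε σ} : Set _).ncard : ℝ)
      ≤ ((univ \ U).card : ℝ) := by exact_mod_cast h2
  have h7 : (1 - 3 / (16 * K)) * ((Fintype.card (Ed n)).factorial : ℝ)
    = (Fintype.card (Ed n)).factorial - 3 / (16 * K) * ((Fintype.card (Ed n)).factorial : ℝ) := by
    ring
  calc _ ≤ ((univ \ U).card : ℝ) := h6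
    _ ≤ (Fintype.card (Ed n)).factorial - 3 / (16 * K) * ((Fintype.card (Ed n)).factorial : ℝ) := by
      linarith
    _ = _ := h7.symm

/-- the conditions on `L = log k` -/
structure LL (L : ℝ) : Prop where
  l1 : 1 ≤ L
  l3 : Real.log (4 * L) + 1 ≤ 0.04 * L
  l4 : ∀ k : ℕ, (k : ℝ) = Real.exp L →
    ∀ᶠ ν : ℝ in atTop, ∀ (n : ℕ) (c : Fin n → Fin k) (M : ℕ), Par c M L ν →
      1 / 2 ≤ pr (bic c) M (Good c)

lemma ev_LL : ∀ᶠ L : ℝ in atTop, LL L := by
  have h1 := Real.isLittleO_log_id_atTop.bound (show (0 : ℝ) < 0.01 by norm_num)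
  filter_upwards [h1, eventually_ge_atTop (100 : ℝ), planted_main] with L h1 h2 h3
  refine ⟨by linarith, ?_, h3⟩
  have h4 : Real.log L ≤ 0.01 * L := by
    have := le_trans (le_abs_self _) h1
    simpa [abs_of_nonneg (by linarith : (0 : ℝ) ≤ L)] using this
  have h5 : Real.log 4 ≤ 2 := by
    have : Real.log 4 = 2 * Real.log 2 := by
      rw [show (4 : ℝ) = 2 ^ 2 by norm_num, Real.log_pow]; push_cast; ring
    rw [this]
    have := Real.log_two_lt_d9
    linarith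
  rw [Real.log_mul (by norm_num) (by linarith)]
  linarith

lemma exists_k : ∃ k : ℕ, 1000 ≤ k ∧ 4 * Real.log k ≤ k ∧ LL (Real.log k) := by
  have h1 : Tendsto (fun k : ℕ => Real.log (k : ℝ)) atTop atTop :=
    Real.tendsto_log_atTop.comp tendsto_natCast_atTop_atTop
  have h2 := h1.eventually ev_LL
  have h3 : ∀ᶠ k : ℕ in atTop, 4 * Real.log k ≤ k := by
    have h4 := Real.isLittleO_log_id_atTop.bound (show (0 : ℝ) < 0.01 by norm_num)
    have h5 := tendsto_natCast_atTop_atTop (R := ℝ) |>.eventually h4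
    filter_upwards [h5] with k h5
    have h6 : Real.log k ≤ 0.01 * k := by
      have := le_trans (le_abs_self _) h5
      simpa [abs_of_nonneg (Nat.cast_nonneg k : (0 : ℝ) ≤ k)] using this
    have : (0 : ℝ) ≤ k := Nat.cast_nonneg k
    linarith
  obtain ⟨k, hk⟩ := (((eventually_ge_atTop 1000).and h3).and h2).exists
  exact ⟨k, hk.1.1, hk.1.2, hk.2⟩

lemma ev_NN (k : ℕ) (hk : 1000 ≤ k) (hL : 1 ≤ Real.log k) :
    ∀ᶠ n : ℕ in atTop, NN k n ⌊0.925 * ((k : ℝ) - 1) * Real.log k * n⌋₊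
      ⌊0.95 * ((k : ℝ) - 1) * Real.log k * n⌋₊ := by
  have hkr : (1000 : ℝ) ≤ k := by exact_mod_cast hk
  have hk1 : (0 : ℝ) ≤ (k : ℝ) - 1 := by linarith
  have hr1 : (1 : ℝ) / k ≤ 1 / 1000 := one_div_le_one_div_of_le (by norm_num) hkr
  set L := Real.log k with hLd
  have g1 := (tendsto_natCast_atTop_atTop (R := ℝ)).eventually_ge_atTop
    ((2 + 0.95 * ((k : ℝ) - 1) * L) / 0.0004)
  have g2 := (tendsto_natCast_atTop_atTop (R := ℝ)).eventually_ge_atTop
    (4 * 10 ^ 6 * (k : ℝ) ^ 2)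
  have g3 := (tendsto_natCast_atTop_atTop (R := ℝ)).eventually_ge_atTop (27 * L * k)
  filter_upwards [g1, g2, g3, eventually_ge_atTop k] with n g1 g2 g3 g4
  have hn0 : (0 : ℝ) ≤ n := Nat.cast_nonneg n
  have f1 : ((⌊0.95 * ((k : ℝ) - 1) * L * n⌋₊ : ℕ) : ℝ) ≤ 0.95 * ((k : ℝ) - 1) * L * n :=
    Nat.floor_le (by positivity)
  refine ⟨hk, hL, f1, (Nat.lt_floor_add_one _).le, Nat.floor_le (by positivity),
    (Nat.lt_floor_add_one _).le, ?_, g4, g2, ?_⟩
  · rw [div_le_iff₀ (by norm_num)] at g1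
    have e1 : (2 + 0.95 * ((k : ℝ) - 1) * L) * n ≤ (n * 0.0004) * n := by gcongr
    have e2 : (n : ℝ) ^ 2 * (1 - 1 / 1000) ≤ (n : ℝ) ^ 2 * (1 - 1 / k) := by gcongr
    nlinarith [sq_nonneg (n : ℝ)]
  · rw [le_div_iff₀ (by linarith)]
    exact g3

theorem main : ∃ k : ℕ, 3 ≤ k ∧ ∃ ε : ℝ, 0 < ε ∧ ¬ Filter.Tendsto (fun n : ℕ =>
    (({σ : {e : Sym2 (Fin n) // ¬ e.IsDiag} ≃
              Fin (Fintype.card {e : Sym2 (Fin n) // ¬ e.IsDiag}) | FProp k n ε σ} : Set _).ncard : ℝ)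
      / ((Fintype.card {e : Sym2 (Fin n) // ¬ e.IsDiag}).factorial : ℝ)) atTop (𝓝 1) := by
  obtain ⟨k, hk, hk4, hLL⟩ := exists_k
  have hkr : (1000 : ℝ) ≤ k := by exact_mod_cast hk
  have hL1 := hLL.l1
  refine ⟨k, by omega, 0.01, by norm_num, ?_⟩
  intro hT
  set K := Real.exp (4 * bb k (Real.log k) / k) * (1 / Real.sqrt (1 - 0.995)) ^ (k * k) with hK
  have hK0 : 0 < K := by
    have : 0 < Real.sqrt (1 - 0.995) := Real.sqrt_pos.mpr (by norm_num)
    positivity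
  have hexp : (k : ℝ) = Real.exp (Real.log k) := (Real.exp_log (by linarith)).symm
  have hpl := hLL.l4 k hexp
  have hν : Tendsto (fun n : ℕ => (n : ℝ) / k) atTop atTop :=
    tendsto_natCast_atTop_atTop.atTop_div_const (by linarith)
  have hpl2 := hν.eventually hpl
  have hev : ∀ᶠ n : ℕ in atTop, (({σ : {e : Sym2 (Fin n) // ¬ e.IsDiag} ≃
              Fin (Fintype.card {e : Sym2 (Fin n) // ¬ e.IsDiag}) | FProp k n 0.01 σ} : Set _).ncard : ℝ)
      / ((Fintype.card {e : Sym2 (Fin n) // ¬ e.IsDiag}).factorial : ℝ) ≤ 1 - 3 / (16 * K) := by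
    filter_upwards [hpl2, ev_NN k hk hL1, eventually_ge_atTop 1] with n h1 h2 h3
    have hn1 : (1 : ℝ) ≤ n := by exact_mod_cast h3
    have hk1 : (0 : ℝ) ≤ (k : ℝ) - 1 := by linarith
    have hpos : (999 : ℝ) ≤ ((k : ℝ) - 1) * Real.log k * n := by
      have g1 : (999 : ℝ) ≤ ((k : ℝ) - 1) * Real.log k := by nlinarith
      nlinarith
    have h12 : ⌊0.925 * ((k : ℝ) - 1) * Real.log k * n⌋₊
        ≤ ⌊0.95 * ((k : ℝ) - 1) * Real.log k * n⌋₊ := by
      apply Nat.floor_le_floor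
      nlinarith
    apply ratio_le hk h12 _ hK0
    · exact many_good h2 hk4 hLL.l3 h12 (h1 n) K hK
    · have e1 := h2.c3
      have e2 := h2.c2
      have e3 : 0.01 * (n : ℝ) < 0.025 * (((k : ℝ) - 1) * Real.log k * n) := by
        have g1 : (999 : ℝ) * n ≤ ((k : ℝ) - 1) * Real.log k * n := by
          have g1 : (999 : ℝ) ≤ ((k : ℝ) - 1) * Real.log k := by nlinarith
          gcongr
        nlinarith
      nlinarith
  have hle := le_of_tendsto hT hev
  have : 0 < 3 / (16 * K) := by positivity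
  linarith

end Pool.Agent.H991R2.BL
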